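import Mathlib

/-!
# Chromatic polynomials, chromatic roots, and the graphs admissible for `Δ`
-/

namespace MP6f9538

/-- A chromatic polynomial of `G`: a polynomial whose value at every natural number `q` is the
number of proper `q`-colourings of `G`. -/
def IsChromaticPolynomial {V : Type} (G : SimpleGraph V) (p : Polynomial ℂ) : Prop :=
  ∀ q : ℕ, p.eval (q : ℂ) = (Nat.card (G.Coloring (Fin q)) : ℂ)

/-- The complex number `z` is a root of the chromatic polynomial of `G`. -/
def IsChromaticRoot {V : Type} (G : SimpleGraph V) (z : ℂ) : Prop :=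
  ∃ p : Polynomial ℂ, IsChromaticPolynomial G p ∧ p.IsRoot z

/-- `G` is admissible for `Δ`: its maximum degree is `Δ` and, if `Δ = 3`, no connected component
of `G` is isomorphic to `K₄`. -/
def Admissible {V : Type} [Fintype V] (Δ : ℕ) (G : SimpleGraph V) : Prop := by
  classical
  exact G.maxDegree = Δ ∧
    (Δ = 3 → ∀ C : G.ConnectedComponent, IsEmpty (C.toSimpleGraph ≃g (⊤ : SimpleGraph (Fin 4))))

/-- The set of the moduli of the chromatic roots of `K_{Δ,Δ}`. -/
def moduli (Δ : ℕ) : Set ℝ :=
  {x | ∃ w : ℂ, IsChromaticRoot (completeBipartiteGraph (Fin Δ) (Fin Δ)) w ∧ x = ‖w‖}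

/-- The largest modulus of a chromatic root of `K_{Δ,Δ}`. -/
noncomputable def rho (Δ : ℕ) : ℝ := sSup (moduli Δ)

end MP6f9538
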