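import Pool.Agent.Lib.MP_6f9538_co.Graphs

/-! # Upper bound for the number of connected two-regular matchings -/

namespace MP6f9538

open Finset

/-- `(3 m)! ≤ 27 ^ m * m! ^ 3`. -/
theorem factorial_three_mul_le (m : ℕ) : (3 * m).factorial ≤ 27 ^ m * m.factorial ^ 3 := by
  induction m with
  | zero => simp
  | succ m ih =>
    have h1 : (3 * (m + 1)).factorial =
        (3 * m + 3) * ((3 * m + 2) * ((3 * m + 1) * (3 * m).factorial)) := by
      have : 3 * (m + 1) = 3 * m + 2 + 1 := by ring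
      rw [this, Nat.factorial_succ, Nat.factorial_succ, Nat.factorial_succ]
    rw [h1, Nat.factorial_succ]
    calc (3 * m + 3) * ((3 * m + 2) * ((3 * m + 1) * (3 * m).factorial))
        ≤ (3 * m + 3) * ((3 * m + 3) * ((3 * m + 3) * (27 ^ m * m.factorial ^ 3))) := by
          gcongr <;> omega
      _ = 27 ^ (m + 1) * ((m + 1) * m.factorial) ^ 3 := by ring

theorem descFactorial_bound (m : ℕ) :
    3 ^ m * (3 * m).descFactorial (2 * m) ≤ 81 ^ m * m.factorial ^ 2 := by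
  have h1 : m.factorial * (3 * m).descFactorial (2 * m) = (3 * m).factorial := by
    have := Nat.factorial_mul_descFactorial (n := 3 * m) (k := 2 * m) (by omega)
    rwa [show 3 * m - 2 * m = m by omega] at this
  have h2 : 0 < m.factorial := Nat.factorial_pos m
  have h3 := factorial_three_mul_le m
  rw [← h1] at h3
  have h4 : (3 * m).descFactorial (2 * m) ≤ 27 ^ m * m.factorial ^ 2 := by
    refine Nat.le_of_mul_le_mul_left ?_ h2
    calc m.factorial * (3 * m).descFactorial (2 * m) ≤ 27 ^ m * m.factorial ^ 3 := h3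
      _ = m.factorial * (27 ^ m * m.factorial ^ 2) := by ring
  calc 3 ^ m * (3 * m).descFactorial (2 * m) ≤ 3 ^ m * (27 ^ m * m.factorial ^ 2) := by
        gcongr
    _ = 81 ^ m * m.factorial ^ 2 := by
        rw [← mul_assoc, ← mul_pow]
        norm_num

/-- the pattern with unused half-edges `u` on the first side and partners `F`. -/
def patt {m : ℕ} (u : Fin m → Fin 3) (F : Fin m × Fin 2 ↪ Fin m × Fin 3) :
    Finset (Edge (Fin m) (Fin m)) :=
  univ.image fun x : Fin m × Fin 2 => ((x.1, (u x.1).succAbove x.2), F x)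

theorem exists_patt {m : ℕ} {U : Finset (Edge (Fin m) (Fin m))} (hM : IsMatching U)
    (hU : ∀ a : Fin m, (U.filter fun e => e.1.1 = a).card = 2) :
    ∃ u F, patt u F = U := by
  classical
  -- the half-edges used at `a`
  have key : ∀ a : Fin m, ∃ v : Fin 3, ∀ h : Fin 3, h ≠ v ↔ ∃ e ∈ U, e.1 = (a, h) := by
    intro a
    have hinj : Set.InjOn (fun e : Edge (Fin m) (Fin m) => e.1.2)
        ((U.filter fun e => e.1.1 = a : Finset _) : Set (Edge (Fin m) (Fin m))) := by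
      intro e he e' he' h
      simp only [coe_filter, Set.mem_ofPred_eq] at he he'
      refine hM.1 e he.1 e' he'.1 ?_
      exact Prod.ext (he.2.trans he'.2.symm) h
    have hcard : ((U.filter fun e => e.1.1 = a).image fun e => e.1.2).card = 2 := by
      rw [card_image_of_injOn hinj, hU a]
    have hc : (((U.filter fun e => e.1.1 = a).image fun e => e.1.2)ᶜ).card = 1 := by
      rw [card_compl, hcard]
      simp
    obtain ⟨v, hv⟩ := card_eq_one.1 hc
    refine ⟨v, fun h => ?_⟩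
    have h1 : h ∈ (((U.filter fun e => e.1.1 = a).image fun e => e.1.2)ᶜ) ↔ h = v := by
      rw [hv, mem_singleton]
    rw [mem_compl] at h1
    rw [Ne, ← h1, not_not]
    simp only [mem_image, mem_filter]
    constructor
    · rintro ⟨e, ⟨he, hea⟩, heh⟩
      exact ⟨e, he, Prod.ext hea heh⟩
    · rintro ⟨e, he, heq⟩
      exact ⟨e, ⟨he, by rw [heq]⟩, by rw [heq]⟩
  choose u hu using key
  have key2 : ∀ x : Fin m × Fin 2, ∃ e ∈ U, e.1 = (x.1, (u x.1).succAbove x.2) := by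
    intro x
    exact (hu x.1 _).1 (Fin.succAbove_ne _ _)
  choose g hg hg1 using key2
  refine ⟨u, ⟨fun x => (g x).2, ?_⟩, ?_⟩
  · intro x y hxy
    have h1 : g x = g y := hM.2 _ (hg x) _ (hg y) hxy
    have h2 : (x.1, (u x.1).succAbove x.2) = (y.1, (u y.1).succAbove y.2) := by
      rw [← hg1, ← hg1, h1]
    have h3 : x.1 = y.1 := (Prod.mk.inj h2).1
    have h4 : (u x.1).succAbove x.2 = (u y.1).succAbove y.2 := (Prod.mk.inj h2).2
    rw [← h3] at h4
    exact Prod.ext h3 (Fin.succAbove_right_injective h4)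
  · ext e
    simp only [patt, mem_image, mem_univ, true_and]
    constructor
    · rintro ⟨x, hx⟩
      have : e = g x := by
        rw [← hx]
        exact Prod.ext (hg1 x).symm rfl
      rw [this]
      exact hg x
    · intro he
      have h1 : e.1.2 ≠ u e.1.1 := (hu e.1.1 e.1.2).2 ⟨e, he, rfl⟩
      obtain ⟨i, hi⟩ := Fin.exists_succAbove_eq h1
      refine ⟨(e.1.1, i), ?_⟩
      have h2 : g (e.1.1, i) = e := by
        refine hM.1 _ (hg _) _ he ?_
        rw [hg1]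
        exact Prod.ext rfl hi
      have h3 : (g (e.1.1, i)).2 = e.2 := by rw [h2]
      exact Prod.ext (Prod.ext rfl hi) h3

theorem kap_le (m : ℕ) : kap m ≤ 81 ^ m * m.factorial ^ 2 := by
  classical
  refine le_trans ?_ (descFactorial_bound m)
  have h1 : kap m ≤ (univ.image fun p : (Fin m → Fin 3) × (Fin m × Fin 2 ↪ Fin m × Fin 3) =>
      patt p.1 p.2).card := by
    unfold kap
    refine card_le_card ?_
    intro U hU
    simp only [mem_filter, mem_univ, true_and] at hU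
    obtain ⟨u, F, h⟩ := exists_patt hU.1 hU.2.1.1
    exact mem_image.2 ⟨(u, F), mem_univ _, h⟩
  refine h1.trans (card_image_le.trans ?_)
  rw [card_univ, Fintype.card_prod, Fintype.card_embedding_eq]
  simp only [Fintype.card_pi, Fintype.card_fin, prod_const, card_univ, Fintype.card_prod]
  rw [mul_comm m 2, mul_comm m 3]

end MP6f9538

/-! P7c: lower bound for the number of connected two-regular matchings. -/

namespace MP6f9538

open Finset

namespace LeKap

/-- ordered pairs of distinct half-edges at a vertex. -/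
abbrev Pr : Type := {p : Fin 3 × Fin 3 // p.1 ≠ p.2}

theorem card_Pr : Fintype.card Pr = 6 := by decide

/-- cyclic data. -/
abbrev Data (n : ℕ) : Type :=
  (Equiv.Perm (Fin (n + 1)) × Equiv.Perm (Fin (n + 1))) × ((Fin (n + 1) → Pr) × (Fin (n + 1) → Pr))

def E1 {n : ℕ} (d : Data n) (i : Fin (n + 1)) : Edge (Fin (n + 1)) (Fin (n + 1)) :=
  ((d.1.1 i, (d.2.1 (d.1.1 i)).1.1), (d.1.2 i, (d.2.2 (d.1.2 i)).1.1))

def E2 {n : ℕ} (d : Data n) (i : Fin (n + 1)) : Edge (Fin (n + 1)) (Fin (n + 1)) :=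
  ((d.1.1 (i + 1), (d.2.1 (d.1.1 (i + 1))).1.2), (d.1.2 i, (d.2.2 (d.1.2 i)).1.2))

def UU {n : ℕ} (d : Data n) : Finset (Edge (Fin (n + 1)) (Fin (n + 1))) :=
  univ.image (E1 d) ∪ univ.image (E2 d)

theorem mem_UU {n : ℕ} (d : Data n) (e : Edge (Fin (n + 1)) (Fin (n + 1))) :
    e ∈ UU d ↔ (∃ i, E1 d i = e) ∨ (∃ i, E2 d i = e) := by
  simp [UU]

theorem E1_mem {n : ℕ} (d : Data n) (i : Fin (n + 1)) : E1 d i ∈ UU d :=
  (mem_UU d _).2 (Or.inl ⟨i, rfl⟩)

theorem E2_mem {n : ℕ} (d : Data n) (i : Fin (n + 1)) : E2 d i ∈ UU d :=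
  (mem_UU d _).2 (Or.inr ⟨i, rfl⟩)

/-- the edges at an `A`-vertex. -/
theorem at_A {n : ℕ} (d : Data n) (i : Fin (n + 1)) {e : Edge (Fin (n + 1)) (Fin (n + 1))}
    (he : e ∈ UU d) (h : e.1.1 = d.1.1 (i + 1)) : e = E1 d (i + 1) ∨ e = E2 d i := by
  rcases (mem_UU d e).1 he with ⟨j, rfl⟩ | ⟨j, rfl⟩
  · left
    have : j = i + 1 := d.1.1.injective h
    rw [this]
  · right
    have : j + 1 = i + 1 := d.1.1.injective h
    rw [add_right_cancel this]

/-- the edges at a `B`-vertex. -/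
theorem at_B {n : ℕ} (d : Data n) (i : Fin (n + 1)) {e : Edge (Fin (n + 1)) (Fin (n + 1))}
    (he : e ∈ UU d) (h : e.2.1 = d.1.2 i) : e = E1 d i ∨ e = E2 d i := by
  rcases (mem_UU d e).1 he with ⟨j, rfl⟩ | ⟨j, rfl⟩
  · left
    have : j = i := d.1.2.injective h
    rw [this]
  · right
    have : j = i := d.1.2.injective h
    rw [this]

theorem E1_ne_E2_A {n : ℕ} (d : Data n) (i : Fin (n + 1)) : (E1 d (i + 1)).1 ≠ (E2 d i).1 := by
  intro h
  have h2 := congrArg Prod.snd h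
  exact (d.2.1 (d.1.1 (i + 1))).2 h2

theorem E1_ne_E2_B {n : ℕ} (d : Data n) (i : Fin (n + 1)) : (E1 d i).2 ≠ (E2 d i).2 := by
  intro h
  have h2 := congrArg Prod.snd h
  exact (d.2.2 (d.1.2 i)).2 h2

theorem exists_succ {n : ℕ} (j : Fin (n + 1)) : ∃ i : Fin (n + 1), j = i + 1 :=
  ⟨j - 1, by rw [sub_add_cancel]⟩

theorem isMatching {n : ℕ} (d : Data n) : IsMatching (UU d) := by
  constructor
  · intro e he e' he' h
    obtain ⟨i, hi⟩ : ∃ i, e.1.1 = d.1.1 (i + 1) := by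
      obtain ⟨i, hi⟩ := exists_succ (d.1.1.symm e.1.1)
      exact ⟨i, by rw [← hi, Equiv.apply_symm_apply]⟩
    have hi' : e'.1.1 = d.1.1 (i + 1) := by rw [← h, hi]
    rcases at_A d i he hi with rfl | rfl <;> rcases at_A d i he' hi' with rfl | rfl
    · rfl
    · exact absurd h (E1_ne_E2_A d i)
    · exact absurd h.symm (E1_ne_E2_A d i)
    · rfl
  · intro e he e' he' h
    obtain ⟨i, hi⟩ : ∃ i, e.2.1 = d.1.2 i :=
      ⟨d.1.2.symm e.2.1, by rw [Equiv.apply_symm_apply]⟩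
    have hi' : e'.2.1 = d.1.2 i := by rw [← h, hi]
    rcases at_B d i he hi with rfl | rfl <;> rcases at_B d i he' hi' with rfl | rfl
    · rfl
    · exact absurd h (E1_ne_E2_B d i)
    · exact absurd h.symm (E1_ne_E2_B d i)
    · rfl

theorem isTwoRegular {n : ℕ} (d : Data n) : IsTwoRegular (UU d) := by
  constructor
  · intro a
    obtain ⟨i, hi⟩ : ∃ i, a = d.1.1 (i + 1) := by
      obtain ⟨i, hi⟩ := exists_succ (d.1.1.symm a)
      exact ⟨i, by rw [← hi, Equiv.apply_symm_apply]⟩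
    have : (UU d).filter (fun e => e.1.1 = a) = {E1 d (i + 1), E2 d i} := by
      ext e
      simp only [mem_filter, mem_insert, mem_singleton]
      constructor
      · rintro ⟨he, h⟩
        exact at_A d i he (h.trans hi)
      · rintro (rfl | rfl)
        · exact ⟨E1_mem d _, hi.symm⟩
        · exact ⟨E2_mem d _, hi.symm⟩
    rw [this, card_pair]
    intro h
    exact E1_ne_E2_A d i (congrArg Prod.fst h)
  · intro b
    obtain ⟨i, hi⟩ : ∃ i, b = d.1.2 i :=
      ⟨d.1.2.symm b, by rw [Equiv.apply_symm_apply]⟩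
    have : (UU d).filter (fun e => e.2.1 = b) = {E1 d i, E2 d i} := by
      ext e
      simp only [mem_filter, mem_insert, mem_singleton]
      constructor
      · rintro ⟨he, h⟩
        exact at_B d i he (h.trans hi)
      · rintro (rfl | rfl)
        · exact ⟨E1_mem d _, hi.symm⟩
        · exact ⟨E2_mem d _, hi.symm⟩
    rw [this, card_pair]
    intro h
    exact E1_ne_E2_B d i (congrArg Prod.snd h)

theorem fin_all {n : ℕ} {p : Fin (n + 1) → Prop} (i : Fin (n + 1)) (hi : p i)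
    (h : ∀ j, p j → p (j + 1)) (j : Fin (n + 1)) : p j := by
  have key : ∀ k : Fin (n + 1), p (i + k) := by
    intro k
    induction k using Fin.induction with
    | zero => simpa using hi
    | succ k ih =>
      have := h _ ih
      rw [add_assoc, Fin.coeSucc_eq_succ] at this
      exact this
  have := key (j - i)
  rw [add_sub_cancel] at this
  exact this

theorem isConn {n : ℕ} (d : Data n) : IsConn (UU d) := by
  intro T hT hne hA hB
  have s1 : ∀ i, E1 d i ∈ T → E2 d i ∈ T := by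
    intro i hi
    by_contra hn
    have h1 : d.1.2 i ∈ sB T := mem_image.2 ⟨E1 d i, hi, rfl⟩
    have h2 : d.1.2 i ∈ sB (UU d \ T) := mem_image.2 ⟨E2 d i, mem_sdiff.2 ⟨E2_mem d i, hn⟩, rfl⟩
    exact disjoint_left.1 hB h1 h2
  have s1' : ∀ i, E2 d i ∈ T → E1 d i ∈ T := by
    intro i hi
    by_contra hn
    have h1 : d.1.2 i ∈ sB T := mem_image.2 ⟨E2 d i, hi, rfl⟩
    have h2 : d.1.2 i ∈ sB (UU d \ T) := mem_image.2 ⟨E1 d i, mem_sdiff.2 ⟨E1_mem d i, hn⟩, rfl⟩
    exact disjoint_left.1 hB h1 h2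
  have s2 : ∀ i, E2 d i ∈ T → E1 d (i + 1) ∈ T := by
    intro i hi
    by_contra hn
    have h1 : d.1.1 (i + 1) ∈ sA T := mem_image.2 ⟨E2 d i, hi, rfl⟩
    have h2 : d.1.1 (i + 1) ∈ sA (UU d \ T) :=
      mem_image.2 ⟨E1 d (i + 1), mem_sdiff.2 ⟨E1_mem d _, hn⟩, rfl⟩
    exact disjoint_left.1 hA h1 h2
  obtain ⟨e, he⟩ := hne
  obtain ⟨i, hi⟩ : ∃ i, E1 d i ∈ T := by
    rcases (mem_UU d e).1 (hT he) with ⟨i, rfl⟩ | ⟨i, rfl⟩
    · exact ⟨i, he⟩
    · exact ⟨i, s1' i he⟩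
  have hall : ∀ j, E1 d j ∈ T := fin_all i hi fun j hj => s2 j (s1 j hj)
  apply le_antisymm hT
  intro e' he'
  rcases (mem_UU d e').1 he' with ⟨j, rfl⟩ | ⟨j, rfl⟩
  · exact hall j
  · exact s1 j (hall j)

theorem inj {n : ℕ} {d d' : Data n} (hU : UU d = UU d') (h0 : (E1 d 0).1 = (E1 d' 0).1) :
    d = d' := by
  have step1 : ∀ i, E1 d i = E1 d' i → E2 d i = E2 d' i := by
    intro i hi
    have hb : d.1.2 i = d'.1.2 i := congrArg (fun e => e.2.1) hi
    have := at_B d i (e := E2 d' i) (hU ▸ E2_mem d' i) hb.symm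
    rcases this with h | h
    · exfalso
      rw [hi] at h
      exact E1_ne_E2_B d' i (congrArg Prod.snd h.symm)
    · exact h.symm
  have step2 : ∀ i, E2 d i = E2 d' i → E1 d (i + 1) = E1 d' (i + 1) := by
    intro i hi
    have ha : d.1.1 (i + 1) = d'.1.1 (i + 1) := congrArg (fun e => e.1.1) hi
    have := at_A d i (e := E1 d' (i + 1)) (hU ▸ E1_mem d' (i + 1)) ha.symm
    rcases this with h | h
    · exact h.symm
    · exfalso
      rw [hi] at h
      exact E1_ne_E2_A d' i (congrArg Prod.fst h)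
  have base : E1 d 0 = E1 d' 0 :=
    (isMatching d).1 _ (E1_mem d 0) _ (hU ▸ E1_mem d' 0) h0
  have all1 : ∀ i, E1 d i = E1 d' i :=
    fin_all 0 base fun j hj => step2 j (step1 j hj)
  have all2 : ∀ i, E2 d i = E2 d' i := fun i => step1 i (all1 i)
  have ha : d.1.1 = d'.1.1 := by
    ext i
    exact congrArg (fun e => (e.1.1 : ℕ)) (all1 i)
  have hb : d.1.2 = d'.1.2 := by
    ext i
    exact congrArg (fun e => (e.2.1 : ℕ)) (all1 i)
  have hs : d.2.1 = d'.2.1 := by
    funext a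
    obtain ⟨i, hi⟩ : ∃ i, a = d.1.1 (i + 1) := by
      obtain ⟨i, hi⟩ := exists_succ (d.1.1.symm a)
      exact ⟨i, by rw [← hi, Equiv.apply_symm_apply]⟩
    have hi' : a = d'.1.1 (i + 1) := by rw [← ha]; exact hi
    apply Subtype.ext
    apply Prod.ext
    · have := congrArg (fun e => e.1.2) (all1 (i + 1))
      simp only [E1] at this
      rw [← hi, ← hi'] at this
      exact this
    · have := congrArg (fun e => e.1.2) (all2 i)
      simp only [E2] at this
      rw [← hi, ← hi'] at this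
      exact this
  have ht : d.2.2 = d'.2.2 := by
    funext b
    obtain ⟨i, hi⟩ : ∃ i, b = d.1.2 i :=
      ⟨d.1.2.symm b, by rw [Equiv.apply_symm_apply]⟩
    have hi' : b = d'.1.2 i := by rw [← hb]; exact hi
    apply Subtype.ext
    apply Prod.ext
    · have := congrArg (fun e => e.2.2) (all1 i)
      simp only [E1] at this
      rw [← hi, ← hi'] at this
      exact this
    · have := congrArg (fun e => e.2.2) (all2 i)
      simp only [E2] at this
      rw [← hi, ← hi'] at this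
      exact this
  exact Prod.ext (Prod.ext ha hb) (Prod.ext hs ht)

end LeKap

theorem le_kap {m : ℕ} (hm : 1 ≤ m) :
    m.factorial * (m - 1).factorial * 36 ^ m ≤ 3 * kap m := by
  classical
  obtain ⟨n, rfl⟩ : ∃ n, m = n + 1 := ⟨m - 1, by omega⟩
  have key : Fintype.card (LeKap.Data n) ≤
      ((univ.filter fun U : Finset (Edge (Fin (n + 1)) (Fin (n + 1))) =>
        IsMatching U ∧ IsTwoRegular U ∧ IsConn U) ×ˢ
          (univ : Finset (Fin (n + 1) × Fin 3))).card := by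
    rw [← Finset.card_univ]
    apply Finset.card_le_card_of_injOn (fun d => (LeKap.UU d, (LeKap.E1 d 0).1))
    · intro d _
      simp only [coe_product, Set.mem_prod, mem_coe, mem_filter, mem_univ, true_and, and_true]
      exact ⟨LeKap.isMatching d, LeKap.isTwoRegular d, LeKap.isConn d⟩
    · intro d _ d' _ h
      exact LeKap.inj (congrArg Prod.fst h) (congrArg Prod.snd h)
  rw [card_product] at key
  have e1 : Fintype.card (LeKap.Data n) =
      ((n + 1).factorial * (n + 1).factorial) * (6 ^ (n + 1) * 6 ^ (n + 1)) := by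
    rw [Fintype.card_prod, Fintype.card_prod, Fintype.card_prod, Fintype.card_fun,
      Fintype.card_perm, Fintype.card_fin, LeKap.card_Pr]
  have e2 : (univ : Finset (Fin (n + 1) × Fin 3)).card = (n + 1) * 3 := by
    rw [Finset.card_univ, Fintype.card_prod, Fintype.card_fin, Fintype.card_fin]
  have e3 : (univ.filter fun U : Finset (Edge (Fin (n + 1)) (Fin (n + 1))) =>
        IsMatching U ∧ IsTwoRegular U ∧ IsConn U).card = kap (n + 1) := by
    rw [kap]
  rw [e1, e2, e3] at key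
  have h36 : (36 : ℕ) ^ (n + 1) = 6 ^ (n + 1) * 6 ^ (n + 1) := by
    rw [← mul_pow]
    norm_num
  rw [Nat.add_sub_cancel, h36]
  have hf : (n + 1).factorial = (n + 1) * n.factorial := Nat.factorial_succ n
  apply Nat.le_of_mul_le_mul_left _ (Nat.succ_pos n)
  calc (n + 1) * ((n + 1).factorial * n.factorial * (6 ^ (n + 1) * 6 ^ (n + 1)))
      = ((n + 1).factorial * ((n + 1) * n.factorial)) * (6 ^ (n + 1) * 6 ^ (n + 1)) := by ring
    _ = ((n + 1).factorial * (n + 1).factorial) * (6 ^ (n + 1) * 6 ^ (n + 1)) := by rw [← hf]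
    _ ≤ kap (n + 1) * ((n + 1) * 3) := key
    _ = (n + 1) * (3 * kap (n + 1)) := by ring

end MP6f9538

/-!
A bound for the linear coefficient of a real polynomial of degree `≤ D` in terms of its constant
coefficient and its values at the points `1 / N`, `N` a large integer.
-/

namespace MP6f9538

open Finset Polynomial

lemma prod_asc (m n : ℕ) : (∏ j ∈ range n, ((m : ℝ) + ((j : ℝ) + 1))) * (m.factorial : ℝ)
    = ((m + n).factorial : ℝ) := by
  induction n with
  | zero => simp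
  | succ n ih =>
    rw [prod_range_succ, mul_right_comm, ih, ← Nat.add_assoc, Nat.factorial_succ]
    push_cast
    ring

lemma prod_desc (n : ℕ) : ∏ j ∈ range n, ((n : ℝ) - (j : ℝ)) = (n.factorial : ℝ) := by
  induction n with
  | zero => simp
  | succ n ih =>
    rw [prod_range_succ', Nat.factorial_succ]
    push_cast
    rw [← ih]
    have : ∏ k ∈ range n, ((n : ℝ) + 1 - ((k : ℝ) + 1)) = ∏ k ∈ range n, ((n : ℝ) - (k : ℝ)) :=
      prod_congr rfl fun k _ => by ring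
    rw [this]
    ring

/-- The product `∏_{j ≠ i} j² / |j² - i²|` (indices shifted by one). -/
noncomputable def g (i D : ℕ) : ℝ :=
  ∏ j ∈ (range D).erase i, ((j : ℝ) + 1) ^ 2 / |((j : ℝ) + 1) ^ 2 - ((i : ℝ) + 1) ^ 2|

lemma g_base (i : ℕ) : g i (i + 1) * (((2 * i + 2).factorial : ℝ)) =
    2 * ((i + 1).factorial : ℝ) ^ 2 := by
  unfold g
  have h1 : (range (i + 1)).erase i = range i := by
    ext x
    simp only [mem_erase, mem_range]
    omega
  rw [h1]
  have h2 : ∏ j ∈ range i, ((j : ℝ) + 1) ^ 2 / |((j : ℝ) + 1) ^ 2 - ((i : ℝ) + 1) ^ 2| =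
      (∏ j ∈ range i, ((0 : ℕ) + ((j : ℝ) + 1))) ^ 2 /
        ((∏ j ∈ range i, ((i : ℝ) - j)) * ∏ j ∈ range i, (((i + 1 : ℕ) : ℝ) + ((j : ℝ) + 1))) := by
    rw [← prod_pow, ← prod_mul_distrib, ← prod_div_distrib]
    refine prod_congr rfl fun j hj => ?_
    have hj' : (j : ℝ) + 1 ≤ i := by
      have := mem_range.mp hj
      exact_mod_cast this
    rw [abs_of_neg (by nlinarith [(Nat.cast_nonneg j : (0 : ℝ) ≤ j)])]
    push_cast
    congr 1
    · ring
    · ring
  rw [h2]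
  have e1 := prod_asc 0 i
  have e2 := prod_desc i
  have e3 := prod_asc (i + 1) i
  have f1 : ((i.factorial : ℕ) : ℝ) ≠ 0 := by exact_mod_cast i.factorial_ne_zero
  have f2 : (((i + 1).factorial : ℕ) : ℝ) ≠ 0 := by exact_mod_cast (i + 1).factorial_ne_zero
  have f3 : (((i + 1 + i).factorial : ℕ) : ℝ) ≠ 0 := by exact_mod_cast (i + 1 + i).factorial_ne_zero
  rw [Nat.factorial_zero, Nat.cast_one, mul_one, Nat.zero_add] at e1
  rw [e1, e2]
  have e3' : ∏ j ∈ range i, (((i + 1 : ℕ) : ℝ) + ((j : ℝ) + 1)) =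
      ((i + 1 + i).factorial : ℝ) / ((i + 1).factorial : ℝ) := by
    rw [eq_div_iff f2]; exact e3
  rw [e3']
  have e4 : ((2 * i + 2).factorial : ℝ) = (2 * i + 2) * ((i + 1 + i).factorial : ℝ) := by
    have : 2 * i + 2 = (i + 1 + i) + 1 := by ring
    rw [this, Nat.factorial_succ]
    push_cast
    ring
  have e5 : (((i + 1).factorial : ℕ) : ℝ) = (i + 1) * (i.factorial : ℝ) := by
    rw [Nat.factorial_succ]; push_cast; ring
  rw [e4]
  field_simp
  rw [e5]
  ring

lemma g_eq (i D : ℕ) (h : i + 1 ≤ D) :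
    g i D * (((D - (i + 1)).factorial : ℝ) * ((D + (i + 1)).factorial : ℝ)) =
      2 * (D.factorial : ℝ) ^ 2 := by
  induction D, h using Nat.le_induction with
  | base =>
    have := g_base i
    rw [Nat.sub_self, Nat.factorial_zero, Nat.cast_one, one_mul]
    have h2 : i + 1 + (i + 1) = 2 * i + 2 := by ring
    rw [h2]
    exact this
  | succ D hD ih =>
    have h1 : g i (D + 1) = g i D * (((D : ℝ) + 1) ^ 2 / |((D : ℝ) + 1) ^ 2 - ((i : ℝ) + 1) ^ 2|) := by
      unfold g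
      have : (range (D + 1)).erase i = insert D ((range D).erase i) := by
        ext x
        simp only [mem_erase, mem_range, mem_insert]
        omega
      rw [this, prod_insert (by simp), mul_comm]
    have hi : ((i : ℝ) + 1) ≤ D := by exact_mod_cast hD
    have h2 : |((D : ℝ) + 1) ^ 2 - ((i : ℝ) + 1) ^ 2| =
        ((D : ℝ) + 1 - (i + 1)) * ((D : ℝ) + 1 + (i + 1)) := by
      rw [abs_of_pos (by nlinarith [(Nat.cast_nonneg i : (0 : ℝ) ≤ i)])]
      ring
    have h3 : ((D + 1 - (i + 1)).factorial : ℝ) =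
        ((D : ℝ) + 1 - (i + 1)) * ((D - (i + 1)).factorial : ℝ) := by
      have : D + 1 - (i + 1) = (D - (i + 1)) + 1 := by omega
      rw [this, Nat.factorial_succ]
      push_cast [Nat.cast_sub hD]
      ring
    have h4 : ((D + 1 + (i + 1)).factorial : ℝ) =
        ((D : ℝ) + 1 + (i + 1)) * ((D + (i + 1)).factorial : ℝ) := by
      have : D + 1 + (i + 1) = (D + (i + 1)) + 1 := by ring
      rw [this, Nat.factorial_succ]
      push_cast
      ring
    have n1 : ((D : ℝ) + 1 - (i + 1)) ≠ 0 := by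
      have : (0 : ℝ) < (D : ℝ) + 1 - (i + 1) := by linarith
      exact this.ne'
    have n2 : ((D : ℝ) + 1 + (i + 1)) ≠ 0 := by positivity
    rw [h1, h2, h3, h4, Nat.factorial_succ]
    push_cast
    have : 2 * (((D : ℝ) + 1) * (D.factorial : ℝ)) ^ 2 =
        ((D : ℝ) + 1) ^ 2 * (2 * (D.factorial : ℝ) ^ 2) := by ring
    rw [this, ← ih]
    field_simp

lemma factorial_sq_le (D m : ℕ) (h : m ≤ D) :
    (D.factorial) ^ 2 ≤ (D - m).factorial * (D + m).factorial := by
  induction m with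
  | zero => simp [sq]
  | succ m ih =>
    have ih := ih (by omega)
    refine ih.trans ?_
    have h1 : (D - m).factorial = (D - m) * (D - (m + 1)).factorial := by
      have : D - m = (D - (m + 1)) + 1 := by omega
      rw [this, Nat.factorial_succ]
    have h2 : (D + (m + 1)).factorial = (D + m + 1) * (D + m).factorial := by
      rw [← Nat.add_assoc, Nat.factorial_succ]
    rw [h1, h2]
    calc (D - m) * (D - (m + 1)).factorial * (D + m).factorial
        ≤ (D + m + 1) * (D - (m + 1)).factorial * (D + m).factorial := by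
          refine Nat.mul_le_mul_right _ (Nat.mul_le_mul_right _ (by omega))
      _ = (D - (m + 1)).factorial * ((D + m + 1) * (D + m).factorial) := by ring

lemma g_le_two (i D : ℕ) (h : i + 1 ≤ D) : g i D ≤ 2 := by
  have h1 := g_eq i D h
  have h2 : ((D.factorial : ℝ)) ^ 2 ≤ ((D - (i + 1)).factorial : ℝ) * ((D + (i + 1)).factorial : ℝ) := by
    exact_mod_cast factorial_sq_le D (i + 1) h
  have h3 : (0 : ℝ) < ((D - (i + 1)).factorial : ℝ) * ((D + (i + 1)).factorial : ℝ) := by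
    have a := (D - (i + 1)).factorial_pos
    have b := (D + (i + 1)).factorial_pos
    positivity
  by_contra hn
  push Not at hn
  nlinarith

/-- The nodes. -/
def nd (D j : ℕ) : ℕ := 2 * D ^ 4 / (j + 1) ^ 2

lemma nd_ge {D j : ℕ} (h : j < D) : 2 * D ^ 2 ≤ nd D j := by
  unfold nd
  rw [Nat.le_div_iff_mul_le (by positivity)]
  have : (j + 1) ^ 2 ≤ D ^ 2 := Nat.pow_le_pow_left h 2
  calc 2 * D ^ 2 * (j + 1) ^ 2 ≤ 2 * D ^ 2 * D ^ 2 := Nat.mul_le_mul_left _ this
    _ = 2 * D ^ 4 := by ring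

lemma nd_le (D j : ℕ) : (nd D j : ℝ) ≤ 2 * (D : ℝ) ^ 4 / ((j : ℝ) + 1) ^ 2 := by
  unfold nd
  refine (Nat.cast_div_le).trans ?_
  push_cast
  exact le_rfl

lemma lt_nd (D j : ℕ) : 2 * (D : ℝ) ^ 4 / ((j : ℝ) + 1) ^ 2 - 1 < (nd D j : ℝ) := by
  unfold nd
  have h1 := Nat.div_add_mod (2 * D ^ 4) ((j + 1) ^ 2)
  have h2 : (2 * D ^ 4) % ((j + 1) ^ 2) < (j + 1) ^ 2 := Nat.mod_lt _ (by positivity)
  have h3 : (2 * (D : ℝ) ^ 4) < ((j : ℝ) + 1) ^ 2 * ((2 * D ^ 4 / (j + 1) ^ 2 : ℕ) : ℝ)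
      + ((j : ℝ) + 1) ^ 2 := by
    have : 2 * D ^ 4 < (j + 1) ^ 2 * (2 * D ^ 4 / (j + 1) ^ 2) + (j + 1) ^ 2 := by omega
    exact_mod_cast this
  have h4 : (0 : ℝ) < ((j : ℝ) + 1) ^ 2 := by positivity
  rw [sub_lt_iff_lt_add, div_lt_iff₀ h4]
  linarith

/-- The distance of the ideal nodes. -/
lemma ideal_dist {D i j : ℕ} (hi : i < D) (hj : j < D) (hij : i ≠ j) :
    2 * (D : ℝ) ≤ |2 * (D : ℝ) ^ 4 / ((i : ℝ) + 1) ^ 2 - 2 * (D : ℝ) ^ 4 / ((j : ℝ) + 1) ^ 2| := by
  wlog h : i < j with H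
  · rw [abs_sub_comm]
    exact H hj hi hij.symm (by omega)
  have a0 : (0 : ℝ) < (i : ℝ) + 1 := by positivity
  have b0 : (0 : ℝ) < (j : ℝ) + 1 := by positivity
  have D0 : (0 : ℝ) < D := by exact_mod_cast (by omega : 0 < D)
  have ab : (i : ℝ) + 1 ≤ j := by exact_mod_cast h
  have bD : (j : ℝ) + 1 ≤ D := by exact_mod_cast hj
  have aD : (i : ℝ) + 1 ≤ D := by linarith
  have e : 2 * (D : ℝ) ^ 4 / ((i : ℝ) + 1) ^ 2 - 2 * (D : ℝ) ^ 4 / ((j : ℝ) + 1) ^ 2 =
      2 * (D : ℝ) ^ 4 * (((j : ℝ) + 1) ^ 2 - ((i : ℝ) + 1) ^ 2) /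
        (((i : ℝ) + 1) ^ 2 * ((j : ℝ) + 1) ^ 2) := by
    field_simp
  refine le_trans ?_ (le_abs_self _)
  rw [e, le_div_iff₀ (by positivity)]
  have k1 : (j : ℝ) + 1 ≤ ((j : ℝ) + 1) ^ 2 - ((i : ℝ) + 1) ^ 2 := by nlinarith
  have k2 : ((i : ℝ) + 1) ^ 2 ≤ D ^ 2 := by nlinarith
  calc 2 * (D : ℝ) * (((i : ℝ) + 1) ^ 2 * ((j : ℝ) + 1) ^ 2)
      ≤ 2 * (D : ℝ) * (D ^ 2 * ((j : ℝ) + 1) ^ 2) := by gcongr
    _ = 2 * (D : ℝ) ^ 3 * ((j : ℝ) + 1) * ((j : ℝ) + 1) := by ring
    _ ≤ 2 * (D : ℝ) ^ 3 * D * ((j : ℝ) + 1) := by gcongr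
    _ = 2 * (D : ℝ) ^ 4 * ((j : ℝ) + 1) := by ring
    _ ≤ 2 * (D : ℝ) ^ 4 * (((j : ℝ) + 1) ^ 2 - ((i : ℝ) + 1) ^ 2) := by gcongr

lemma nd_dist {D i j : ℕ} (hi : i < D) (hj : j < D) (hij : i ≠ j) :
    |2 * (D : ℝ) ^ 4 / ((i : ℝ) + 1) ^ 2 - 2 * (D : ℝ) ^ 4 / ((j : ℝ) + 1) ^ 2| *
      (1 - 1 / (2 * D)) ≤ |(nd D i : ℝ) - nd D j| := by
  have D0 : (0 : ℝ) < D := by exact_mod_cast (by omega : 0 < D)
  have h1 := ideal_dist hi hj hij
  have a1 := nd_le D i
  have a2 := lt_nd D i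
  have b1 := nd_le D j
  have b2 := lt_nd D j
  set X := 2 * (D : ℝ) ^ 4 / ((i : ℝ) + 1) ^ 2 with hX
  set Y := 2 * (D : ℝ) ^ 4 / ((j : ℝ) + 1) ^ 2 with hY
  have h2 : |X - Y| - 1 ≤ |(nd D i : ℝ) - nd D j| := by
    rcases abs_cases (X - Y) with ⟨e, _⟩ | ⟨e, _⟩ <;>
      rcases abs_cases ((nd D i : ℝ) - nd D j) with ⟨f, _⟩ | ⟨f, _⟩ <;> rw [e, f] <;> linarith
  have h3 : 1 ≤ |X - Y| * (1 / (2 * D)) := by
    rw [mul_one_div, le_div_iff₀ (by positivity)]
    linarith
  nlinarith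

lemma pow_bound {D : ℕ} (hD : 1 ≤ D) : ((1 : ℝ) / (1 - 1 / (2 * D))) ^ (D - 1) ≤ 2 := by
  have D1 : (1 : ℝ) ≤ D := by exact_mod_cast hD
  have h1 : (1 : ℝ) / (2 * D) ≤ 1 / 2 := by
    rw [div_le_div_iff₀ (by positivity) (by positivity)]
    linarith
  have h2 : (0 : ℝ) < 1 - 1 / (2 * D) := by linarith
  have h3 : (1 : ℝ) / 2 ≤ (1 - 1 / (2 * D)) ^ (D - 1) := by
    have := one_add_mul_le_pow (a := -(1 / (2 * (D : ℝ)))) (by linarith) (D - 1)
    refine le_trans ?_ (le_of_le_of_eq this (by ring))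
    rw [Nat.cast_sub hD]
    push_cast
    have : (D : ℝ) * (1 / (2 * D)) = 1 / 2 := by field_simp
    have h5 : (0 : ℝ) < 1 / (2 * D) := by positivity
    nlinarith
  rw [div_pow, one_pow, div_le_iff₀ (by positivity)]
  linarith

lemma weight_le {D i : ℕ} (hi : i < D) :
    ∏ j ∈ (range D).erase i, ((nd D i : ℝ) / |(nd D i : ℝ) - nd D j|) ≤ 4 := by
  have hD : 1 ≤ D := by omega
  have D1 : (1 : ℝ) ≤ D := by exact_mod_cast hD
  have h1 : (1 : ℝ) / (2 * D) ≤ 1 / 2 := by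
    rw [div_le_div_iff₀ (by positivity) (by positivity)]
    linarith
  have h2 : (0 : ℝ) < 1 - 1 / (2 * D) := by linarith
  have hc : 0 ≤ (1 : ℝ) / (1 - 1 / (2 * D)) := by positivity
  calc ∏ j ∈ (range D).erase i, ((nd D i : ℝ) / |(nd D i : ℝ) - nd D j|)
      ≤ ∏ j ∈ (range D).erase i, (((j : ℝ) + 1) ^ 2 / |((j : ℝ) + 1) ^ 2 - ((i : ℝ) + 1) ^ 2| *
          (1 / (1 - 1 / (2 * D)))) := by
        refine prod_le_prod (fun j _ => by positivity) fun j hj => ?_
        obtain ⟨hji, hj⟩ := mem_erase.mp hj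
        rw [mem_range] at hj
        have k1 := nd_dist hi hj hji.symm
        have k2 := ideal_dist hi hj hji.symm
        have k3 := nd_le D i
        have D0 : (0 : ℝ) < D := by linarith
        have a0 : (0 : ℝ) < (i : ℝ) + 1 := by positivity
        have b0 : (0 : ℝ) < (j : ℝ) + 1 := by positivity
        have hne : ((j : ℝ) + 1) ^ 2 - ((i : ℝ) + 1) ^ 2 ≠ 0 := by
          intro h0
          have : ((j : ℝ) + 1) ^ 2 = ((i : ℝ) + 1) ^ 2 := by linarith
          have := (sq_eq_sq₀ b0.le a0.le).mp this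
          apply hji
          exact_mod_cast (by linarith : (j : ℝ) = i)
        have e : |2 * (D : ℝ) ^ 4 / ((i : ℝ) + 1) ^ 2 - 2 * (D : ℝ) ^ 4 / ((j : ℝ) + 1) ^ 2| =
            2 * (D : ℝ) ^ 4 * |((j : ℝ) + 1) ^ 2 - ((i : ℝ) + 1) ^ 2| /
              (((i : ℝ) + 1) ^ 2 * ((j : ℝ) + 1) ^ 2) := by
          have : 2 * (D : ℝ) ^ 4 / ((i : ℝ) + 1) ^ 2 - 2 * (D : ℝ) ^ 4 / ((j : ℝ) + 1) ^ 2 =
              2 * (D : ℝ) ^ 4 * (((j : ℝ) + 1) ^ 2 - ((i : ℝ) + 1) ^ 2) /
                (((i : ℝ) + 1) ^ 2 * ((j : ℝ) + 1) ^ 2) := by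
            field_simp
          rw [this, abs_div, abs_mul, abs_of_pos (by positivity : (0 : ℝ) < 2 * (D : ℝ) ^ 4),
            abs_of_pos (by positivity : (0 : ℝ) < ((i : ℝ) + 1) ^ 2 * ((j : ℝ) + 1) ^ 2)]
        have hp : 0 < |((j : ℝ) + 1) ^ 2 - ((i : ℝ) + 1) ^ 2| := abs_pos.mpr hne
        have hq : 0 < |2 * (D : ℝ) ^ 4 / ((i : ℝ) + 1) ^ 2 - 2 * (D : ℝ) ^ 4 / ((j : ℝ) + 1) ^ 2| := by
          linarith
        calc (nd D i : ℝ) / |(nd D i : ℝ) - nd D j|
            ≤ (2 * (D : ℝ) ^ 4 / ((i : ℝ) + 1) ^ 2) /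
              (|2 * (D : ℝ) ^ 4 / ((i : ℝ) + 1) ^ 2 - 2 * (D : ℝ) ^ 4 / ((j : ℝ) + 1) ^ 2| *
                (1 - 1 / (2 * D))) := by
              refine div_le_div₀ (by positivity) k3 (by positivity) k1
          _ = _ := by
              rw [e]
              field_simp
    _ = g i D * (1 / (1 - 1 / (2 * D))) ^ (D - 1) := by
        rw [prod_mul_distrib, prod_const, card_erase_of_mem (mem_range.mpr hi), card_range]
        rfl
    _ ≤ 2 * 2 := by
        refine mul_le_mul (g_le_two i D hi) (pow_bound hD) (by positivity) (by norm_num)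
    _ = 4 := by norm_num

lemma sum_inv_sq_le (D : ℕ) : ∑ j ∈ range D, (1 : ℝ) / ((j : ℝ) + 1) ^ 2 ≤ 2 := by
  have key : ∀ n : ℕ, ∑ j ∈ range (n + 1), (1 : ℝ) / ((j : ℝ) + 1) ^ 2 ≤ 2 - 1 / ((n : ℝ) + 1) := by
    intro n
    induction n with
    | zero => norm_num
    | succ n ih =>
      rw [sum_range_succ]
      have hn : (0 : ℝ) ≤ n := Nat.cast_nonneg n
      have h2 : (1 : ℝ) / (((n + 1 : ℕ) : ℝ) + 1) ^ 2 ≤
          1 / ((n : ℝ) + 1) - 1 / (((n + 1 : ℕ) : ℝ) + 1) := by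
        push_cast
        have : (1 : ℝ) / ((n : ℝ) + 1) - 1 / ((n : ℝ) + 1 + 1) =
            1 / (((n : ℝ) + 1) * (n + 1 + 1)) := by
          field_simp
          ring
        rw [this]
        refine one_div_le_one_div_of_le (by positivity) ?_
        nlinarith
      linarith
  rcases D with _ | n
  · simp
  · have h := key n
    have : (0 : ℝ) ≤ 1 / ((n : ℝ) + 1) := by positivity
    linarith

/-- The linear coefficient of a polynomial of degree at most `D` is controlled by the constant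
coefficient and the values at the points `1 / N` with `N ≥ 2 D ^ 2`. -/
theorem lagrange_bound (D : ℕ) (hD : 1 ≤ D) (P : Polynomial ℝ) (hP : P.natDegree ≤ D) (M : ℝ)
    (hM : ∀ N : ℕ, 2 * D ^ 2 ≤ N → |P.eval (1 / (N : ℝ))| ≤ M) :
    |P.coeff 1| ≤ 16 * (D : ℝ) ^ 4 * (M + |P.coeff 0|) := by
  set R := P.divX with hR
  have hR0 : R.coeff 0 = P.coeff 1 := by rw [hR, coeff_divX]
  have hRe : ∀ x : ℝ, R.eval x * x = P.eval x - P.coeff 0 := by
    intro x
    have := congrArg (Polynomial.eval x) (divX_mul_X_add P)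
    rw [eval_add, eval_mul, eval_X, eval_C] at this
    rw [← this, hR]
    ring
  have hpos : ∀ j ∈ range D, (0 : ℝ) < nd D j := by
    intro j hj
    have h1 := nd_ge (mem_range.mp hj)
    have : 0 < 2 * D ^ 2 := by positivity
    exact_mod_cast this.trans_le h1
  have hinj : Set.InjOn (fun j => (1 : ℝ) / (nd D j : ℝ)) (range D : Set ℕ) := by
    intro i hi j hj hij
    by_contra hne
    have hi' := mem_coe.mp hi
    have hj' := mem_coe.mp hj
    have h1 := hpos i hi'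
    have h2 := hpos j hj'
    have h3 : (nd D i : ℝ) = nd D j := by
      have : (1 : ℝ) / (nd D i : ℝ) = 1 / (nd D j : ℝ) := hij
      rw [div_eq_div_iff h1.ne' h2.ne'] at this
      linarith
    have h4 := nd_dist (mem_range.mp hi') (mem_range.mp hj') hne
    have h5 := ideal_dist (mem_range.mp hi') (mem_range.mp hj') hne
    rw [h3, sub_self, abs_zero] at h4
    have D1 : (1 : ℝ) ≤ D := by exact_mod_cast hD
    have h6 : (1 : ℝ) / (2 * D) ≤ 1 / 2 := by
      rw [div_le_div_iff₀ (by positivity) (by positivity)]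
      linarith
    nlinarith
  have hdeg : R.degree < (#(range D) : WithBot ℕ) := by
    rw [card_range]
    by_cases hR00 : R = 0
    · rw [hR00, degree_zero]; exact WithBot.bot_lt_coe _
    · rw [degree_eq_natDegree hR00]
      have : R.natDegree = P.natDegree - 1 := by rw [hR, natDegree_divX_eq_natDegree_tsub_one]
      rw [this]
      exact_mod_cast (by omega : P.natDegree - 1 < D)
  have hint := Lagrange.eq_interpolate (s := range D) (v := fun j => (1 : ℝ) / (nd D j : ℝ)) hinj hdeg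
  have h0 : P.coeff 1 = ∑ i ∈ range D, R.eval (1 / (nd D i : ℝ)) *
      ∏ j ∈ (range D).erase i, ((1 / (nd D i : ℝ) - 1 / (nd D j : ℝ))⁻¹ * (0 - 1 / (nd D j : ℝ))) := by
    rw [← hR0, coeff_zero_eq_eval_zero]
    conv_lhs => rw [hint]
    rw [Lagrange.interpolate_apply, eval_finsetSum]
    refine sum_congr rfl fun i _ => ?_
    rw [eval_mul, eval_C, Lagrange.basis, eval_prod]
    congr 1
    refine prod_congr rfl fun j _ => ?_
    rw [Lagrange.basisDivisor, eval_mul, eval_C, eval_sub, eval_X, eval_C]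
  have hM0 : 0 ≤ M := (abs_nonneg _).trans (hM (2 * D ^ 2) le_rfl)
  rw [h0]
  refine (abs_sum_le_sum_abs _ _).trans ?_
  have key : ∀ i ∈ range D, |R.eval (1 / (nd D i : ℝ)) *
      ∏ j ∈ (range D).erase i, ((1 / (nd D i : ℝ) - 1 / (nd D j : ℝ))⁻¹ *
        (0 - 1 / (nd D j : ℝ)))| ≤ 8 * (D : ℝ) ^ 4 * (M + |P.coeff 0|) * (1 / ((i : ℝ) + 1) ^ 2) := by
    intro i hi
    have hN := hpos i hi
    have h1 : |R.eval (1 / (nd D i : ℝ))| ≤ (nd D i : ℝ) * (M + |P.coeff 0|) := by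
      have e1 := hRe (1 / (nd D i : ℝ))
      have e2 : R.eval (1 / (nd D i : ℝ)) = (nd D i : ℝ) * (P.eval (1 / (nd D i : ℝ)) - P.coeff 0) := by
        rw [← e1]
        field_simp
      rw [e2, abs_mul, abs_of_pos hN]
      refine mul_le_mul_of_nonneg_left ?_ hN.le
      refine (abs_sub _ _).trans ?_
      have := hM (nd D i) (nd_ge (mem_range.mp hi))
      linarith
    have h2 : |∏ j ∈ (range D).erase i, ((1 / (nd D i : ℝ) - 1 / (nd D j : ℝ))⁻¹ *
        (0 - 1 / (nd D j : ℝ)))| ≤ 4 := by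
      rw [abs_prod]
      refine le_trans (le_of_eq ?_) (weight_le (mem_range.mp hi))
      refine prod_congr rfl fun j hj => ?_
      obtain ⟨hji, hj⟩ := mem_erase.mp hj
      have hNj := hpos j hj
      have e : (1 / (nd D i : ℝ) - 1 / (nd D j : ℝ))⁻¹ * (0 - 1 / (nd D j : ℝ)) =
          (nd D i : ℝ) / ((nd D i : ℝ) - nd D j) := by
        have hne : (nd D i : ℝ) - nd D j ≠ 0 := by
          intro h3
          apply hji
          apply hinj (mem_coe.mpr hj) (mem_coe.mpr hi)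
          show (1 : ℝ) / (nd D j : ℝ) = 1 / (nd D i : ℝ)
          rw [sub_eq_zero.mp h3]
        have hne' : (1 / (nd D i : ℝ) - 1 / (nd D j : ℝ)) ≠ 0 := by
          intro h3
          apply hji
          apply hinj (mem_coe.mpr hj) (mem_coe.mpr hi)
          show (1 : ℝ) / (nd D j : ℝ) = 1 / (nd D i : ℝ)
          linarith
        have h4 : (1 / (nd D i : ℝ) - 1 / (nd D j : ℝ)) =
            -(((nd D i : ℝ) - nd D j) / ((nd D i : ℝ) * nd D j)) := by
          field_simp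
          ring
        rw [h4]
        field_simp
        ring
      rw [e, abs_div, abs_of_pos hN]
    rw [abs_mul]
    calc |R.eval (1 / (nd D i : ℝ))| * |∏ j ∈ (range D).erase i,
          ((1 / (nd D i : ℝ) - 1 / (nd D j : ℝ))⁻¹ * (0 - 1 / (nd D j : ℝ)))|
        ≤ ((nd D i : ℝ) * (M + |P.coeff 0|)) * 4 :=
          mul_le_mul h1 h2 (abs_nonneg _) (by positivity)
      _ ≤ ((2 * (D : ℝ) ^ 4 / ((i : ℝ) + 1) ^ 2) * (M + |P.coeff 0|)) * 4 := by
          have := nd_le D i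
          gcongr
      _ = 8 * (D : ℝ) ^ 4 * (M + |P.coeff 0|) * (1 / ((i : ℝ) + 1) ^ 2) := by ring
  refine (sum_le_sum key).trans ?_
  rw [← mul_sum]
  have := sum_inv_sq_le D
  calc 8 * (D : ℝ) ^ 4 * (M + |P.coeff 0|) * ∑ i ∈ range D, 1 / ((i : ℝ) + 1) ^ 2
      ≤ 8 * (D : ℝ) ^ 4 * (M + |P.coeff 0|) * 2 := by
        refine mul_le_mul_of_nonneg_left this (by positivity)
    _ = 16 * (D : ℝ) ^ 4 * (M + |P.coeff 0|) := by ring

end MP6f9538

/-!
The roots of the chromatic polynomial of `K_{3,3}` have modulus less than `29 / 10`.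
-/

namespace MP6f9538

lemma quartic_real (q : ℝ) : 0 < q ^ 4 - 8 * q ^ 3 + 28 * q ^ 2 - 47 * q + 31 := by
  have h : q ^ 4 - 8 * q ^ 3 + 28 * q ^ 2 - 47 * q + 31 = ((q - 2) ^ 2 + 2) ^ 2 + q - 5 := by ring
  rw [h]
  rcases lt_or_ge 1 q with h1 | h1
  · nlinarith [sq_nonneg (q - 2), sq_nonneg ((q - 2) ^ 2)]
  · have h2 : 3 ≤ (q - 2) ^ 2 + 2 := by nlinarith
    rcases lt_or_ge (-4) q with h3 | h3
    · nlinarith
    · have h4 : (q - 2) ^ 2 ≥ - q := by nlinarith
      nlinarith [sq_nonneg ((q - 2) ^ 2 - 1)]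

/-- The resolvent is negative for `p ≥ 841 / 100`. -/
lemma resolvent_neg (p : ℝ) (hp : 841 / 100 ≤ p) :
    (p ^ 2 + 31) * (p * (8 * p - 47) ^ 2 - 2 * (p ^ 2 - 31) ^ 2)
      - (8 * p + 47) * p * (8 * p - 47) * (p ^ 2 - 31) + 56 * p * (p ^ 2 - 31) ^ 2 < 0 := by
  obtain ⟨t, ht, rfl⟩ : ∃ t, 0 ≤ t ∧ p = 841 / 100 + t := ⟨p - 841 / 100, by linarith, by ring⟩
  ring_nf
  nlinarith [mul_nonneg ht ht, mul_nonneg (mul_nonneg ht ht) ht, pow_nonneg ht 4, pow_nonneg ht 5,
    pow_nonneg ht 6]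

theorem k33_quartic (z : ℂ) (h : z ^ 4 - 8 * z ^ 3 + 28 * z ^ 2 - 47 * z + 31 = 0) :
    ‖z‖ < 29 / 10 := by
  by_contra hn
  push Not at hn
  set x := z.re with hx
  set y := z.im with hy
  set p := x ^ 2 + y ^ 2 with hp
  have hz : z = x + y * Complex.I := (Complex.re_add_im z).symm
  have hnorm : ‖z‖ ^ 2 = p := by
    rw [← Complex.normSq_eq_norm_sq, Complex.normSq_apply]
    ring
  have hp1 : 841 / 100 ≤ p := by
    rw [← hnorm]
    nlinarith
  -- real and imaginary parts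
  have hre : (x ^ 4 - 6 * x ^ 2 * y ^ 2 + y ^ 4) - 8 * (x ^ 3 - 3 * x * y ^ 2)
      + 28 * (x ^ 2 - y ^ 2) - 47 * x + 31 = 0 := by
    have := congrArg Complex.re h
    rw [hz] at this
    simp [pow_succ, Complex.add_re, Complex.mul_re, Complex.mul_im] at this
    linarith
  have him : (4 * x ^ 3 * y - 4 * x * y ^ 3) - 8 * (3 * x ^ 2 * y - y ^ 3)
      + 28 * (2 * x * y) - 47 * y = 0 := by
    have := congrArg Complex.im h
    rw [hz] at this
    simp [pow_succ, Complex.add_re, Complex.mul_re, Complex.mul_im] at this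
    linarith
  by_cases hy0 : y = 0
  · rw [hy0] at hre
    have := quartic_real x
    nlinarith
  · have him' : 4 * x ^ 3 - 4 * x * y ^ 2 - 8 * (3 * x ^ 2 - y ^ 2) + 56 * x - 47 = 0 := by
      have : y * (4 * x ^ 3 - 4 * x * y ^ 2 - 8 * (3 * x ^ 2 - y ^ 2) + 56 * x - 47) = 0 := by
        linarith
      exact (mul_eq_zero.mp this).resolve_left hy0
    -- with `s = 2 x` and `p`:
    have e1 : 2 * x * (p ^ 2 - 31) = p * (8 * p - 47) := by
      rw [hp]
      linear_combination (x ^ 2 - y ^ 2) * him' - 2 * x * hre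
    have e2 : (p ^ 2 + 31) * (2 * x ^ 2 - p) - (8 * p ^ 2 + 47 * p) * x + 28 * p ^ 2 = 0 := by
      rw [hp]
      linear_combination (x ^ 2 - y ^ 2) * hre + 2 * x * y ^ 2 * him'
    have hneg := resolvent_neg p hp1
    have hkey : (p ^ 2 + 31) * (p * (8 * p - 47) ^ 2 - 2 * (p ^ 2 - 31) ^ 2)
      - (8 * p + 47) * p * (8 * p - 47) * (p ^ 2 - 31) + 56 * p * (p ^ 2 - 31) ^ 2 = 0 := by
      have hp0 : p ≠ 0 := by linarith
      have : p * ((p ^ 2 + 31) * (p * (8 * p - 47) ^ 2 - 2 * (p ^ 2 - 31) ^ 2)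
        - (8 * p + 47) * p * (8 * p - 47) * (p ^ 2 - 31) + 56 * p * (p ^ 2 - 31) ^ 2) = 0 := by
        have : p * ((p ^ 2 + 31) * (p * (8 * p - 47) ^ 2 - 2 * (p ^ 2 - 31) ^ 2)
        - (8 * p + 47) * p * (8 * p - 47) * (p ^ 2 - 31) + 56 * p * (p ^ 2 - 31) ^ 2) =
          (p ^ 2 + 31) * ((p * (8 * p - 47)) ^ 2 - 2 * p * (p ^ 2 - 31) ^ 2)
        - (8 * p + 47) * p * (p * (8 * p - 47)) * (p ^ 2 - 31) + 56 * p ^ 2 * (p ^ 2 - 31) ^ 2 := by
          ring
        rw [this, ← e1]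
        linear_combination (2 * (p ^ 2 - 31) ^ 2) * e2
      exact (mul_eq_zero.mp this).resolve_left hp0
    linarith

open Finset

/-- The colourings of `K_{3,3}` as colourings of the first class and, for every vertex of the
second class, a colour not used on the first class. -/
def k33Equiv (q : ℕ) : (completeBipartiteGraph (Fin 3) (Fin 3)).Coloring (Fin q) ≃
    Σ f : Fin 3 → Fin q, Fin 3 → {c : Fin q // c ∉ univ.image f} where
  toFun C := ⟨fun i => C (Sum.inl i), fun j => ⟨C (Sum.inr j), by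
    rw [mem_image]
    rintro ⟨i, -, h⟩
    exact C.valid (v := Sum.inl i) (w := Sum.inr j) (by simp [completeBipartiteGraph]) h⟩⟩
  invFun x := SimpleGraph.Coloring.mk (Sum.elim x.1 fun j => (x.2 j).1) (by
    rintro (i | i) (j | j) h
    · simp [completeBipartiteGraph] at h
    · intro hh
      apply (x.2 j).2
      rw [mem_image]
      exact ⟨i, mem_univ _, hh⟩
    · intro hh
      apply (x.2 i).2
      rw [mem_image]
      exact ⟨j, mem_univ _, hh.symm⟩
    · simp [completeBipartiteGraph] at h)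
  left_inv C := by
    ext (i | i) <;> rfl
  right_inv x := by
    rfl

theorem card_k33 (q : ℕ) : Nat.card ((completeBipartiteGraph (Fin 3) (Fin 3)).Coloring (Fin q)) =
    ∑ f : Fin 3 → Fin q, (q - (univ.image f).card) ^ 3 := by
  rw [Nat.card_congr (k33Equiv q), Nat.card_sigma]
  refine sum_congr rfl fun f _ => ?_
  rw [Nat.card_eq_fintype_card, Fintype.card_fun, Fintype.card_subtype_compl, Fintype.card_fin,
    Fintype.card_fin, Fintype.card_coe]

/-- Triples as functions on `Fin 3`. -/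
def tripleEquiv (X : Type*) : X × X × X ≃ (Fin 3 → X) where
  toFun x := ![x.1, x.2.1, x.2.2]
  invFun f := (f 0, f 1, f 2)
  left_inv x := rfl
  right_inv f := by
    ext i
    fin_cases i <;> rfl

theorem image_triple {X : Type*} [DecidableEq X] (a b c : X) :
    univ.image (![a, b, c] : Fin 3 → X) = {a, b, c} := by
  ext x
  simp only [mem_image, mem_univ, true_and, Fin.exists_fin_succ, mem_insert, mem_singleton]
  simp [eq_comm]

theorem sum_ite_two {q : ℕ} (a : Fin q) (A B : ℤ) :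
    ∑ c : Fin q, (if c = a then A else B) = q * B + (A - B) := by
  have h : ∀ c : Fin q, (if c = a then A else B) = B + if c = a then A - B else 0 := by
    intro c
    split_ifs <;> ring
  rw [sum_congr rfl fun c _ => h c, sum_add_distrib, Finset.sum_ite_eq']
  simp

theorem inner_eq {q : ℕ} (a : Fin q) (G : ℕ → ℤ) :
    ∑ c : Fin q, G ({a, a, c} : Finset (Fin q)).card = q * G 2 + (G 1 - G 2) := by
  rw [← sum_ite_two a]
  refine sum_congr rfl fun c _ => ?_
  split_ifs with h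
  · subst h
    simp
  · rw [insert_eq_of_mem (mem_insert_self _ _), card_pair (Ne.symm h)]

theorem inner_ne {q : ℕ} {a b : Fin q} (hab : a ≠ b) (G : ℕ → ℤ) :
    ∑ c : Fin q, G ({a, b, c} : Finset (Fin q)).card = q * G 3 + 2 * (G 2 - G 3) := by
  have h : ∀ c : Fin q, G ({a, b, c} : Finset (Fin q)).card =
      G 3 + (if c = a then G 2 - G 3 else 0) + (if c = b then G 2 - G 3 else 0) := by
    intro c
    by_cases h1 : c = a
    · subst h1
      have : ({c, b, c} : Finset (Fin q)).card = 2 := by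
        rw [Finset.insert_eq_of_mem (by simp), card_pair (Ne.symm hab)]
      rw [if_pos rfl, if_neg hab, this]
      ring
    · by_cases h2 : c = b
      · subst h2
        have : ({a, c, c} : Finset (Fin q)).card = 2 := by
          rw [Finset.pair_eq_singleton, card_pair hab]
        rw [if_neg h1, if_pos rfl, this]
        ring
      · have : ({a, b, c} : Finset (Fin q)).card = 3 := by
          rw [card_insert_of_notMem (by simp [hab, Ne.symm h1]), card_pair (Ne.symm h2)]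
        rw [if_neg h1, if_neg h2, this]
        ring
  rw [sum_congr rfl fun c _ => h c, sum_add_distrib, sum_add_distrib, Finset.sum_ite_eq',
    Finset.sum_ite_eq']
  simp
  ring

theorem card_k33' {q : ℕ} (hq : 3 ≤ q) :
    (Nat.card ((completeBipartiteGraph (Fin 3) (Fin 3)).Coloring (Fin q)) : ℤ) =
    q * (q - 1) * (q ^ 4 - 8 * q ^ 3 + 28 * q ^ 2 - 47 * q + 31) := by
  rw [card_k33, Nat.cast_sum]
  have h1 : ∀ f : Fin 3 → Fin q, (((q - (univ.image f).card) ^ 3 : ℕ) : ℤ) =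
      (fun k : ℕ => ((q : ℤ) - k) ^ 3) (univ.image f).card := by
    intro f
    have : (univ.image f).card ≤ q := by
      refine card_image_le.trans ?_
      simpa using hq
    push_cast [Nat.cast_sub this]
    rfl
  rw [sum_congr rfl fun f _ => h1 f]
  set G : ℕ → ℤ := fun k : ℕ => ((q : ℤ) - k) ^ 3 with hG
  rw [← (tripleEquiv (Fin q)).sum_comp (fun f => G (univ.image f).card), Fintype.sum_prod_type]
  have h2 : ∀ a : Fin q, ∑ x : Fin q × Fin q, G (univ.image (tripleEquiv (Fin q) (a, x))).card =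
      q * (q * G 3 + 2 * (G 2 - G 3)) + ((q * G 2 + (G 1 - G 2)) -
        (q * G 3 + 2 * (G 2 - G 3))) := by
    intro a
    rw [Fintype.sum_prod_type, ← sum_ite_two a]
    refine sum_congr rfl fun b _ => ?_
    have h3 : ∀ c : Fin q, (univ.image (tripleEquiv (Fin q) (a, b, c))) = {a, b, c} :=
      fun c => image_triple a b c
    simp only [h3]
    split_ifs with h
    · subst h
      exact inner_eq b G
    · exact inner_ne (Ne.symm h) G
  rw [sum_congr rfl fun a _ => h2 a, sum_const, card_univ, Fintype.card_fin, nsmul_eq_mul]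
  simp only [hG]
  push_cast
  ring

/-- The roots of the chromatic polynomial of `K_{3,3}`. -/
theorem norm_lt_of_K33 {z : ℂ} {p : Polynomial ℂ}
    (hp : ∀ q : ℕ, p.eval (q : ℂ) =
      (Nat.card ((completeBipartiteGraph (Fin 3) (Fin 3)).Coloring (Fin q)) : ℂ))
    (hz : p.IsRoot z) : ‖z‖ < 29 / 10 := by
  have key : p = Polynomial.X * (Polynomial.X - 1) * (Polynomial.X ^ 4 - 8 * Polynomial.X ^ 3 +
      28 * Polynomial.X ^ 2 - 47 * Polynomial.X + 31) := by
    apply Polynomial.eq_of_infinite_eval_eq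
    have hinj : Function.Injective fun n : ℕ => ((n + 3 : ℕ) : ℂ) := fun a b hab => by
      have h : ((a + 3 : ℕ) : ℂ) = ((b + 3 : ℕ) : ℂ) := hab
      have : a + 3 = b + 3 := by exact_mod_cast h
      omega
    refine (Set.infinite_range_of_injective hinj).mono ?_
    rintro _ ⟨n, rfl⟩
    have h1 := card_k33' (q := n + 3) (by omega)
    have h2 := congrArg (Int.cast : ℤ → ℂ) h1
    change p.eval ((n + 3 : ℕ) : ℂ) = _
    rw [hp (n + 3)]
    rw [Int.cast_natCast] at h2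
    rw [h2]
    simp
  rw [key, Polynomial.IsRoot.def] at hz
  simp only [Polynomial.eval_mul, Polynomial.eval_add, Polynomial.eval_sub, Polynomial.eval_pow,
    Polynomial.eval_X, Polynomial.eval_one, Polynomial.eval_ofNat] at hz
  rcases mul_eq_zero.mp hz with h1 | h1
  · rcases mul_eq_zero.mp h1 with h2 | h2
    · rw [h2]
      norm_num
    · rw [sub_eq_zero.mp h2]
      norm_num
  · exact k33_quartic z h1

end MP6f9538

/-!
# The linear coefficient is at most `-(3 ^ k - 1) / 3` up to a smaller exponential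
-/

namespace MP6f9538
open Finset PowerSeries

/-- pairing consecutive terms -/
theorem Asym.sum_range_two_mul' (f : ℕ → ℝ) (n : ℕ) :
    ∑ i ∈ range (2 * n), f i = ∑ m ∈ range n, (f (2 * m) + f (2 * m + 1)) := by
  induction n with
  | zero => simp
  | succ n ih =>
    rw [show 2 * (n + 1) = 2 * n + 1 + 1 by ring, sum_range_succ, sum_range_succ, ih,
      sum_range_succ]
    ring

theorem Asym.sum_Icc_one (g : ℕ → ℝ) (k : ℕ) :
    ∑ m ∈ Icc 1 k, g m = ∑ m ∈ range k, g (m + 1) := by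
  have h : Icc 1 k = Ico 1 (k + 1) := by ext i; simp only [mem_Icc, mem_Ico]; omega
  rw [h, sum_Ico_eq_sum_range]
  refine sum_congr rfl fun i _ => ?_
  rw [add_comm]

theorem Asym.binom_sum (k : ℕ) (hk : 1 ≤ k) (x : ℝ) :
    (x + 1) ^ k = ∑ i ∈ range (2 * k), x ^ i * (k.choose i : ℝ) := by
  rw [add_pow]
  have h : range (k + 1) ⊆ range (2 * k) := by
    intro i hi
    simp only [mem_range] at hi ⊢
    omega
  rw [← sum_subset h]
  · refine sum_congr rfl fun i _ => ?_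
    rw [one_pow, mul_one]
  · intro i _ hi
    simp only [mem_range, not_lt] at hi
    rw [Nat.choose_eq_zero_of_lt (by omega)]
    simp

theorem Asym.odd_sum (k : ℕ) (hk : 1 ≤ k) :
    (3 : ℝ) ^ k - 1 ≤ ∑ m ∈ Icc 1 k, (4 : ℝ) ^ m * (k.choose (2 * m - 1) : ℝ) := by
  have h1 := Asym.binom_sum k hk 2
  have h2 := Asym.binom_sum k hk (-2)
  rw [Asym.sum_range_two_mul'] at h1 h2
  rw [Asym.sum_Icc_one]
  have h3 : ∑ m ∈ range k, (4 : ℝ) ^ (m + 1) * (k.choose (2 * (m + 1) - 1) : ℝ)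
      = (3 : ℝ) ^ k - (-1) ^ k := by
    have e1 : (2 + 1 : ℝ) ^ k = 3 ^ k := by norm_num
    have e2 : (-2 + 1 : ℝ) ^ k = (-1) ^ k := by norm_num
    rw [← e1, ← e2, h1, h2, ← sum_sub_distrib]
    refine sum_congr rfl fun m _ => ?_
    have e3 : 2 * (m + 1) - 1 = 2 * m + 1 := by omega
    have e4 : (-2 : ℝ) ^ (2 * m) = 4 ^ m := by rw [pow_mul]; norm_num
    have e5 : (2 : ℝ) ^ (2 * m) = 4 ^ m := by rw [pow_mul]; norm_num
    rw [e3, pow_succ (-2 : ℝ), pow_succ (2 : ℝ), e4, e5, pow_succ (4 : ℝ)]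
    ring
  rw [h3]
  have h4 : (-1 : ℝ) ^ k ≤ 1 := by
    rcases neg_one_pow_eq_or ℝ k with h | h
    · rw [h]
    · rw [h]; norm_num
  linarith

theorem Asym.choose_le (k i : ℕ) : Real.sqrt 3 ^ i * (k.choose i : ℝ) ≤ (1 + Real.sqrt 3) ^ k := by
  rcases le_or_gt i k with h | h
  · rw [add_comm, add_pow]
    have := Finset.single_le_sum (s := range (k + 1)) (a := i)
      (f := fun i => Real.sqrt 3 ^ i * 1 ^ (k - i) * (k.choose i : ℝ))
      (fun j _ => by positivity) (by simp only [mem_range]; omega)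
    simpa using this
  · rw [Nat.choose_eq_zero_of_lt h]
    simp only [Nat.cast_zero, mul_zero]
    positivity

theorem Asym.nine_pow_le {k m j : ℕ} (hm : 1 ≤ m) (hj : 2 ≤ j) :
    (9 : ℝ) ^ m * (k.choose (j * (2 * m - 1)) : ℝ) ≤ 3 * (1 + Real.sqrt 3) ^ k := by
  have h1 : (9 : ℝ) ^ m ≤ 3 * Real.sqrt 3 ^ (j * (2 * m - 1)) := by
    have e1 : (9 : ℝ) ^ m = 3 * Real.sqrt 3 ^ (2 * (2 * m - 1)) := by
      rw [pow_mul, Real.sq_sqrt (by norm_num)]
      have : 2 * m = (2 * m - 1) + 1 := by omega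
      calc (9 : ℝ) ^ m = (3 ^ 2) ^ m := by norm_num
        _ = 3 ^ (2 * m) := by rw [pow_mul]
        _ = 3 ^ ((2 * m - 1) + 1) := by rw [← this]
        _ = 3 * 3 ^ (2 * m - 1) := by rw [pow_succ]; ring
    rw [e1]
    have h2 : (1 : ℝ) ≤ Real.sqrt 3 := by
      rw [show (1 : ℝ) = Real.sqrt 1 by simp]
      exact Real.sqrt_le_sqrt (by norm_num)
    have h3 : Real.sqrt 3 ^ (2 * (2 * m - 1)) ≤ Real.sqrt 3 ^ (j * (2 * m - 1)) :=
      pow_le_pow_right₀ h2 (Nat.mul_le_mul_right _ hj)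
    linarith
  calc (9 : ℝ) ^ m * (k.choose (j * (2 * m - 1)) : ℝ)
      ≤ (3 * Real.sqrt 3 ^ (j * (2 * m - 1))) * (k.choose (j * (2 * m - 1)) : ℝ) := by
        apply mul_le_mul_of_nonneg_right h1 (Nat.cast_nonneg _)
    _ = 3 * (Real.sqrt 3 ^ (j * (2 * m - 1)) * (k.choose (j * (2 * m - 1)) : ℝ)) := by ring
    _ ≤ 3 * (1 + Real.sqrt 3) ^ k := by
        have := Asym.choose_le k (j * (2 * m - 1))
        linarith

theorem le_neg_AA (k : ℕ) (hk : 1 ≤ k) :
    (3 ^ k - 1 : ℝ) / 3 - 3 * k ^ 3 * (1 + Real.sqrt 3) ^ k ≤ - AA k := by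
  have hAA : - AA k = ∑ m ∈ Icc 1 k, (kap m : ℝ) / ((m.factorial : ℝ) ^ 2 * 9 ^ m) *
      (((2 * m - 1 : ℕ) : ℝ) *
        ∑ j ∈ Icc 1 k, (-1) ^ (j + 1) * (k.choose (j * (2 * m - 1)) : ℝ)) := by
    unfold AA
    rw [← sum_neg_distrib]
    refine sum_congr rfl fun m hm => ?_
    rw [TT_eq_kap (mem_Icc.1 hm).1 hk]
    ring
  rw [hAA]
  have hterm : ∀ m ∈ Icc 1 k, (4 : ℝ) ^ m * (k.choose (2 * m - 1) : ℝ) / 3 -
      k * (k * (3 * (1 + Real.sqrt 3) ^ k)) ≤
      (kap m : ℝ) / ((m.factorial : ℝ) ^ 2 * 9 ^ m) *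
      (((2 * m - 1 : ℕ) : ℝ) *
        ∑ j ∈ Icc 1 k, (-1) ^ (j + 1) * (k.choose (j * (2 * m - 1)) : ℝ)) := by
    intro m hm
    obtain ⟨hm1, hmk⟩ := mem_Icc.1 hm
    set c : ℝ := (kap m : ℝ) / ((m.factorial : ℝ) ^ 2 * 9 ^ m) with hc
    set s : ℝ := ((2 * m - 1 : ℕ) : ℝ) with hs
    have hs' : s = 2 * m - 1 := by rw [hs, Nat.cast_sub (by omega)]; push_cast; ring
    have hm1' : (1 : ℝ) ≤ m := by exact_mod_cast hm1
    have hf : (0 : ℝ) < (m.factorial : ℝ) := by exact_mod_cast Nat.factorial_pos m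
    have hden : (0 : ℝ) < (m.factorial : ℝ) ^ 2 * 9 ^ m := by positivity
    have hcn : 0 ≤ c := by rw [hc]; positivity
    have hcu : c ≤ 9 ^ m := by
      rw [hc, div_le_iff₀ hden]
      have h := kap_le m
      have h' : (kap m : ℝ) ≤ 81 ^ m * (m.factorial : ℝ) ^ 2 := by exact_mod_cast h
      calc (kap m : ℝ) ≤ 81 ^ m * (m.factorial : ℝ) ^ 2 := h'
        _ = 9 ^ m * ((m.factorial : ℝ) ^ 2 * 9 ^ m) := by
          rw [show (81 : ℝ) = 9 * 9 by norm_num, mul_pow]; ring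
    have hcl : 4 ^ m / (3 * m) ≤ c := by
      rw [hc, div_le_div_iff₀ (by positivity) hden]
      have h := le_kap hm1
      have h' : (m.factorial : ℝ) * ((m - 1).factorial : ℝ) * 36 ^ m ≤ 3 * kap m := by
        exact_mod_cast h
      have h'' : (m.factorial : ℝ) = m * ((m - 1).factorial : ℝ) := by
        exact_mod_cast (Nat.mul_factorial_pred (by omega : m ≠ 0)).symm
      calc (4 : ℝ) ^ m * ((m.factorial : ℝ) ^ 2 * 9 ^ m)
          = m * ((m.factorial : ℝ) * ((m - 1).factorial : ℝ) * 36 ^ m) := by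
            rw [show (36 : ℝ) = 4 * 9 by norm_num, mul_pow]
            have : (m.factorial : ℝ) ^ 2 = (m.factorial : ℝ) * (m * ((m - 1).factorial : ℝ)) := by
              rw [← h'']; ring
            rw [this]; ring
        _ ≤ m * (3 * kap m) := by
            apply mul_le_mul_of_nonneg_left h' (by linarith)
        _ = kap m * (3 * m) := by ring
    have hsplit : Icc 1 k = insert 1 (Icc 2 k) := by
      ext i; simp only [mem_Icc, mem_insert]; omega
    rw [hsplit, sum_insert (by simp)]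
    have hone : (-1 : ℝ) ^ (1 + 1) * (k.choose (1 * (2 * m - 1)) : ℝ) =
        (k.choose (2 * m - 1) : ℝ) := by norm_num
    rw [hone]
    set R : ℝ := ∑ j ∈ Icc 2 k, (-1 : ℝ) ^ (j + 1) * (k.choose (j * (2 * m - 1)) : ℝ) with hR
    set B : ℝ := (k.choose (2 * m - 1) : ℝ) with hB
    have hBn : 0 ≤ B := Nat.cast_nonneg _
    -- main term
    have hmain : (4 : ℝ) ^ m * B / 3 ≤ c * (s * B) := by
      have h1 : 4 ^ m / (3 * m) * (m * B) ≤ c * (s * B) := by
        apply mul_le_mul hcl _ (by positivity) hcn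
        apply mul_le_mul_of_nonneg_right _ hBn
        rw [hs']; linarith
      have h2 : (4 : ℝ) ^ m / (3 * m) * (m * B) = 4 ^ m * B / 3 := by
        field_simp
      linarith
    -- rest
    have hrest : |c * (s * R)| ≤ k * (k * (3 * (1 + Real.sqrt 3) ^ k)) := by
      have h1 : c * (s * R) = ∑ j ∈ Icc 2 k,
          c * (s * ((-1 : ℝ) ^ (j + 1) * (k.choose (j * (2 * m - 1)) : ℝ))) := by
        rw [hR, mul_sum, mul_sum]
      rw [h1]
      refine (abs_sum_le_sum_abs _ _).trans ?_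
      have h2 : ∀ j ∈ Icc 2 k,
          |c * (s * ((-1 : ℝ) ^ (j + 1) * (k.choose (j * (2 * m - 1)) : ℝ)))| ≤
          k * (3 * (1 + Real.sqrt 3) ^ k) := by
        intro j hj
        have hj2 : 2 ≤ j := (mem_Icc.1 hj).1
        have hsn : 0 ≤ s := by rw [hs]; positivity
        rw [abs_mul, abs_mul, abs_mul, abs_pow, abs_neg, abs_one, one_pow, one_mul,
          abs_of_nonneg hcn, abs_of_nonneg hsn, Nat.abs_cast]
        rcases le_or_gt (2 * m - 1) k with hle | hgt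
        · have hsk : s ≤ k := by rw [hs]; exact_mod_cast hle
          have h3 := Asym.nine_pow_le (k := k) hm1 hj2
          have h4 : c * (k.choose (j * (2 * m - 1)) : ℝ) ≤ 3 * (1 + Real.sqrt 3) ^ k :=
            (mul_le_mul_of_nonneg_right hcu (Nat.cast_nonneg _)).trans h3
          calc c * (s * (k.choose (j * (2 * m - 1)) : ℝ))
              = s * (c * (k.choose (j * (2 * m - 1)) : ℝ)) := by ring
            _ ≤ k * (3 * (1 + Real.sqrt 3) ^ k) := by
              apply mul_le_mul hsk h4 (by positivity) (by positivity)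
        · have : k < j * (2 * m - 1) := lt_of_lt_of_le hgt (Nat.le_mul_of_pos_left _ (by omega))
          rw [Nat.choose_eq_zero_of_lt this]
          simp only [Nat.cast_zero, mul_zero]
          positivity
      refine (sum_le_card_nsmul _ _ _ h2).trans ?_
      rw [nsmul_eq_mul]
      apply mul_le_mul_of_nonneg_right _ (by positivity)
      rw [Nat.card_Icc]
      exact_mod_cast (by omega : k + 1 - 2 ≤ k)
    have h5 := neg_abs_le (c * (s * R))
    have h6 : c * (s * (B + R)) = c * (s * B) + c * (s * R) := by ring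
    rw [h6]
    linarith
  have hsum := sum_le_sum hterm
  rw [sum_sub_distrib, sum_const, ← sum_div, Nat.card_Icc, nsmul_eq_mul] at hsum
  have h7 := Asym.odd_sum k hk
  have h8 : ((k + 1 - 1 : ℕ) : ℝ) = k := by norm_num
  rw [h8] at hsum
  refine le_trans ?_ hsum
  have h9 : (k : ℝ) * (k * (k * (3 * (1 + Real.sqrt 3) ^ k))) =
    3 * k ^ 3 * (1 + Real.sqrt 3) ^ k := by ring
  rw [h9]
  linarith

theorem exists_large {ρ : ℝ} (h0 : 0 ≤ ρ) (h3 : ρ < 3) : ∃ k : ℕ, 1 ≤ k ∧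
    (3 * k : ℝ) * (3 * k - 1) / 2 + 16 * (3 * k + 1 : ℝ) ^ 4 * (2 * ρ ^ k + 3) <
    (3 ^ k - 1 : ℝ) / 3 - 3 * k ^ 3 * (1 + Real.sqrt 3) ^ k := by
  have hs3 : Real.sqrt 3 < 2 := by
    rw [show (2 : ℝ) = Real.sqrt (2 ^ 2) by rw [Real.sqrt_sq (by norm_num)]]
    exact Real.sqrt_lt_sqrt (by norm_num) (by norm_num)
  have hs0 : 0 ≤ Real.sqrt 3 := Real.sqrt_nonneg 3
  set s : ℝ := max ρ (1 + Real.sqrt 3) with hs
  have hs1 : 1 ≤ s := by
    rw [hs]; exact le_max_of_le_right (by linarith)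
  have hslt : s < 3 := by
    rw [hs]; exact max_lt h3 (by linarith)
  have ht : Filter.Tendsto (fun n : ℕ => (n : ℝ) ^ 4 * (s / 3) ^ n) Filter.atTop (nhds 0) := by
    apply tendsto_pow_const_mul_const_pow_of_abs_lt_one
    rw [abs_of_nonneg (by positivity)]
    rw [div_lt_one (by norm_num)]
    exact hslt
  have hev := (ht.eventually_lt_const (show (0 : ℝ) < 1 / 65000 by norm_num)).and
    (Filter.eventually_ge_atTop 1)
  obtain ⟨k, hk, hk1⟩ := hev.exists
  refine ⟨k, hk1, ?_⟩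
  have hk1' : (1 : ℝ) ≤ k := by exact_mod_cast hk1
  have h3k : (0 : ℝ) < 3 ^ k := by positivity
  have hmain : 65000 * ((k : ℝ) ^ 4 * s ^ k) < 3 ^ k := by
    rw [div_pow] at hk
    have : (k : ℝ) ^ 4 * (s ^ k / 3 ^ k) = (k ^ 4 * s ^ k) / 3 ^ k := by ring
    rw [this, div_lt_iff₀ h3k] at hk
    linarith
  have hsk1 : 1 ≤ s ^ k := one_le_pow₀ hs1
  have hρ : ρ ^ k ≤ s ^ k := pow_le_pow_left₀ h0 (le_max_left _ _) k
  have hq : (1 + Real.sqrt 3) ^ k ≤ s ^ k := pow_le_pow_left₀ (by linarith) (le_max_right _ _) k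
  have hk2 : (k : ℝ) ^ 2 ≤ k ^ 4 := pow_le_pow_right₀ hk1' (by norm_num)
  have hk3 : (k : ℝ) ^ 3 ≤ k ^ 4 := pow_le_pow_right₀ hk1' (by norm_num)
  have hk4 : (1 : ℝ) ≤ k ^ 4 := one_le_pow₀ hk1'
  have hP : (k : ℝ) ^ 4 ≤ k ^ 4 * s ^ k := le_mul_of_one_le_right (by positivity) hsk1
  have a1 : (3 * k : ℝ) * (3 * k - 1) / 2 ≤ 5 * (k ^ 4 * s ^ k) := by
    nlinarith
  have a2 : (3 * k + 1 : ℝ) ^ 4 ≤ 256 * k ^ 4 := by
    have : (3 * k + 1 : ℝ) ^ 4 ≤ (4 * k) ^ 4 := pow_le_pow_left₀ (by positivity) (by linarith) 4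
    calc (3 * k + 1 : ℝ) ^ 4 ≤ (4 * k) ^ 4 := this
      _ = 256 * k ^ 4 := by ring
  have a3 : (2 * ρ ^ k + 3) ≤ 5 * s ^ k := by linarith
  have a4 : 16 * (3 * k + 1 : ℝ) ^ 4 * (2 * ρ ^ k + 3) ≤ 20480 * (k ^ 4 * s ^ k) := by
    have hρ0 : 0 ≤ ρ ^ k := pow_nonneg h0 k
    calc 16 * (3 * k + 1 : ℝ) ^ 4 * (2 * ρ ^ k + 3)
        ≤ 16 * (256 * k ^ 4) * (5 * s ^ k) := by
          apply mul_le_mul _ a3 (by positivity) (by positivity)
          linarith
      _ = 20480 * (k ^ 4 * s ^ k) := by ring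
  have a5 : 3 * (k : ℝ) ^ 3 * (1 + Real.sqrt 3) ^ k ≤ 3 * (k ^ 4 * s ^ k) := by
    calc 3 * (k : ℝ) ^ 3 * (1 + Real.sqrt 3) ^ k ≤ 3 * (k : ℝ) ^ 4 * s ^ k := by
          apply mul_le_mul _ hq (by positivity) (by positivity)
          linarith
      _ = 3 * (k ^ 4 * s ^ k) := by ring
  have a6 : (1 : ℝ) ≤ k ^ 4 * s ^ k := le_trans hk4 hP
  linarith

end MP6f9538
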