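import Pool.Agent.Lib.MP_6f9538_co.Counts

/-! The expected power sum is a polynomial in `1 / N`, up to an explicit denominator. -/

namespace MP6f9538
open Finset PowerSeries

section P6

theorem IsMatching.card_le_A {α β : Type} [Fintype α] [Fintype β] {U : Finset (Edge α β)}
    (h : IsMatching U) : U.card ≤ 3 * Fintype.card α := by
  classical
  have h1 : (U.image Prod.fst).card = U.card :=
    Finset.card_image_of_injOn fun e he e' he' hee => h.1 e he e' he' hee
  have h2 : (U.image Prod.fst).card ≤ Fintype.card (α × Fin 3) := Finset.card_le_univ _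
  rw [Fintype.card_prod, Fintype.card_fin] at h2
  omega

theorem IsMatching.card_le_B {α β : Type} [Fintype α] [Fintype β] {U : Finset (Edge α β)}
    (h : IsMatching U) : U.card ≤ 3 * Fintype.card β := by
  classical
  have h1 : (U.image Prod.snd).card = U.card :=
    Finset.card_image_of_injOn fun e he e' he' hee => h.2 e he e' he' hee
  have h2 : (U.image Prod.snd).card ≤ Fintype.card (β × Fin 3) := Finset.card_le_univ _
  rw [Fintype.card_prod, Fintype.card_fin] at h2
  omega

theorem TT_eq_sum (k a b e : ℕ)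
    [∀ U : Finset (Edge (Fin a) (Fin b)), Decidable
      (IsMatching U ∧ sA U = univ ∧ sB U = univ ∧ U.card = e)] :
    TT k a b e = ∑ U : Finset (Edge (Fin a) (Fin b)),
      if IsMatching U ∧ sA U = univ ∧ sB U = univ ∧ U.card = e then psi ℝ rk k U else 0 := by
  unfold TT
  refine Finset.sum_congr rfl fun U _ => ?_
  split_ifs <;> rfl

theorem TT_eq_zero_of_forall {k a b e : ℕ}
    (h : ∀ U : Finset (Edge (Fin a) (Fin b)), IsMatching U → sA U = univ → sB U = univ →
      U.card = e → psi ℝ rk k U = 0) : TT k a b e = 0 := by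
  classical
  rw [TT_eq_sum]
  refine Finset.sum_eq_zero fun U _ => ?_
  split_ifs with hU
  · exact h U hU.1 hU.2.1 hU.2.2.1 hU.2.2.2
  · rfl

theorem TT_eq_zero_of_lt {k a b e : ℕ} (h : 2 * k < a + b) : TT k a b e = 0 := by
  refine TT_eq_zero_of_forall fun U _ hA hB _ => ?_
  refine psi_eq_zero_of_lt rk_eq_zero_iff rk_union_le ?_
  have := card_le_two_mul_rk hA hB
  simp only [Fintype.card_fin] at this
  omega

theorem TT_eq_zero_of_lt_A {k a b e : ℕ} (h : 3 * a < e) : TT k a b e = 0 := by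
  refine TT_eq_zero_of_forall fun U hM _ _ he => ?_
  have := hM.card_le_A
  simp only [Fintype.card_fin] at this
  omega

theorem TT_eq_zero_of_lt_B {k a b e : ℕ} (h : 3 * b < e) : TT k a b e = 0 := by
  refine TT_eq_zero_of_forall fun U hM _ _ he => ?_
  have := hM.card_le_B
  simp only [Fintype.card_fin] at this
  omega

theorem TT_zero (k a b : ℕ) : TT k a b 0 = 0 := by
  refine TT_eq_zero_of_forall fun U _ _ _ he => ?_
  rw [Finset.card_eq_zero] at he
  subst he
  exact psi_empty ((rk_eq_zero_iff _).2 rfl) k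

theorem TT_one' {k a b : ℕ} (h : ¬ (a = 1 ∧ b = 1)) : TT k a b 1 = 0 := by
  refine TT_eq_zero_of_forall fun U _ hA hB he => ?_
  exfalso
  apply h
  obtain ⟨x, rfl⟩ := Finset.card_eq_one.1 he
  have h1 : (sA ({x} : Finset (Edge (Fin a) (Fin b)))).card = 1 := by simp [sA]
  have h2 : (sB ({x} : Finset (Edge (Fin a) (Fin b)))).card = 1 := by simp [sB]
  rw [hA] at h1
  rw [hB] at h2
  simp only [Finset.card_univ, Fintype.card_fin] at h1 h2
  exact ⟨h1, h2⟩

theorem isMatching_singleton {α β : Type} (e : Edge α β) : IsMatching ({e} : Finset (Edge α β)) := by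
  constructor <;> intro x hx y hy _ <;> rw [Finset.mem_singleton] at hx hy <;> rw [hx, hy]

theorem TT_one {k : ℕ} (hk : 1 ≤ k) : TT k 1 1 1 = 9 := by
  classical
  rw [TT_eq_sum, ← Finset.sum_filter]
  have h1 : (univ.filter fun U : Finset (Edge (Fin 1) (Fin 1)) =>
      IsMatching U ∧ sA U = univ ∧ sB U = univ ∧ U.card = 1) =
      (univ : Finset (Edge (Fin 1) (Fin 1))).map ⟨fun e => {e}, Finset.singleton_injective⟩ := by
    ext U
    simp only [Finset.mem_filter, Finset.mem_univ, true_and, Finset.mem_map,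
      Function.Embedding.coeFn_mk]
    constructor
    · rintro ⟨_, _, _, h⟩
      obtain ⟨x, rfl⟩ := Finset.card_eq_one.1 h
      exact ⟨x, rfl⟩
    · rintro ⟨x, rfl⟩
      refine ⟨isMatching_singleton x, ?_, ?_, Finset.card_singleton x⟩
      · simp only [sA, Finset.image_singleton]
        ext y
        simp only [Finset.mem_singleton, Finset.mem_univ, iff_true]
        exact Subsingleton.elim _ _
      · simp only [sB, Finset.image_singleton]
        ext y
        simp only [Finset.mem_singleton, Finset.mem_univ, iff_true]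
        exact Subsingleton.elim _ _
  rw [h1, Finset.sum_map]
  simp only [Function.Embedding.coeFn_mk]
  rw [Finset.sum_congr rfl fun e _ => psi_singleton ((rk_eq_zero_iff _).2 rfl) (rk_singleton e) hk]
  simp only [Finset.sum_const, Finset.card_univ, Fintype.card_prod, Fintype.card_fin, nsmul_eq_mul]
  norm_num

/-- An edge with an end point of degree one kills `psi`. -/
theorem psi_pendant {α β : Type} [Fintype α] [Fintype β] [DecidableEq α] [DecidableEq β]
    {k : ℕ} {U : Finset (Edge α β)} {e : Edge α β} (he : e ∈ U) (h2 : 2 ≤ U.card)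
    (h : e.1.1 ∉ sA (U.erase e) ∨ e.2.1 ∉ sB (U.erase e)) : psi ℝ rk k U = 0 := by
  have hU : U = U.erase e ∪ {e} := by
    rw [Finset.union_comm, ← Finset.insert_eq, Finset.insert_erase he]
  rw [hU]
  have hc : (U.erase e).card = U.card - 1 := Finset.card_erase_of_mem he
  refine psi_union rk_eq_zero_iff ?_ ?_ (Finset.singleton_nonempty e) ?_ k
  · rw [Finset.disjoint_singleton_right]
    exact Finset.notMem_erase e U
  · rw [← Finset.card_pos]; omega
  · intro T₁ hT₁ T₂ hT₂
    rcases Finset.subset_singleton_iff.1 hT₂ with rfl | rfl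
    · rw [(rk_eq_zero_iff _).2 rfl, Finset.union_empty, add_zero]
    · rw [rk_singleton, Finset.union_comm, ← Finset.insert_eq]
      rcases h with h | h
      · exact rk_insert_of_notMem_sA fun h' => h (Finset.image_subset_image hT₁ h')
      · exact rk_insert_of_notMem_sB fun h' => h (Finset.image_subset_image hT₁ h')

theorem TT_eq_zero_A {k a b e : ℕ} (he : 2 ≤ e) (h : e < 2 * a) : TT k a b e = 0 := by
  refine TT_eq_zero_of_forall fun U hM hA hB hc => ?_
  -- a vertex with at most one edge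
  have h1 : ∃ x : Fin a, (U.filter fun u => u.1.1 = x).card < 2 := by
    by_contra hcon
    push Not at hcon
    have h3 : U.card = ∑ x : Fin a, (U.filter fun u => u.1.1 = x).card :=
      Finset.card_eq_sum_card_fiberwise fun u _ => Finset.mem_univ _
    have h4 : ∑ x : Fin a, 2 ≤ ∑ x : Fin a, (U.filter fun u => u.1.1 = x).card :=
      Finset.sum_le_sum fun x _ => hcon x
    simp only [Finset.sum_const, Finset.card_univ, Fintype.card_fin, smul_eq_mul] at h4
    omega
  obtain ⟨x, hx⟩ := h1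
  have h5 : x ∈ sA U := by rw [hA]; exact Finset.mem_univ x
  obtain ⟨u, hu, hux⟩ := Finset.mem_image.1 h5
  refine psi_pendant hu (by omega) (Or.inl fun h6 => ?_)
  obtain ⟨v, hv, hvu⟩ := Finset.mem_image.1 h6
  have h7 : ({u, v} : Finset (Edge (Fin a) (Fin b))) ⊆ U.filter fun u => u.1.1 = x := by
    intro w hw
    rw [Finset.mem_insert, Finset.mem_singleton] at hw
    rw [Finset.mem_filter]
    rcases hw with rfl | rfl
    · exact ⟨hu, hux⟩
    · exact ⟨Finset.mem_of_mem_erase hv, hvu.trans hux⟩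
  have h8 := Finset.card_le_card h7
  rw [Finset.card_pair (Finset.ne_of_mem_erase hv).symm] at h8
  omega

theorem TT_eq_zero_B {k a b e : ℕ} (he : 2 ≤ e) (h : e < 2 * b) : TT k a b e = 0 := by
  refine TT_eq_zero_of_forall fun U hM hA hB hc => ?_
  have h1 : ∃ x : Fin b, (U.filter fun u => u.2.1 = x).card < 2 := by
    by_contra hcon
    push Not at hcon
    have h3 : U.card = ∑ x : Fin b, (U.filter fun u => u.2.1 = x).card :=
      Finset.card_eq_sum_card_fiberwise fun u _ => Finset.mem_univ _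
    have h4 : ∑ x : Fin b, 2 ≤ ∑ x : Fin b, (U.filter fun u => u.2.1 = x).card :=
      Finset.sum_le_sum fun x _ => hcon x
    simp only [Finset.sum_const, Finset.card_univ, Fintype.card_fin, smul_eq_mul] at h4
    omega
  obtain ⟨x, hx⟩ := h1
  have h5 : x ∈ sB U := by rw [hB]; exact Finset.mem_univ x
  obtain ⟨u, hu, hux⟩ := Finset.mem_image.1 h5
  refine psi_pendant hu (by omega) (Or.inr fun h6 => ?_)
  obtain ⟨v, hv, hvu⟩ := Finset.mem_image.1 h6
  have h7 : ({u, v} : Finset (Edge (Fin a) (Fin b))) ⊆ U.filter fun u => u.2.1 = x := by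
    intro w hw
    rw [Finset.mem_insert, Finset.mem_singleton] at hw
    rw [Finset.mem_filter]
    rcases hw with rfl | rfl
    · exact ⟨hu, hux⟩
    · exact ⟨Finset.mem_of_mem_erase hv, hvu.trans hux⟩
  have h8 := Finset.card_le_card h7
  rw [Finset.card_pair (Finset.ne_of_mem_erase hv).symm] at h8
  omega


open Classical in
theorem sum_perm_eq (N k : ℕ) :
    ∑ π : Equiv.Perm (Fin N × Fin 3), coeff k (wL ℝ rk (gr π)) =
      ∑ U : Finset (Edge (Fin N) (Fin N)),
        if IsMatching U then psi ℝ rk k U * ((3 * N - U.card).factorial : ℝ) else 0 := by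
  calc ∑ π : Equiv.Perm (Fin N × Fin 3), coeff k (wL ℝ rk (gr π))
      = ∑ π : Equiv.Perm (Fin N × Fin 3), ∑ U : Finset (Edge (Fin N) (Fin N)),
          if U ⊆ gr π then psi ℝ rk k U else 0 := by
        refine Finset.sum_congr rfl fun π _ => ?_
        rw [← sum_psi, ← Finset.sum_filter]
        refine Finset.sum_congr ?_ fun U _ => ?_
        · ext U
          simp only [Finset.mem_powerset, Finset.mem_filter, Finset.mem_univ, true_and]
        · congr 1
    _ = ∑ U : Finset (Edge (Fin N) (Fin N)), ∑ π : Equiv.Perm (Fin N × Fin 3),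
          if U ⊆ gr π then psi ℝ rk k U else 0 := Finset.sum_comm
    _ = _ := by
        refine Finset.sum_congr rfl fun U _ => ?_
        have h1 := card_gr_superset U
        rw [← Finset.sum_filter, Finset.sum_const, nsmul_eq_mul]
        have h2 : (univ.filter fun π : Equiv.Perm (Fin N × Fin 3) => U ⊆ gr π).card =
            if IsMatching U then (3 * N - U.card).factorial else 0 := by
          rw [← h1]
        rw [h2]
        split_ifs
        · rw [mul_comm]
        · rw [Nat.cast_zero, zero_mul]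

variable {α β α' β' : Type}

theorem sA_map [DecidableEq α] [DecidableEq α'] (f : α ↪ α') (g : β ↪ β')
    (U : Finset (Edge α β)) : sA (U.map (edgeEmb f g)) = (sA U).map f := by
  ext x
  simp only [sA, Finset.mem_image, Finset.mem_map]
  constructor
  · rintro ⟨_, ⟨e, he, rfl⟩, rfl⟩
    exact ⟨e.1.1, ⟨e, he, rfl⟩, rfl⟩
  · rintro ⟨_, ⟨e, he, rfl⟩, rfl⟩
    exact ⟨edgeEmb f g e, ⟨e, he, rfl⟩, rfl⟩

theorem sB_map [DecidableEq β] [DecidableEq β'] (f : α ↪ α') (g : β ↪ β')
    (U : Finset (Edge α β)) : sB (U.map (edgeEmb f g)) = (sB U).map g := by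
  ext x
  simp only [sB, Finset.mem_image, Finset.mem_map]
  constructor
  · rintro ⟨_, ⟨e, he, rfl⟩, rfl⟩
    exact ⟨e.2.1, ⟨e, he, rfl⟩, rfl⟩
  · rintro ⟨_, ⟨e, he, rfl⟩, rfl⟩
    exact ⟨edgeEmb f g e, ⟨e, he, rfl⟩, rfl⟩

theorem isMatching_map (f : α ↪ α') (g : β ↪ β')
    (U : Finset (Edge α β)) : IsMatching (U.map (edgeEmb f g)) ↔ IsMatching U := by
  have h1 : ∀ e e' : Edge α β, (edgeEmb f g e).1 = (edgeEmb f g e').1 ↔ e.1 = e'.1 := by
    intro e e'
    simp only [edgeEmb, Function.Embedding.prodMap, Function.Embedding.coeFn_mk, Prod.map,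
      Function.Embedding.refl_apply, Prod.ext_iff, f.injective.eq_iff]
  have h2 : ∀ e e' : Edge α β, (edgeEmb f g e).2 = (edgeEmb f g e').2 ↔ e.2 = e'.2 := by
    intro e e'
    simp only [edgeEmb, Function.Embedding.prodMap, Function.Embedding.coeFn_mk, Prod.map,
      Function.Embedding.refl_apply, Prod.ext_iff, g.injective.eq_iff]
  constructor
  · rintro ⟨hl, hr⟩
    refine ⟨fun e he e' he' h => ?_, fun e he e' he' h => ?_⟩
    · exact (edgeEmb f g).injective (hl _ (Finset.mem_map_of_mem _ he) _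
        (Finset.mem_map_of_mem _ he') ((h1 e e').2 h))
    · exact (edgeEmb f g).injective (hr _ (Finset.mem_map_of_mem _ he) _
        (Finset.mem_map_of_mem _ he') ((h2 e e').2 h))
  · rintro ⟨hl, hr⟩
    refine ⟨fun x hx x' hx' h => ?_, fun x hx x' hx' h => ?_⟩
    · obtain ⟨e, he, rfl⟩ := Finset.mem_map.1 hx
      obtain ⟨e', he', rfl⟩ := Finset.mem_map.1 hx'
      rw [hl e he e' he' ((h1 e e').1 h)]
    · obtain ⟨e, he, rfl⟩ := Finset.mem_map.1 hx
      obtain ⟨e', he', rfl⟩ := Finset.mem_map.1 hx'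
      rw [hr e he e' he' ((h2 e e').1 h)]

/-- the sum over the patterns with given supports. -/
theorem sum_fixed_support (N k : ℕ) (A B : Finset (Fin N))
    [∀ U : Finset (Edge (Fin N) (Fin N)), Decidable (IsMatching U)]
    [∀ U : Finset (Edge (Fin A.card) (Fin B.card)), Decidable (IsMatching U)] :
    ∑ U ∈ univ.filter (fun U : Finset (Edge (Fin N) (Fin N)) => (sA U, sB U) = (A, B)),
        (if IsMatching U then psi ℝ rk k U * ((3 * N - U.card).factorial : ℝ) else 0) =
      ∑ U ∈ univ.filter (fun U : Finset (Edge (Fin A.card) (Fin B.card)) =>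
          sA U = univ ∧ sB U = univ),
        (if IsMatching U then psi ℝ rk k U * ((3 * N - U.card).factorial : ℝ) else 0) := by
  classical
  symm
  have hfA : (univ : Finset (Fin A.card)).map (A.orderEmbOfFin rfl).toEmbedding = A := by
    simp
  have hfB : (univ : Finset (Fin B.card)).map (B.orderEmbOfFin rfl).toEmbedding = B := by
    simp
  set f : Fin A.card ↪ Fin N := (A.orderEmbOfFin rfl).toEmbedding with hf
  set g : Fin B.card ↪ Fin N := (B.orderEmbOfFin rfl).toEmbedding with hg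
  refine Finset.sum_nbij (fun U => U.map (edgeEmb f g)) ?_ ?_ ?_ ?_
  · intro U hU
    rw [Finset.mem_filter] at hU ⊢
    refine ⟨Finset.mem_univ _, ?_⟩
    rw [sA_map, sB_map, hU.2.1, hU.2.2, hfA, hfB]
  · intro U _ V _ h
    exact Finset.map_injective _ h
  · intro U hU
    rw [Finset.mem_coe, Finset.mem_filter, Prod.mk.injEq] at hU
    have hmap : (univ.filter fun e : Edge (Fin A.card) (Fin B.card) => edgeEmb f g e ∈ U).map
        (edgeEmb f g) = U := by
      ext x
      rw [Finset.mem_map]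
      constructor
      · rintro ⟨e, he, rfl⟩
        exact (Finset.mem_filter.1 he).2
      · intro hx
        have h1 : x.1.1 ∈ A := by
          rw [← hU.2.1]; exact Finset.mem_image_of_mem _ hx
        have h2 : x.2.1 ∈ B := by
          rw [← hU.2.2]; exact Finset.mem_image_of_mem _ hx
        rw [← hfA, Finset.mem_map] at h1
        rw [← hfB, Finset.mem_map] at h2
        obtain ⟨u, _, hu⟩ := h1
        obtain ⟨v, _, hv⟩ := h2
        have h3 : edgeEmb f g ((u, x.1.2), (v, x.2.2)) = x := by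
          simp only [edgeEmb, Function.Embedding.prodMap, Function.Embedding.coeFn_mk, Prod.map,
            Function.Embedding.refl_apply, hu, hv]
        refine ⟨((u, x.1.2), (v, x.2.2)), ?_, h3⟩
        rw [Finset.mem_filter, h3]
        exact ⟨Finset.mem_univ _, hx⟩
    refine ⟨univ.filter fun e : Edge (Fin A.card) (Fin B.card) => edgeEmb f g e ∈ U, ?_, hmap⟩
    rw [Finset.mem_coe, Finset.mem_filter]
    refine ⟨Finset.mem_univ _, ?_, ?_⟩
    · have h4 := hU.2.1
      rw [← hmap, sA_map] at h4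
      exact Finset.map_injective _ (h4.trans hfA.symm)
    · have h4 := hU.2.2
      rw [← hmap, sB_map] at h4
      exact Finset.map_injective _ (h4.trans hfB.symm)
  · intro U _
    have h5 := isMatching_map f g U
    by_cases h6 : IsMatching U
    · rw [if_pos h6, if_pos (h5.2 h6), Finset.card_map,
        psi_map (edgeEmb f g) rk rk (fun T => rk_map f g T)]
    · rw [if_neg h6, if_neg fun h7 => h6 (h5.1 h7)]

theorem sum_full_support (N k a b : ℕ) (ha : a ≤ N)
    [∀ U : Finset (Edge (Fin a) (Fin b)), Decidable (IsMatching U)] :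
    ∑ U ∈ univ.filter (fun U : Finset (Edge (Fin a) (Fin b)) => sA U = univ ∧ sB U = univ),
        (if IsMatching U then psi ℝ rk k U * ((3 * N - U.card).factorial : ℝ) else 0) =
      ∑ e ∈ range (3 * N + 1), ((3 * N - e).factorial : ℝ) * TT k a b e := by
  classical
  simp only [TT_eq_sum, Finset.mul_sum]
  rw [Finset.sum_comm, Finset.sum_filter]
  refine Finset.sum_congr rfl fun U _ => ?_
  by_cases h1 : sA U = univ ∧ sB U = univ
  · rw [if_pos h1]
    by_cases h2 : IsMatching U
    · rw [if_pos h2]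
      have h3 : U.card ∈ range (3 * N + 1) := by
        have := h2.card_le_A
        simp only [Fintype.card_fin] at this
        rw [Finset.mem_range]
        omega
      rw [Finset.sum_eq_single_of_mem _ h3]
      · rw [if_pos ⟨h2, h1.1, h1.2, rfl⟩, mul_comm]
      · intro e _ he
        rw [if_neg fun h => he h.2.2.2.symm, mul_zero]
    · rw [if_neg h2]
      symm
      refine Finset.sum_eq_zero fun e _ => ?_
      rw [if_neg fun h => h2 h.1, mul_zero]
  · rw [if_neg h1]
    symm
    refine Finset.sum_eq_zero fun e _ => ?_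
    rw [if_neg fun h => h1 ⟨h.2.1, h.2.2.1⟩, mul_zero]

/-- the sum over all permutations, grouped by the supports. -/
theorem sum_perm (N k : ℕ) :
    ∑ π : Equiv.Perm (Fin N × Fin 3), coeff k (wL ℝ rk (gr π)) =
      ∑ a ∈ range (N + 1), ∑ b ∈ range (N + 1), ∑ e ∈ range (3 * N + 1),
        (N.choose a : ℝ) * (N.choose b : ℝ) * ((3 * N - e).factorial : ℝ) * TT k a b e := by
  classical
  rw [sum_perm_eq]
  have h1 := Finset.sum_fiberwise (univ : Finset (Finset (Edge (Fin N) (Fin N))))
    (fun U => (sA U, sB U)) (fun U => if IsMatching U then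
      psi ℝ rk k U * ((3 * N - U.card).factorial : ℝ) else 0)
  rw [← h1, Fintype.sum_prod_type]
  have hA : ∀ A : Finset (Fin N), A.card ≤ N := fun A => by
    have := Finset.card_le_univ A
    rwa [Fintype.card_fin] at this
  have h2 : ∀ A B : Finset (Fin N),
      (∑ U ∈ univ.filter (fun U : Finset (Edge (Fin N) (Fin N)) => (sA U, sB U) = (A, B)),
        (if IsMatching U then psi ℝ rk k U * ((3 * N - U.card).factorial : ℝ) else 0)) =
      ∑ e ∈ range (3 * N + 1), ((3 * N - e).factorial : ℝ) * TT k A.card B.card e := by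
    intro A B
    rw [sum_fixed_support, sum_full_support N k A.card B.card (hA A)]
  simp only [h2]
  have h3 : ∀ G : ℕ → ℝ, ∑ A : Finset (Fin N), G A.card =
      ∑ a ∈ range (N + 1), (N.choose a : ℝ) * G a := by
    intro G
    have := Finset.sum_powerset_apply_card G (x := (univ : Finset (Fin N)))
    simpa only [Finset.powerset_univ, Finset.card_univ, Fintype.card_fin, nsmul_eq_mul] using this
  have h4 : ∀ A : Finset (Fin N), (∑ B : Finset (Fin N),
      ∑ e ∈ range (3 * N + 1), ((3 * N - e).factorial : ℝ) * TT k A.card B.card e) =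
      ∑ b ∈ range (N + 1), (N.choose b : ℝ) *
        ∑ e ∈ range (3 * N + 1), ((3 * N - e).factorial : ℝ) * TT k A.card b e := fun A =>
    h3 fun b => ∑ e ∈ range (3 * N + 1), ((3 * N - e).factorial : ℝ) * TT k A.card b e
  simp only [h4]
  rw [h3 fun a => ∑ b ∈ range (N + 1), (N.choose b : ℝ) *
        ∑ e ∈ range (3 * N + 1), ((3 * N - e).factorial : ℝ) * TT k a b e]
  refine Finset.sum_congr rfl fun a _ => ?_
  rw [Finset.mul_sum]
  refine Finset.sum_congr rfl fun b _ => ?_
  rw [Finset.mul_sum, Finset.mul_sum]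
  refine Finset.sum_congr rfl fun e _ => ?_
  ring



theorem TT_ne_zero {k a b e : ℕ} (h : TT k a b e ≠ 0) :
    a + b ≤ 2 * k ∧ e ≤ 3 * k ∧ ((a = 1 ∧ b = 1 ∧ e = 1) ∨ (2 ≤ e ∧ 2 * a ≤ e ∧ 2 * b ≤ e)) := by
  have h1 : a + b ≤ 2 * k := by
    by_contra h'; exact h (TT_eq_zero_of_lt (by omega))
  have h2 : e ≤ 3 * a := by
    by_contra h'; exact h (TT_eq_zero_of_lt_A (by omega))
  have h3 : e ≤ 3 * b := by
    by_contra h'; exact h (TT_eq_zero_of_lt_B (by omega))
  refine ⟨h1, by omega, ?_⟩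
  rcases Nat.lt_or_ge e 2 with he | he
  · interval_cases e
    · exact absurd (TT_zero k a b) h
    · left
      by_contra h'
      exact h (TT_one' fun h'' => h' ⟨h''.1, h''.2, rfl⟩)
  · right
    refine ⟨he, ?_, ?_⟩
    · by_contra h'; exact h (TT_eq_zero_A he (by omega))
    · by_contra h'; exact h (TT_eq_zero_B he (by omega))

/-- the basic product. -/
noncomputable def pr (s : Finset ℕ) (c : ℝ) : Polynomial ℝ :=
  ∏ i ∈ s, (1 - Polynomial.C ((i : ℝ) * c) * Polynomial.X)

theorem pr_eval (s : Finset ℕ) (c x : ℝ) : (pr s c).eval x = ∏ i ∈ s, (1 - (i : ℝ) * c * x) := by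
  rw [pr, Polynomial.eval_prod]
  simp

theorem pr_natDegree (s : Finset ℕ) (c : ℝ) : (pr s c).natDegree ≤ s.card := by
  rw [pr]
  refine (Polynomial.natDegree_prod_le _ _).trans ?_
  refine (Finset.sum_le_card_nsmul s _ 1 fun i _ => ?_).trans (by simp)
  refine (Polynomial.natDegree_sub_le _ _).trans ?_
  rw [Polynomial.natDegree_one]
  refine max_le (by norm_num) ?_
  exact (Polynomial.natDegree_C_mul_le _ _).trans Polynomial.natDegree_X_le

theorem pr_coeff_zero (s : Finset ℕ) (c : ℝ) : (pr s c).coeff 0 = 1 := by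
  rw [Polynomial.coeff_zero_eq_eval_zero, pr_eval]
  simp

theorem pr_coeff_one (s : Finset ℕ) (c : ℝ) : (pr s c).coeff 1 = - ∑ i ∈ s, (i : ℝ) * c := by
  classical
  induction s using Finset.induction_on with
  | empty => simp [pr, Polynomial.coeff_one]
  | insert a s ha ih =>
    have h1 : pr (insert a s) c = pr s c - Polynomial.C ((a : ℝ) * c) * (pr s c * Polynomial.X) := by
      rw [pr, Finset.prod_insert ha, ← pr]; ring
    rw [h1, Polynomial.coeff_sub, Polynomial.coeff_C_mul, Polynomial.coeff_mul_X,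
      pr_coeff_zero, ih, Finset.sum_insert ha]
    ring

/-- the contribution of the patterns with `a + b` vertices and `e` edges. -/
noncomputable def tm (k a b e : ℕ) : Polynomial ℝ :=
  Polynomial.C (TT k a b e / ((a.factorial : ℝ) * b.factorial * 3 ^ e)) *
    (Polynomial.X ^ (1 + e - a - b) * (pr (range a) 1 * (pr (range b) 1 *
      pr (Ico e (3 * k)) (1 / 3))))

theorem tm_natDegree (k a b e : ℕ) : (tm k a b e).natDegree ≤ 3 * k + 1 := by
  by_cases hT : TT k a b e = 0
  · rw [tm, hT, zero_div, Polynomial.C_0, zero_mul, Polynomial.natDegree_zero]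
    exact Nat.zero_le _
  obtain ⟨h1, h2, h3⟩ := TT_ne_zero hT
  rw [tm]
  refine (Polynomial.natDegree_C_mul_le _ _).trans ?_
  refine Polynomial.natDegree_mul_le.trans ?_
  rw [Polynomial.natDegree_X_pow]
  have ha := pr_natDegree (range a) 1
  have hb := pr_natDegree (range b) 1
  have hc := pr_natDegree (Ico e (3 * k)) (1 / 3)
  rw [Finset.card_range] at ha hb
  rw [Nat.card_Ico] at hc
  have h4 : (pr (range b) 1 * pr (Ico e (3 * k)) (1 / 3)).natDegree ≤ b + (3 * k - e) :=
    Polynomial.natDegree_mul_le.trans (Nat.add_le_add hb hc)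
  have h5 : (pr (range a) 1 * (pr (range b) 1 * pr (Ico e (3 * k)) (1 / 3))).natDegree ≤
      a + (b + (3 * k - e)) :=
    Polynomial.natDegree_mul_le.trans (Nat.add_le_add ha h4)
  omega

theorem tm_coeff_zero (k a b e : ℕ) : (tm k a b e).coeff 0 =
    if a = 1 ∧ b = 1 ∧ e = 1 then TT k 1 1 1 / 3 else 0 := by
  by_cases hT : TT k a b e = 0
  · rw [tm, hT, zero_div, Polynomial.C_0, zero_mul, Polynomial.coeff_zero]
    split_ifs with h
    · obtain ⟨rfl, rfl, rfl⟩ := h
      rw [hT, zero_div]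
    · rfl
  obtain ⟨h1, h2, h3⟩ := TT_ne_zero hT
  rw [Polynomial.coeff_zero_eq_eval_zero, tm]
  simp only [Polynomial.eval_mul, Polynomial.eval_C, Polynomial.eval_pow, Polynomial.eval_X,
    pr_eval, mul_zero, sub_zero, Finset.prod_const_one, mul_one]
  rcases h3 with ⟨rfl, rfl, rfl⟩ | ⟨h3, h4, h5⟩
  · rw [if_pos ⟨rfl, rfl, rfl⟩]
    norm_num
  · rw [if_neg (by omega), zero_pow (by omega), mul_zero]

theorem tm_coeff_one (k a b e : ℕ) : (tm k a b e).coeff 1 =
    (if a = 1 ∧ b = 1 ∧ e = 1 then TT k 1 1 1 / 3 * (-∑ i ∈ Ico 1 (3 * k), (i : ℝ) * (1 / 3))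
      else 0) +
    (if 1 ≤ a ∧ b = a ∧ e = 2 * a then
      TT k a a (2 * a) / ((a.factorial : ℝ) ^ 2 * 9 ^ a) else 0) := by
  by_cases hT : TT k a b e = 0
  · rw [tm, hT, zero_div, Polynomial.C_0, zero_mul, Polynomial.coeff_zero]
    have h1 : (if a = 1 ∧ b = 1 ∧ e = 1 then TT k 1 1 1 / 3 *
        (-∑ i ∈ Ico 1 (3 * k), (i : ℝ) * (1 / 3)) else 0) = 0 := by
      split_ifs with h
      · obtain ⟨rfl, rfl, rfl⟩ := h
        rw [hT, zero_div, zero_mul]
      · rfl
    have h2 : (if 1 ≤ a ∧ b = a ∧ e = 2 * a then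
      TT k a a (2 * a) / ((a.factorial : ℝ) ^ 2 * 9 ^ a) else 0) = 0 := by
      split_ifs with h
      · obtain ⟨_, rfl, rfl⟩ := h
        rw [hT, zero_div]
      · rfl
    rw [h1, h2, add_zero]
  obtain ⟨h1, h2, h3⟩ := TT_ne_zero hT
  rw [tm, Polynomial.coeff_C_mul]
  rcases h3 with ⟨rfl, rfl, rfl⟩ | ⟨h3, h4, h5⟩
  · rw [if_pos ⟨rfl, rfl, rfl⟩, if_neg (by omega)]
    have h6 : pr (range 1) 1 = 1 := by
      rw [pr, Finset.prod_range_one]; simp
    rw [h6, one_mul, one_mul, show 1 + 1 - 1 - 1 = 0 from rfl, pow_zero, one_mul, pr_coeff_one]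
    norm_num
  · rw [if_neg (by omega), zero_add]
    set Q := pr (range a) 1 * (pr (range b) 1 * pr (Ico e (3 * k)) (1 / 3)) with hQ
    have hQ0 : Q.coeff 0 = 1 := by
      rw [hQ, Polynomial.mul_coeff_zero, Polynomial.mul_coeff_zero, pr_coeff_zero, pr_coeff_zero,
        pr_coeff_zero, one_mul, one_mul]
    obtain ⟨n, hn⟩ : ∃ n, 1 + e - a - b = n + 1 := ⟨e - a - b, by omega⟩
    rw [hn, mul_comm (Polynomial.X ^ (n + 1)) Q, Polynomial.coeff_mul_X_pow']
    by_cases h6 : n = 0
    · rw [if_pos (by omega), if_pos (by omega), show 1 - (n + 1) = 0 by omega, hQ0, mul_one]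
      have hb : b = a := by omega
      have he : e = 2 * a := by omega
      subst hb
      subst he
      rw [sq, pow_mul]
      norm_num
    · rw [if_neg (by omega), if_neg (by omega), mul_zero]

theorem choose_eq (N a : ℕ) (hN : 1 ≤ N) : (N.choose a : ℝ) =
    (N : ℝ) ^ a * (∏ i ∈ range a, (1 - (i : ℝ) * 1 * (1 / (N : ℝ)))) / (a.factorial : ℝ) := by
  have hN' : (N : ℝ) ≠ 0 := by positivity
  have h1 : (a.factorial : ℝ) ≠ 0 := by positivity
  have h2 : (N : ℝ) ^ a * (∏ i ∈ range a, (1 - (i : ℝ) * 1 * (1 / (N : ℝ)))) =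
      ∏ i ∈ range a, ((N : ℝ) - i) := by
    have h0 : (N : ℝ) ^ a = ∏ _i ∈ range a, (N : ℝ) := by
      rw [Finset.prod_const, Finset.card_range]
    rw [h0, ← Finset.prod_mul_distrib]
    refine Finset.prod_congr rfl fun i _ => ?_
    field_simp
  rw [eq_div_iff h1, h2]
  have h3 : (N.descFactorial a : ℝ) = ∏ i ∈ range a, ((N : ℝ) - i) := by
    rw [← descPochhammer_eval_eq_descFactorial, descPochhammer_eval_eq_prod_range]
  rw [← h3, Nat.descFactorial_eq_factorial_mul_choose]
  push_cast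
  ring

theorem factorial_eq (M e : ℕ) (he : e ≤ M) (hM : 1 ≤ M) : (M.factorial : ℝ) =
    ((M - e).factorial : ℝ) * (M : ℝ) ^ e * ∏ i ∈ range e, (1 - (i : ℝ) / (M : ℝ)) := by
  have hM' : (M : ℝ) ≠ 0 := by positivity
  have h1 : (M : ℝ) ^ e * ∏ i ∈ range e, (1 - (i : ℝ) / (M : ℝ)) =
      ∏ i ∈ range e, ((M : ℝ) - i) := by
    have h0 : (M : ℝ) ^ e = ∏ _i ∈ range e, (M : ℝ) := by
      rw [Finset.prod_const, Finset.card_range]
    rw [h0, ← Finset.prod_mul_distrib]
    refine Finset.prod_congr rfl fun i _ => ?_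
    field_simp
  have h3 : (M.descFactorial e : ℝ) = ∏ i ∈ range e, ((M : ℝ) - i) := by
    rw [← descPochhammer_eval_eq_descFactorial, descPochhammer_eval_eq_prod_range]
  rw [mul_assoc, h1, ← h3, ← Nat.factorial_mul_descFactorial he]
  push_cast
  ring

theorem tm_eval {k N : ℕ} (hk : 1 ≤ k) (hN : k ≤ N) (a b e : ℕ) :
    (tm k a b e).eval (1 / (N : ℝ)) =
      (1 / (N : ℝ)) * (∏ i ∈ range (3 * k), (1 - (i : ℝ) / (3 * N))) *
        (((N.choose a : ℝ) * (N.choose b : ℝ) * ((3 * N - e).factorial : ℝ) * TT k a b e) /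
          ((3 * N).factorial : ℝ)) := by
  by_cases hT : TT k a b e = 0
  · rw [tm, hT, zero_div, Polynomial.C_0, zero_mul, Polynomial.eval_zero]
    ring
  obtain ⟨h1, h2, h3⟩ := TT_ne_zero hT
  have hN1 : 1 ≤ N := hk.trans hN
  have hN' : (N : ℝ) ≠ 0 := by positivity
  have hsplit : ∏ i ∈ range (3 * k), (1 - (i : ℝ) / (3 * N)) =
      (∏ i ∈ range e, (1 - (i : ℝ) / (3 * N))) * ∏ i ∈ Ico e (3 * k), (1 - (i : ℝ) / (3 * N)) := by
    rw [Finset.prod_range_mul_prod_Ico _ h2]
  have hfac := factorial_eq (3 * N) e (by omega) (by omega)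
  rw [show ((3 * N : ℕ) : ℝ) = 3 * (N : ℝ) by push_cast; ring] at hfac
  have hP : ∏ i ∈ range e, (1 - (i : ℝ) / (3 * N)) ≠ 0 := by
    rw [Finset.prod_ne_zero_iff]
    intro i hi
    rw [Finset.mem_range] at hi
    have h4 : (i : ℝ) < 3 * N := by
      have : i < 3 * N := by omega
      exact_mod_cast this
    have h5 : (0 : ℝ) < 3 * N := by positivity
    have h6 : (i : ℝ) / (3 * N) < 1 := (div_lt_one h5).2 h4
    exact ne_of_gt (sub_pos.2 h6)
  rw [tm]
  simp only [Polynomial.eval_mul, Polynomial.eval_C, Polynomial.eval_pow, Polynomial.eval_X,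
    pr_eval]
  rw [choose_eq N a hN1, choose_eq N b hN1, hsplit, hfac]
  have h7 : ∏ i ∈ Ico e (3 * k), (1 - (i : ℝ) * (1 / 3) * (1 / (N : ℝ))) =
      ∏ i ∈ Ico e (3 * k), (1 - (i : ℝ) / (3 * N)) := by
    refine Finset.prod_congr rfl fun i _ => ?_
    congr 1
    field_simp
  rw [h7]
  generalize (∏ i ∈ range a, (1 - (i : ℝ) * 1 * (1 / (N : ℝ)))) = Pa
  generalize (∏ i ∈ range b, (1 - (i : ℝ) * 1 * (1 / (N : ℝ)))) = Pb
  generalize (∏ i ∈ Ico e (3 * k), (1 - (i : ℝ) / (3 * N))) = R
  generalize hPe : (∏ i ∈ range e, (1 - (i : ℝ) / (3 * N))) = Pe at hP ⊢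
  have hf : ((3 * N - e).factorial : ℝ) ≠ 0 := by positivity
  generalize ((3 * N - e).factorial : ℝ) = F at hf ⊢
  have ha : (a.factorial : ℝ) ≠ 0 := by positivity
  have hb : (b.factorial : ℝ) ≠ 0 := by positivity
  generalize (a.factorial : ℝ) = fa at ha ⊢
  generalize (b.factorial : ℝ) = fb at hb ⊢
  generalize TT k a b e = T at hT ⊢
  have hx : (1 / (N : ℝ)) ^ (1 + e - a - b) * (N : ℝ) ^ e = (1 / (N : ℝ)) * (N : ℝ) ^ a * (N : ℝ) ^ b := by
    have h8 : 1 + e = (1 + e - a - b) + (a + b) := by omega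
    have h9 : (1 / (N : ℝ)) ^ (1 + e) * (N : ℝ) ^ (a + b) * (N : ℝ) ^ e =
        (1 / (N : ℝ)) ^ (1 + e - a - b) * (N : ℝ) ^ e := by
      conv_lhs => rw [h8, pow_add]
      rw [mul_assoc ((1 / (N : ℝ)) ^ (1 + e - a - b)), ← mul_pow, one_div_mul_cancel hN', one_pow,
        mul_one]
    rw [← h9, add_comm 1 e, pow_succ, pow_add]
    have h10 : (1 / (N : ℝ)) ^ e * (N : ℝ) ^ e = 1 := by
      rw [← mul_pow, one_div_mul_cancel hN', one_pow]
    linear_combination (1 / (N : ℝ) * ((N : ℝ) ^ a * (N : ℝ) ^ b)) * h10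
  have h3' : (3 * (N : ℝ)) ^ e = 3 ^ e * (N : ℝ) ^ e := mul_pow _ _ _
  rw [h3']
  have hNe : (N : ℝ) ^ e ≠ 0 := pow_ne_zero _ hN'
  have h3e : (3 : ℝ) ^ e ≠ 0 := by positivity
  generalize (3 : ℝ) ^ e = E3 at h3e ⊢
  have hx' : (1 / (N : ℝ)) ^ (1 + e - a - b) =
      (1 / (N : ℝ)) * (N : ℝ) ^ a * (N : ℝ) ^ b / (N : ℝ) ^ e := by
    rw [eq_div_iff hNe, hx]
  rw [hx']
  generalize (N : ℝ) ^ e = Ne at hNe ⊢
  generalize (N : ℝ) ^ a = Na
  generalize (N : ℝ) ^ b = Nb
  field_simp

theorem sum_range_eq {F : ℕ → ℝ} {m n : ℕ} (h1 : ∀ a, m ≤ a → F a = 0)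
    (h2 : ∀ a, n ≤ a → F a = 0) : ∑ a ∈ range m, F a = ∑ a ∈ range n, F a := by
  have h3 : ∑ a ∈ range m, F a = ∑ a ∈ range (max m n), F a :=
    Finset.sum_subset (Finset.range_mono (le_max_left _ _)) fun a _ ha =>
      h1 a (by rw [Finset.mem_range] at ha; omega)
  have h4 : ∑ a ∈ range n, F a = ∑ a ∈ range (max m n), F a :=
    Finset.sum_subset (Finset.range_mono (le_max_right _ _)) fun a _ ha =>
      h2 a (by rw [Finset.mem_range] at ha; omega)
  rw [h3, h4]

/-- the expectation is a polynomial in `1 / N`, up to an explicit denominator. -/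
theorem exists_poly {k : ℕ} (hk : 1 ≤ k) : ∃ g : Polynomial ℝ, g.natDegree ≤ 3 * k + 1 ∧
    g.coeff 0 = 3 ∧ g.coeff 1 = AA k - (3 * k : ℝ) * (3 * k - 1) / 2 ∧
    ∀ N : ℕ, k ≤ N → g.eval (1 / (N : ℝ)) =
      (1 / (N : ℝ)) * (∏ i ∈ range (3 * k), (1 - (i : ℝ) / (3 * N))) *
        ((∑ π : Equiv.Perm (Fin N × Fin 3), coeff k (wL ℝ rk (gr π))) /
          ((3 * N).factorial : ℝ)) := by
  refine ⟨∑ a ∈ range (2 * k + 1), ∑ b ∈ range (2 * k + 1), ∑ e ∈ range (3 * k + 1), tm k a b e,
    ?_, ?_, ?_, ?_⟩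
  · refine Polynomial.natDegree_sum_le_of_forall_le _ _ fun a _ => ?_
    refine Polynomial.natDegree_sum_le_of_forall_le _ _ fun b _ => ?_
    refine Polynomial.natDegree_sum_le_of_forall_le _ _ fun e _ => ?_
    exact tm_natDegree k a b e
  · simp only [Polynomial.finsetSum_coeff, tm_coeff_zero]
    rw [Finset.sum_eq_single_of_mem 1 (by rw [Finset.mem_range]; omega)
      fun a _ ha => Finset.sum_eq_zero fun b _ => Finset.sum_eq_zero fun e _ =>
        if_neg fun h => ha h.1]
    rw [Finset.sum_eq_single_of_mem 1 (by rw [Finset.mem_range]; omega)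
      fun b _ hb => Finset.sum_eq_zero fun e _ => if_neg fun h => hb h.2.1]
    rw [Finset.sum_eq_single_of_mem 1 (by rw [Finset.mem_range]; omega)
      fun e _ he => if_neg fun h => he h.2.2]
    rw [if_pos ⟨rfl, rfl, rfl⟩, TT_one hk]
    norm_num
  · simp only [Polynomial.finsetSum_coeff, tm_coeff_one, Finset.sum_add_distrib]
    rw [Finset.sum_eq_single_of_mem 1 (by rw [Finset.mem_range]; omega)
      fun a _ ha => Finset.sum_eq_zero fun b _ => Finset.sum_eq_zero fun e _ =>
        if_neg fun h => ha h.1]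
    rw [Finset.sum_eq_single_of_mem 1 (by rw [Finset.mem_range]; omega)
      fun b _ hb => Finset.sum_eq_zero fun e _ => if_neg fun h => hb h.2.1]
    rw [Finset.sum_eq_single_of_mem 1 (by rw [Finset.mem_range]; omega)
      fun e _ he => if_neg fun h => he h.2.2]
    rw [if_pos ⟨rfl, rfl, rfl⟩, TT_one hk]
    have h1 : ∑ i ∈ Ico 1 (3 * k), (i : ℝ) * (1 / 3) = (3 * k : ℝ) * (3 * k - 1) / 6 := by
      have h2 : ∑ i ∈ Ico 1 (3 * k), (i : ℝ) * (1 / 3) = ∑ i ∈ range (3 * k), (i : ℝ) * (1 / 3) := by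
        rw [Finset.range_eq_Ico, Finset.sum_eq_sum_Ico_succ_bot (show 0 < 3 * k by omega),
          Nat.cast_zero, zero_mul, zero_add]
      rw [h2, ← Finset.sum_mul]
      have h3 : ∀ n : ℕ, ∑ i ∈ range n, (i : ℝ) = (n : ℝ) * (n - 1) / 2 := by
        intro n
        induction n with
        | zero => simp
        | succ n ih => rw [Finset.sum_range_succ, ih]; push_cast; ring
      rw [h3]
      push_cast
      ring
    rw [h1]
    have h4 : ∑ a ∈ range (2 * k + 1), ∑ b ∈ range (2 * k + 1), ∑ e ∈ range (3 * k + 1),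
        (if 1 ≤ a ∧ b = a ∧ e = 2 * a then
          TT k a a (2 * a) / ((a.factorial : ℝ) ^ 2 * 9 ^ a) else 0) = AA k := by
      rw [AA]
      have h5 : ∀ a ∈ range (2 * k + 1), ∑ b ∈ range (2 * k + 1), ∑ e ∈ range (3 * k + 1),
          (if 1 ≤ a ∧ b = a ∧ e = 2 * a then
            TT k a a (2 * a) / ((a.factorial : ℝ) ^ 2 * 9 ^ a) else 0) =
          if 1 ≤ a then TT k a a (2 * a) / ((a.factorial : ℝ) ^ 2 * 9 ^ a) else 0 := by
        intro a ha
        by_cases ha1 : 1 ≤ a
        · rw [if_pos ha1, Finset.sum_eq_single_of_mem a ha fun b _ hb =>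
            Finset.sum_eq_zero fun e _ => if_neg fun h => hb h.2.1]
          by_cases hak : a ≤ k
          · rw [Finset.sum_eq_single_of_mem (2 * a) (by rw [Finset.mem_range]; omega)
              fun e _ he => if_neg fun h => he h.2.2]
            rw [if_pos ⟨ha1, rfl, rfl⟩]
          · have h6 : TT k a a (2 * a) = 0 := TT_eq_zero_of_lt (by omega)
            rw [h6, zero_div]
            refine Finset.sum_eq_zero fun e _ => ?_
            split_ifs <;> rfl
        · rw [if_neg ha1]
          exact Finset.sum_eq_zero fun b _ => Finset.sum_eq_zero fun e _ =>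
            if_neg fun h => ha1 h.1
      rw [Finset.sum_congr rfl h5, ← Finset.sum_filter]
      symm
      refine Finset.sum_subset ?_ ?_
      · intro m hm
        rw [Finset.mem_Icc] at hm
        rw [Finset.mem_filter, Finset.mem_range]
        omega
      · intro m hm hm'
        rw [Finset.mem_Icc] at hm'
        rw [Finset.mem_filter, Finset.mem_range] at hm
        have h6 : TT k m m (2 * m) = 0 := TT_eq_zero_of_lt (by omega)
        rw [h6, zero_div]
    rw [h4]
    ring
  · intro N hN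
    simp only [Polynomial.eval_finsetSum, tm_eval hk hN]
    rw [sum_perm N k]
    simp only [Finset.sum_div, Finset.mul_sum]
    have hz : ∀ a b e : ℕ, TT k a b e = 0 →
        (1 / (N : ℝ)) * (∏ i ∈ range (3 * k), (1 - (i : ℝ) / (3 * N))) *
        (((N.choose a : ℝ) * (N.choose b : ℝ) * ((3 * N - e).factorial : ℝ) * TT k a b e) /
          ((3 * N).factorial : ℝ)) = 0 := by
      intro a b e h
      rw [h]; ring
    have ha : ∀ a b e : ℕ, N < a →
        (1 / (N : ℝ)) * (∏ i ∈ range (3 * k), (1 - (i : ℝ) / (3 * N))) *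
        (((N.choose a : ℝ) * (N.choose b : ℝ) * ((3 * N - e).factorial : ℝ) * TT k a b e) /
          ((3 * N).factorial : ℝ)) = 0 := by
      intro a b e h
      rw [Nat.choose_eq_zero_of_lt h, Nat.cast_zero]; ring
    have hb : ∀ a b e : ℕ, N < b →
        (1 / (N : ℝ)) * (∏ i ∈ range (3 * k), (1 - (i : ℝ) / (3 * N))) *
        (((N.choose a : ℝ) * (N.choose b : ℝ) * ((3 * N - e).factorial : ℝ) * TT k a b e) /
          ((3 * N).factorial : ℝ)) = 0 := by
      intro a b e h
      rw [Nat.choose_eq_zero_of_lt h, Nat.cast_zero]; ring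
    have hT : ∀ a b e : ℕ, (2 * k < a ∨ 2 * k < b ∨ 3 * k < e) → TT k a b e = 0 := by
      intro a b e h
      by_contra h'
      obtain ⟨h1, h2, _⟩ := TT_ne_zero h'
      omega
    symm
    calc _ = ∑ a ∈ range (2 * k + 1), ∑ b ∈ range (N + 1), ∑ e ∈ range (3 * N + 1),
          (1 / (N : ℝ)) * (∏ i ∈ range (3 * k), (1 - (i : ℝ) / (3 * N))) *
          (((N.choose a : ℝ) * (N.choose b : ℝ) * ((3 * N - e).factorial : ℝ) * TT k a b e) /
          ((3 * N).factorial : ℝ)) := by
          refine sum_range_eq (fun a h => ?_) (fun a h => ?_)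
          · exact Finset.sum_eq_zero fun b _ => Finset.sum_eq_zero fun e _ => ha a b e (by omega)
          · exact Finset.sum_eq_zero fun b _ => Finset.sum_eq_zero fun e _ =>
              hz a b e (hT a b e (by omega))
      _ = ∑ a ∈ range (2 * k + 1), ∑ b ∈ range (2 * k + 1), ∑ e ∈ range (3 * N + 1),
          (1 / (N : ℝ)) * (∏ i ∈ range (3 * k), (1 - (i : ℝ) / (3 * N))) *
          (((N.choose a : ℝ) * (N.choose b : ℝ) * ((3 * N - e).factorial : ℝ) * TT k a b e) /
          ((3 * N).factorial : ℝ)) := by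
          refine Finset.sum_congr rfl fun a _ => sum_range_eq (fun b h => ?_) (fun b h => ?_)
          · exact Finset.sum_eq_zero fun e _ => hb a b e (by omega)
          · exact Finset.sum_eq_zero fun e _ => hz a b e (hT a b e (by omega))
      _ = _ := by
          refine Finset.sum_congr rfl fun a _ => Finset.sum_congr rfl fun b _ =>
            sum_range_eq (fun e h => ?_) (fun e h => ?_)
          · exact hz a b e (hT a b e (by omega))
          · exact hz a b e (hT a b e (by omega))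

end P6

end MP6f9538

/-!
# Large chromatic roots of bipartite graphs of maximum degree three
-/

namespace MP6f9538

open Finset PowerSeries

/-- Some bipartite cubic multigraph has a chromatic root of modulus `> ρ`. -/
theorem exists_root {ρ : ℝ} (h3 : ρ < 3) : ∃ (N : ℕ) (π : Equiv.Perm (Fin N × Fin 3)) (z : ℂ),
    IsChromaticRoot (toGraph (gr π)) z ∧ ρ < ‖z‖ := by
  by_contra hcon
  push Not at hcon
  set σ : ℝ := max ρ 0 with hσ
  have hσ0 : 0 ≤ σ := le_max_right _ _
  have hσ3 : σ < 3 := max_lt h3 (by norm_num)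
  have hroot : ∀ (N : ℕ) (π : Equiv.Perm (Fin N × Fin 3)) (z : ℂ),
      IsChromaticRoot (toGraph (gr π)) z → ‖z‖ ≤ σ := fun N π z hz =>
    (hcon N π z hz).trans (le_max_left _ _)
  obtain ⟨k, hk, hlarge⟩ := exists_large hσ0 hσ3
  obtain ⟨g, hdeg, hg0, hg1, hgN⟩ := exists_poly hk
  have hcoef : ∀ (N : ℕ) (π : Equiv.Perm (Fin N × Fin 3)),
      |coeff k (wL ℝ rk (gr π))| ≤ 2 * N * σ ^ k := by
    intro N π
    have h := abs_coeff_wL_le (ι := Edge (Fin N) (Fin N)) (r := rk) rk_eq_zero_iff (S := gr π)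
      (n := Fintype.card (Fin N) + Fintype.card (Fin N)) (fun T _ => rk_le T)
      rfl hk (ρ := σ) (fun z hz => hroot N π z ⟨_, isChromaticPolynomial_toGraph (gr π), hz⟩)
    simpa [two_mul] using h
  have hbound : ∀ N : ℕ, 2 * (3 * k + 1) ^ 2 ≤ N → |g.eval (1 / (N : ℝ))| ≤ 2 * σ ^ k := by
    intro N hN
    have hkN : k ≤ N := by nlinarith
    have hN1 : 1 ≤ N := hk.trans hkN
    have hN0 : (0 : ℝ) < N := by exact_mod_cast hN1
    rw [hgN N hkN]
    have hprod0 : 0 ≤ ∏ i ∈ range (3 * k), (1 - (i : ℝ) / (3 * N)) := by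
      refine prod_nonneg fun i hi => ?_
      rw [mem_range] at hi
      have : (i : ℝ) ≤ 3 * N := by
        have : i ≤ 3 * N := by omega
        exact_mod_cast this
      rw [sub_nonneg, div_le_one (by positivity)]
      exact this
    have hprod1 : ∏ i ∈ range (3 * k), (1 - (i : ℝ) / (3 * N)) ≤ 1 := by
      refine prod_le_one (fun i hi => ?_) fun i _ => ?_
      · rw [mem_range] at hi
        have : (i : ℝ) ≤ 3 * N := by
          have : i ≤ 3 * N := by omega
          exact_mod_cast this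
        rw [sub_nonneg, div_le_one (by positivity)]
        exact this
      · have : (0 : ℝ) ≤ (i : ℝ) / (3 * N) := by positivity
        linarith
    have hsum : |∑ π : Equiv.Perm (Fin N × Fin 3), coeff k (wL ℝ rk (gr π))| ≤
        ((3 * N).factorial : ℝ) * (2 * N * σ ^ k) := by
      refine (abs_sum_le_sum_abs _ _).trans ((sum_le_sum fun π _ => hcoef N π).trans ?_)
      rw [sum_const, card_univ, Fintype.card_perm, Fintype.card_prod, Fintype.card_fin,
        Fintype.card_fin, nsmul_eq_mul, mul_comm N 3]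
    have hfac : (0 : ℝ) < ((3 * N).factorial : ℝ) := by exact_mod_cast Nat.factorial_pos _
    have hq : |(∑ π : Equiv.Perm (Fin N × Fin 3), coeff k (wL ℝ rk (gr π))) /
        ((3 * N).factorial : ℝ)| ≤ 2 * N * σ ^ k := by
      rw [abs_div, abs_of_pos hfac, div_le_iff₀ hfac, mul_comm]
      exact hsum
    rw [abs_mul, abs_mul, abs_of_nonneg hprod0, abs_of_nonneg (by positivity : 0 ≤ 1 / (N : ℝ))]
    calc 1 / (N : ℝ) * (∏ i ∈ range (3 * k), (1 - (i : ℝ) / (3 * N))) *
          |(∑ π : Equiv.Perm (Fin N × Fin 3), coeff k (wL ℝ rk (gr π))) /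
            ((3 * N).factorial : ℝ)|
        ≤ 1 / (N : ℝ) * 1 * (2 * N * σ ^ k) := by
          refine mul_le_mul (mul_le_mul_of_nonneg_left hprod1 (by positivity)) hq (abs_nonneg _)
            (by positivity)
      _ = 2 * σ ^ k := by field_simp
  have hlag := lagrange_bound (3 * k + 1) (by omega) g hdeg (2 * σ ^ k) hbound
  rw [hg0, hg1, abs_of_pos (by norm_num : (0 : ℝ) < 3)] at hlag
  push_cast at hlag
  have hA := le_neg_AA k hk
  have h1 := (abs_le.mp hlag).1
  have h2 : (0 : ℝ) ≤ (3 * k : ℝ) * (3 * k - 1) / 2 := by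
    have : (1 : ℝ) ≤ k := by exact_mod_cast hk
    have : (0 : ℝ) ≤ 3 * k - 1 := by linarith
    positivity
  linarith


/-! ### Disjoint unions -/

theorem IsChromaticPolynomial.sum {V W : Type} [Finite V] [Finite W] {G : SimpleGraph V}
    {H : SimpleGraph W} {p q : Polynomial ℂ} (hp : IsChromaticPolynomial G p)
    (hq : IsChromaticPolynomial H q) : IsChromaticPolynomial (G ⊕g H) (p * q) := by
  intro n
  rw [Polynomial.eval_mul, hp n, hq n, Nat.card_congr SimpleGraph.Coloring.sumEquiv, Nat.card_prod]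
  push_cast
  rfl

theorem toGraph_univ (α β : Type) [Fintype α] [Fintype β] :
    toGraph (univ : Finset (Edge α β)) = completeBipartiteGraph α β := by
  ext x y
  simp only [toGraph, mem_univ, true_and, completeBipartiteGraph_adj]
  rcases x with x | x <;> rcases y with y | y <;> simp

theorem exists_isChromaticPolynomial_K33 : ∃ p : Polynomial ℂ,
    IsChromaticPolynomial (completeBipartiteGraph (Fin 3) (Fin 3)) p :=
  ⟨_, toGraph_univ (Fin 3) (Fin 3) ▸ isChromaticPolynomial_toGraph univ⟩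

theorem toGraph_isBipartite {α β : Type} (U : Finset (Edge α β)) : (toGraph U).IsBipartite := by
  refine ⟨SimpleGraph.Coloring.mk (fun x => Sum.elim (fun _ => 0) (fun _ => 1) x) ?_⟩
  rintro x y ⟨e, -, ⟨rfl, rfl⟩ | ⟨rfl, rfl⟩⟩ <;> simp

theorem not_iso_of_isBipartite {V : Type} {G : SimpleGraph V} (h : G.IsBipartite)
    (C : G.ConnectedComponent) : IsEmpty (C.toSimpleGraph ≃g (⊤ : SimpleGraph (Fin 4))) := by
  refine ⟨fun e => ?_⟩
  obtain ⟨c⟩ := h
  have c' : ((⊤ : SimpleGraph (Fin 4))).Coloring (Fin 2) :=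
    (c.comp C.toSimpleGraph_hom).comp e.symm.toHom
  have hinj : Function.Injective c' := by
    intro x y hxy
    by_contra hne
    exact c'.valid (by simpa using hne) hxy
  have := Fintype.card_le_of_injective _ hinj
  simp at this

theorem card_adj_toGraph_le_left {N : ℕ} (π : Equiv.Perm (Fin N × Fin 3)) (a : Fin N) :
    Nat.card {x // (toGraph (gr π)).Adj (Sum.inl a) x} ≤ 3 := by
  classical
  have hsurj : Function.Surjective (fun i : Fin 3 => (⟨Sum.inr (π (a, i)).1, by
      refine ⟨((a, i), π (a, i)), ?_, Or.inl ⟨rfl, rfl⟩⟩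
      simp [gr]⟩ : {x // (toGraph (gr π)).Adj (Sum.inl a) x})) := by
    rintro ⟨x, e, he, ⟨h1, h2⟩ | ⟨h1, h2⟩⟩
    · simp only [gr, mem_image, mem_univ, true_and] at he
      obtain ⟨⟨a', i⟩, rfl⟩ := he
      obtain rfl : a = a' := by simpa using h1
      exact ⟨i, by simp [h2]⟩
    · simp at h2
  have := Nat.card_le_card_of_surjective _ hsurj
  simpa using this

theorem card_adj_toGraph_le_right {N : ℕ} (π : Equiv.Perm (Fin N × Fin 3)) (b : Fin N) :
    Nat.card {x // (toGraph (gr π)).Adj (Sum.inr b) x} ≤ 3 := by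
  classical
  have hsurj : Function.Surjective (fun i : Fin 3 => (⟨Sum.inl (π.symm (b, i)).1, by
      refine ⟨(π.symm (b, i), (b, i)), ?_, Or.inr ⟨rfl, rfl⟩⟩
      simp only [gr, mem_image, mem_univ, true_and]
      exact ⟨π.symm (b, i), by simp⟩⟩ : {x // (toGraph (gr π)).Adj (Sum.inr b) x})) := by
    rintro ⟨x, e, he, ⟨h1, h2⟩ | ⟨h1, h2⟩⟩
    · simp at h1
    · simp only [gr, mem_image, mem_univ, true_and] at he
      obtain ⟨h, rfl⟩ := he
      have h2' : b = (π h).1 := by simpa using h2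
      refine ⟨(π h).2, Subtype.ext ?_⟩
      have h3 : π.symm (b, (π h).2) = h := by
        rw [h2', Prod.mk.eta, Equiv.symm_apply_apply]
      change Sum.inl (π.symm (b, (π h).2)).1 = x
      rw [h3, h1]
  have := Nat.card_le_card_of_surjective _ hsurj
  simpa using this

theorem card_adj_sum_inl {V W : Type} (G : SimpleGraph V) (H : SimpleGraph W) (v : V) :
    Nat.card {x // (G ⊕g H).Adj (Sum.inl v) x} = Nat.card {x // G.Adj v x} := by
  have h := congrArg (fun s : Set (V ⊕ W) => Nat.card s) (SimpleGraph.neighborSet_sum_inl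
    (G := G) (H := H) v)
  simp only [Nat.card_image_of_injective Sum.inl_injective] at h
  exact h

theorem card_adj_sum_inr {V W : Type} (G : SimpleGraph V) (H : SimpleGraph W) (w : W) :
    Nat.card {x // (G ⊕g H).Adj (Sum.inr w) x} = Nat.card {x // H.Adj w x} := by
  have h := congrArg (fun s : Set (V ⊕ W) => Nat.card s) (SimpleGraph.neighborSet_sum_inr
    (G := G) (H := H) w)
  simp only [Nat.card_image_of_injective Sum.inr_injective] at h
  exact h

theorem card_adj_K33 (x : Fin 3 ⊕ Fin 3) :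
    Nat.card {y // (completeBipartiteGraph (Fin 3) (Fin 3)).Adj x y} = 3 := by
  rcases x with a | b
  · have h : {y | (completeBipartiteGraph (Fin 3) (Fin 3)).Adj (Sum.inl a) y} =
        Sum.inr '' (Set.univ : Set (Fin 3)) := by
      ext y
      rcases y with y | y <;> simp
    have h' := congrArg (fun s : Set (Fin 3 ⊕ Fin 3) => Nat.card s) h
    simp only [Nat.card_image_of_injective Sum.inr_injective] at h'
    refine h'.trans ?_
    simp
  · have h : {y | (completeBipartiteGraph (Fin 3) (Fin 3)).Adj (Sum.inr b) y} =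
        Sum.inl '' (Set.univ : Set (Fin 3)) := by
      ext y
      rcases y with y | y <;> simp
    have h' := congrArg (fun s : Set (Fin 3 ⊕ Fin 3) => Nat.card s) h
    simp only [Nat.card_image_of_injective Sum.inl_injective] at h'
    refine h'.trans ?_
    simp

theorem maxDegree_eq {V : Type} [Fintype V] (G : SimpleGraph V) [DecidableRel G.Adj] {d : ℕ}
    (h : ∀ v, Nat.card {x // G.Adj v x} ≤ d) (v₀ : V) (h₀ : Nat.card {x // G.Adj v₀ x} = d) :
    G.maxDegree = d := by
  have hdeg : ∀ v, G.degree v = Nat.card {x // G.Adj v x} := by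
    intro v
    rw [← SimpleGraph.card_neighborSet_eq_degree, ← Nat.card_eq_fintype_card]
    rfl
  refine le_antisymm (G.maxDegree_le_of_forall_degree_le _ fun v => ?_) ?_
  · rw [hdeg v]
    exact h v
  · have h' := G.degree_le_maxDegree v₀
    rwa [hdeg, h₀] at h'

theorem maxDegree_union {N : ℕ} (π : Equiv.Perm (Fin N × Fin 3))
    [DecidableRel (toGraph (gr π) ⊕g completeBipartiteGraph (Fin 3) (Fin 3)).Adj] :
    (toGraph (gr π) ⊕g completeBipartiteGraph (Fin 3) (Fin 3)).maxDegree = 3 := by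
  refine maxDegree_eq _ (fun v => ?_) (Sum.inr (Sum.inl 0)) ?_
  · rcases v with (a | b) | x
    · rw [card_adj_sum_inl]
      exact card_adj_toGraph_le_left π a
    · rw [card_adj_sum_inl]
      exact card_adj_toGraph_le_right π b
    · rw [card_adj_sum_inr, card_adj_K33]
  · rw [card_adj_sum_inr, card_adj_K33]

theorem exists_admissible {r : ℝ} (hr : r < 3) : ∃ (V : Type) (_ : Fintype V) (G : SimpleGraph V),
    Admissible 3 G ∧ G.IsBipartite ∧ ∃ z : ℂ, IsChromaticRoot G z ∧ r < ‖z‖ := by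
  obtain ⟨N, π, z, ⟨p, hp, hz⟩, hrz⟩ := exists_root hr
  obtain ⟨q, hq⟩ := exists_isChromaticPolynomial_K33
  have hbip : (toGraph (gr π) ⊕g completeBipartiteGraph (Fin 3) (Fin 3)).IsBipartite := by
    rw [SimpleGraph.IsBipartite, SimpleGraph.colorable_sum]
    refine ⟨toGraph_isBipartite _, ?_⟩
    rw [← toGraph_univ]
    exact toGraph_isBipartite _
  refine ⟨_, inferInstance, toGraph (gr π) ⊕g completeBipartiteGraph (Fin 3) (Fin 3),
    ⟨by classical exact maxDegree_union π, fun _ C => not_iso_of_isBipartite hbip C⟩, hbip, z,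
    ⟨p * q, hp.sum hq, ?_⟩, hrz⟩
  rw [Polynomial.IsRoot.def, Polynomial.eval_mul, hz.eq_zero, zero_mul]

/-! ### The largest modulus is attained -/

theorem IsChromaticPolynomial.unique {V : Type} {G : SimpleGraph V} {p q : Polynomial ℂ}
    (hp : IsChromaticPolynomial G p) (hq : IsChromaticPolynomial G q) : p = q := by
  refine Polynomial.eq_of_infinite_eval_eq p q ?_
  refine (Set.infinite_range_of_injective (Nat.cast_injective (R := ℂ))).mono ?_
  rintro _ ⟨n, rfl⟩
  exact (hp n).trans (hq n).symm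

theorem IsChromaticPolynomial.isChromaticRoot_iff {V : Type} {G : SimpleGraph V}
    {p : Polynomial ℂ} (hp : IsChromaticPolynomial G p) (z : ℂ) :
    IsChromaticRoot G z ↔ p.IsRoot z := by
  constructor
  · rintro ⟨q, hq, hz⟩
    rwa [hp.unique hq]
  · exact fun h => ⟨p, hp, h⟩

theorem isGreatest_rho : IsGreatest (moduli 3) (rho 3) := by
  obtain ⟨p, hp⟩ := exists_isChromaticPolynomial_K33
  have hp0 : p ≠ 0 := by
    rintro rfl
    have h := hp 2
    rw [Polynomial.eval_zero] at h
    have hne : Nonempty ((completeBipartiteGraph (Fin 3) (Fin 3)).Coloring (Fin 2)) := by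
      rw [← toGraph_univ]
      exact toGraph_isBipartite _
    have hpos : 0 < Nat.card ((completeBipartiteGraph (Fin 3) (Fin 3)).Coloring (Fin 2)) := by
      have : Finite ((completeBipartiteGraph (Fin 3) (Fin 3)).Coloring (Fin 2)) :=
        Finite.of_injective _ DFunLike.coe_injective
      exact Nat.card_pos
    have : (Nat.card ((completeBipartiteGraph (Fin 3) (Fin 3)).Coloring (Fin 2)) : ℂ) ≠ 0 := by
      exact_mod_cast hpos.ne'
    exact this h.symm
  have hset : moduli 3 = (fun w : ℂ => ‖w‖) '' {w | p.IsRoot w} := by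
    ext x
    simp only [moduli, Set.mem_ofPred_eq, Set.mem_image, hp.isChromaticRoot_iff]
    exact ⟨fun ⟨w, h1, h2⟩ => ⟨w, h1, h2.symm⟩, fun ⟨w, h1, h2⟩ => ⟨w, h1, h2.symm⟩⟩
  have hfin : (moduli 3).Finite := by
    rw [hset]
    exact (Polynomial.finite_setOfPred_isRoot hp0).image _
  have hne : (moduli 3).Nonempty := by
    rw [hset]
    refine ⟨_, 0, ?_, rfl⟩
    have h := hp 0
    rw [Nat.cast_zero] at h
    have h0 : Nat.card ((completeBipartiteGraph (Fin 3) (Fin 3)).Coloring (Fin 0)) = 0 := by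
      have : IsEmpty ((completeBipartiteGraph (Fin 3) (Fin 3)).Coloring (Fin 0)) :=
        ⟨fun c => (c (Sum.inl 0)).elim0⟩
      exact Nat.card_of_isEmpty
    rw [h0, Nat.cast_zero] at h
    exact h
  exact ⟨hne.csSup_mem hfin, fun x hx => le_csSup hfin.bddAbove hx⟩

theorem rho_lt : rho 3 < 29 / 10 := by
  obtain ⟨w, ⟨p, hp, hw⟩, h⟩ := isGreatest_rho.1
  rw [h]
  exact norm_lt_of_K33 hp hw

end MP6f9538
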