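import Pool.Agent.Lib.MP_6f9538_co.Weights

/-!
# P3: the rank of a bipartite multigraph
-/

namespace MP6f9538

open Finset

section P3
variable {α β : Type} [Fintype α] [Fintype β] [DecidableEq α] [DecidableEq β]

theorem finrank_fun : Module.finrank (ZMod 2) (α ⊕ β → ZMod 2) =
    Fintype.card α + Fintype.card β := by
  rw [Module.finrank_fintype_fun_eq_card, Fintype.card_sum]

theorem finrank_cst_le (U : Finset (Edge α β)) :
    Module.finrank (ZMod 2) (cst U) ≤ Fintype.card α + Fintype.card β := by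
  rw [← finrank_fun]
  exact Submodule.finrank_le _

theorem rk_add_finrank (U : Finset (Edge α β)) :
    rk U + Module.finrank (ZMod 2) (cst U) = Fintype.card α + Fintype.card β := by
  have := finrank_cst_le U
  unfold rk
  omega

theorem rk_eq_quot (U : Finset (Edge α β)) :
    rk U = Module.finrank (ZMod 2) ((α ⊕ β → ZMod 2) ⧸ cst U) := by
  have h1 := Submodule.finrank_quotient_add_finrank (cst U)
  have h2 := rk_add_finrank U
  rw [finrank_fun] at h1
  omega

theorem cst_union (U U' : Finset (Edge α β)) : cst (U ∪ U') = cst U ⊓ cst U' := by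
  ext f
  simp only [cst, Submodule.mem_inf, Submodule.mem_mk, AddSubmonoid.mem_mk,
    AddSubsemigroup.mem_mk, Set.mem_ofPred_eq, Finset.mem_union]
  constructor
  · intro h
    exact ⟨fun e he => h e (Or.inl he), fun e he => h e (Or.inr he)⟩
  · rintro ⟨h1, h2⟩ e (he | he)
    · exact h1 e he
    · exact h2 e he

omit [Fintype α] [Fintype β] [DecidableEq α] [DecidableEq β] in
theorem mem_cst {U : Finset (Edge α β)} {f : α ⊕ β → ZMod 2} :
    f ∈ cst U ↔ ∀ e ∈ U, f (Sum.inl e.1.1) = f (Sum.inr e.2.1) := Iff.rfl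

theorem cst_anti {U U' : Finset (Edge α β)} (h : U ⊆ U') : cst U' ≤ cst U :=
  fun _ hf e he => hf e (h he)

theorem rk_union_le (U U' : Finset (Edge α β)) : rk (U ∪ U') ≤ rk U + rk U' := by
  have h1 := Submodule.finrank_sup_add_finrank_inf_eq (cst U) (cst U')
  have h2 := rk_add_finrank U
  have h3 := rk_add_finrank U'
  have h4 := rk_add_finrank (U ∪ U')
  have h5 : Module.finrank (ZMod 2) ↥(cst U ⊔ cst U') ≤ Fintype.card α + Fintype.card β := by
    rw [← finrank_fun]
    exact Submodule.finrank_le _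
  rw [cst_union] at h4
  omega

theorem rk_union_of_sup {U U' : Finset (Edge α β)} (h : cst U ⊔ cst U' = ⊤) :
    rk (U ∪ U') = rk U + rk U' := by
  have h1 := Submodule.finrank_sup_add_finrank_inf_eq (cst U) (cst U')
  have h2 := rk_add_finrank U
  have h3 := rk_add_finrank U'
  have h4 := rk_add_finrank (U ∪ U')
  rw [h, finrank_top, finrank_fun] at h1
  rw [cst_union] at h4
  omega

theorem rk_mono {U U' : Finset (Edge α β)} (h : U ⊆ U') : rk U ≤ rk U' := by
  have h1 := Submodule.finrank_mono (cst_anti h)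
  have h2 := rk_add_finrank U
  have h3 := rk_add_finrank U'
  omega

theorem rk_le (U : Finset (Edge α β)) : rk U ≤ Fintype.card α + Fintype.card β := by
  have := rk_add_finrank U
  omega

/-- constants are always in `cst U`. -/
theorem rk_lt (U : Finset (Edge α β)) [Nonempty α] :
    rk U < Fintype.card α + Fintype.card β := by
  have h := rk_add_finrank U
  have h1 : 0 < Module.finrank (ZMod 2) (cst U) := by
    have hmem : (fun _ => 1 : α ⊕ β → ZMod 2) ∈ cst U := fun e he => rfl
    have : Nontrivial (cst U) := by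
      refine ⟨⟨⟨_, hmem⟩, 0, ?_⟩⟩
      intro h
      have h' := congrArg Subtype.val h
      have h'' := congrFun h' (Sum.inl (Classical.arbitrary α))
      exact one_ne_zero h''
    exact Module.finrank_pos
  omega

theorem rk_empty : rk (∅ : Finset (Edge α β)) = 0 := by
  have h : cst (∅ : Finset (Edge α β)) = ⊤ := by
    ext f
    simp [mem_cst]
  have h1 := rk_add_finrank (∅ : Finset (Edge α β))
  rw [h, finrank_top, finrank_fun] at h1
  omega

theorem rk_singleton (e : Edge α β) : rk {e} = 1 := by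
  let ℓ : (α ⊕ β → ZMod 2) →ₗ[ZMod 2] ZMod 2 :=
    LinearMap.proj (R := ZMod 2) (φ := fun _ : α ⊕ β => ZMod 2) (Sum.inl e.1.1) -
      LinearMap.proj (R := ZMod 2) (φ := fun _ : α ⊕ β => ZMod 2) (Sum.inr e.2.1)
  have hker : cst {e} = LinearMap.ker ℓ := by
    ext f
    simp [mem_cst, ℓ, sub_eq_zero]
  have hsurj : Function.Surjective ℓ := by
    intro c
    refine ⟨Pi.single (Sum.inl e.1.1) c, ?_⟩
    simp [ℓ]
  have h1 := LinearMap.finrank_range_add_finrank_ker ℓ
  rw [LinearMap.range_eq_top.2 hsurj, finrank_top, Module.finrank_self, finrank_fun, ← hker] at h1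
  have h2 := rk_add_finrank ({e} : Finset (Edge α β))
  omega

theorem sup_eq_top_of_disjoint {U U' : Finset (Edge α β)} (hA : Disjoint (sA U) (sA U'))
    (hB : Disjoint (sB U) (sB U')) : cst U ⊔ cst U' = ⊤ := by
  classical
  rw [eq_top_iff]
  intro f _
  rw [Submodule.mem_sup]
  refine ⟨fun x => Sum.elim (fun a => if a ∈ sA U then 0 else f (Sum.inl a))
    (fun b => if b ∈ sB U then 0 else f (Sum.inr b)) x, ?_,
    fun x => Sum.elim (fun a => if a ∈ sA U then f (Sum.inl a) else 0)
    (fun b => if b ∈ sB U then f (Sum.inr b) else 0) x, ?_, ?_⟩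
  · intro e he
    have h1 : e.1.1 ∈ sA U := mem_image_of_mem _ he
    have h2 : e.2.1 ∈ sB U := mem_image_of_mem _ he
    simp [h1, h2]
  · intro e he
    have h1 : e.1.1 ∉ sA U := fun h => disjoint_left.1 hA h (mem_image_of_mem _ he)
    have h2 : e.2.1 ∉ sB U := fun h => disjoint_left.1 hB h (mem_image_of_mem _ he)
    simp [h1, h2]
  · ext x
    rcases x with a | b
    · by_cases h : a ∈ sA U <;> simp [h]
    · by_cases h : b ∈ sB U <;> simp [h]

theorem rk_union_of_disjoint {U U' : Finset (Edge α β)} (hA : Disjoint (sA U) (sA U'))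
    (hB : Disjoint (sB U) (sB U')) : rk (U ∪ U') = rk U + rk U' :=
  rk_union_of_sup (sup_eq_top_of_disjoint hA hB)

theorem rk_insert_of_notMem_sA {U : Finset (Edge α β)} {e : Edge α β} (h : e.1.1 ∉ sA U) :
    rk (insert e U) = rk U + 1 := by
  classical
  have hU : insert e U = U ∪ {e} := by
    ext x; simp
  rw [hU, rk_union_of_sup, rk_singleton]
  rw [eq_top_iff]
  intro f _
  rw [Submodule.mem_sup]
  refine ⟨Pi.single (Sum.inl e.1.1) (f (Sum.inl e.1.1) - f (Sum.inr e.2.1)), ?_,
    f - Pi.single (Sum.inl e.1.1) (f (Sum.inl e.1.1) - f (Sum.inr e.2.1)), ?_, by simp⟩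
  · intro e' he'
    have h1 : e'.1.1 ≠ e.1.1 := fun h' => h (h' ▸ mem_image_of_mem _ he')
    simp [h1]
  · intro e' he'
    rw [mem_singleton] at he'
    subst he'
    simp

theorem rk_insert_of_notMem_sB {U : Finset (Edge α β)} {e : Edge α β} (h : e.2.1 ∉ sB U) :
    rk (insert e U) = rk U + 1 := by
  classical
  have hU : insert e U = U ∪ {e} := by
    ext x; simp
  rw [hU, rk_union_of_sup, rk_singleton]
  rw [eq_top_iff]
  intro f _
  rw [Submodule.mem_sup]
  refine ⟨Pi.single (Sum.inr e.2.1) (f (Sum.inr e.2.1) - f (Sum.inl e.1.1)), ?_,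
    f - Pi.single (Sum.inr e.2.1) (f (Sum.inr e.2.1) - f (Sum.inl e.1.1)), ?_, by simp⟩
  · intro e' he'
    have h1 : e'.2.1 ≠ e.2.1 := fun h' => h (h' ▸ mem_image_of_mem _ he')
    simp [h1]
  · intro e' he'
    rw [mem_singleton] at he'
    subst he'
    simp

theorem rk_eq_zero_iff (U : Finset (Edge α β)) : rk U = 0 ↔ U = ∅ := by
  constructor
  · intro h
    by_contra hne
    obtain ⟨e, he⟩ := Finset.nonempty_iff_ne_empty.2 hne
    have := rk_mono (singleton_subset_iff.2 he)
    rw [rk_singleton] at this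
    omega
  · rintro rfl
    exact rk_empty

theorem card_sA_le_rk (U : Finset (Edge α β)) : (sA U).card ≤ rk U := by
  classical
  have key : ∀ S : Finset α, S ⊆ sA U → ∃ T ⊆ U, sA T = S ∧ rk T = S.card := by
    intro S
    induction S using Finset.induction_on with
    | empty => intro _; exact ⟨∅, by simp, by simp [sA], by simp [rk_empty]⟩
    | insert a S ha ih =>
      intro hS
      obtain ⟨T, hT, h1, h2⟩ := ih ((subset_insert a S).trans hS)
      obtain ⟨e, he, hea⟩ := mem_image.1 (hS (mem_insert_self a S))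
      have hea' : e.1.1 = a := hea
      refine ⟨insert e T, insert_subset he hT, ?_, ?_⟩
      · rw [sA, image_insert]
        rw [sA] at h1
        rw [h1, hea']
      · rw [rk_insert_of_notMem_sA, h2, card_insert_of_notMem ha]
        rw [h1, hea']; exact ha
  obtain ⟨T, hT, -, h2⟩ := key (sA U) subset_rfl
  rw [← h2]
  exact rk_mono hT

theorem card_sB_le_rk (U : Finset (Edge α β)) : (sB U).card ≤ rk U := by
  classical
  have key : ∀ S : Finset β, S ⊆ sB U → ∃ T ⊆ U, sB T = S ∧ rk T = S.card := by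
    intro S
    induction S using Finset.induction_on with
    | empty => intro _; exact ⟨∅, by simp, by simp [sB], by simp [rk_empty]⟩
    | insert a S ha ih =>
      intro hS
      obtain ⟨T, hT, h1, h2⟩ := ih ((subset_insert a S).trans hS)
      obtain ⟨e, he, hea⟩ := mem_image.1 (hS (mem_insert_self a S))
      have hea' : e.2.1 = a := hea
      refine ⟨insert e T, insert_subset he hT, ?_, ?_⟩
      · rw [sB, image_insert]
        rw [sB] at h1
        rw [h1, hea']
      · rw [rk_insert_of_notMem_sB, h2, card_insert_of_notMem ha]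
        rw [h1, hea']; exact ha
  obtain ⟨T, hT, -, h2⟩ := key (sB U) subset_rfl
  rw [← h2]
  exact rk_mono hT

/-- full support: at most half as many components as vertices. -/
theorem card_le_two_mul_rk {U : Finset (Edge α β)} (hA : sA U = univ) (hB : sB U = univ) :
    Fintype.card α + Fintype.card β ≤ 2 * rk U := by
  have h1 := card_sA_le_rk U
  have h2 := card_sB_le_rk U
  rw [hA, card_univ] at h1
  rw [hB, card_univ] at h2
  omega

theorem rk_map {α' β' : Type} [Fintype α'] [Fintype β'] [DecidableEq α'] [DecidableEq β']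
    (f : α ↪ α') (g : β ↪ β') (U : Finset (Edge α β)) :
    rk (U.map (edgeEmb f g)) = rk U := by
  classical
  rw [rk_eq_quot, rk_eq_quot]
  let R : (α' ⊕ β' → ZMod 2) →ₗ[ZMod 2] (α ⊕ β → ZMod 2) :=
    LinearMap.funLeft (ZMod 2) (ZMod 2) (Sum.map f g)
  have hinj : Function.Injective (Sum.map f g) := Sum.map_injective.2 ⟨f.injective, g.injective⟩
  have hR : Function.Surjective R := LinearMap.funLeft_surjective_of_injective _ _ _ hinj
  have hker : LinearMap.ker ((cst U).mkQ.comp R) = cst (U.map (edgeEmb f g)) := by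
    ext h
    rw [LinearMap.mem_ker, LinearMap.comp_apply, Submodule.mkQ_apply,
      Submodule.Quotient.mk_eq_zero, mem_cst, mem_cst]
    constructor
    · intro hh e he
      obtain ⟨e', he', rfl⟩ := mem_map.1 he
      exact hh e' he'
    · intro hh e he
      exact hh _ (mem_map_of_mem _ he)
  have hs : Function.Surjective ((cst U).mkQ.comp R) :=
    (Submodule.mkQ_surjective _).comp hR
  rw [← hker]
  exact LinearEquiv.finrank_eq (LinearMap.quotKerEquivOfSurjective _ hs)

/-- adjacency along `U`. -/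
def adjU (U : Finset (Edge α β)) (x y : α ⊕ β) : Prop :=
  ∃ e ∈ U, x = Sum.inl e.1.1 ∧ y = Sum.inr e.2.1

omit [Fintype α] [Fintype β] [DecidableEq α] [DecidableEq β] in
/-- functions constant along `U` are functions on the quotient. -/
def constEquiv (U : Finset (Edge α β)) (K : Type) :
    {f : α ⊕ β → K // ∀ e ∈ U, f (Sum.inl e.1.1) = f (Sum.inr e.2.1)} ≃ (Quot (adjU U) → K) where
  toFun f := Quot.lift f.1 (by
    rintro x y ⟨e, he, rfl, rfl⟩
    exact f.2 e he)
  invFun g := ⟨fun x => g (Quot.mk _ x), fun e he => congrArg g (Quot.sound ⟨e, he, rfl, rfl⟩)⟩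
  left_inv f := rfl
  right_inv g := by
    funext x
    induction x using Quot.ind
    rfl

theorem finrank_cst_eq (U : Finset (Edge α β)) :
    Module.finrank (ZMod 2) (cst U) = Nat.card (Quot (adjU U)) := by
  have h1 : Nat.card (cst U) = 2 ^ Module.finrank (ZMod 2) (cst U) := by
    rw [Module.natCard_eq_pow_finrank (K := ZMod 2), Nat.card_zmod]
  have h2 : Nat.card (cst U) = 2 ^ Nat.card (Quot (adjU U)) := by
    have : Nat.card (cst U) = Nat.card (Quot (adjU U) → ZMod 2) :=
      Nat.card_congr (constEquiv U (ZMod 2))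
    rw [this, Nat.card_fun, Nat.card_zmod]
  exact Nat.pow_right_injective le_rfl (h1.symm.trans h2)

/-- number of `q`-colourings constant along `U`. -/
theorem card_const (U : Finset (Edge α β)) (q : ℕ) :
    Nat.card {f : α ⊕ β → Fin q // ∀ e ∈ U, f (Sum.inl e.1.1) = f (Sum.inr e.2.1)} =
      q ^ (Fintype.card α + Fintype.card β - rk U) := by
  have h := rk_add_finrank U
  rw [Nat.card_congr (constEquiv U (Fin q)), Nat.card_fun, Nat.card_fin, ← finrank_cst_eq]
  congr 1
  omega

end P3

end MP6f9538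

/-!
# P4: Whitney's formula for the chromatic polynomial
-/

namespace MP6f9538

open Finset

section P4
variable {α β : Type} [Fintype α] [Fintype β] [DecidableEq α] [DecidableEq β]

/-- colourings of `toGraph U` as functions -/
def coloringEquiv (U : Finset (Edge α β)) (q : ℕ) :
    (toGraph U).Coloring (Fin q) ≃
      {f : α ⊕ β → Fin q // ∀ e ∈ U, f (Sum.inl e.1.1) ≠ f (Sum.inr e.2.1)} where
  toFun c := ⟨c, fun e he => c.valid ⟨e, he, Or.inl ⟨rfl, rfl⟩⟩⟩
  invFun f := SimpleGraph.Coloring.mk f.1 (by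
    rintro x y ⟨e, he, ⟨rfl, rfl⟩ | ⟨rfl, rfl⟩⟩
    · exact f.2 e he
    · exact (f.2 e he).symm)
  left_inv c := by ext x; rfl
  right_inv f := rfl

theorem card_coloring (U : Finset (Edge α β)) (q : ℕ) :
    (Nat.card ((toGraph U).Coloring (Fin q)) : ℂ) =
      ∑ T ∈ U.powerset, (-1) ^ T.card *
        (q : ℂ) ^ (Fintype.card α + Fintype.card β - rk T) := by
  classical
  rw [Nat.card_congr (coloringEquiv U q), Nat.card_eq_fintype_card, Fintype.card_subtype]
  have h1 : ∀ f : α ⊕ β → Fin q,
      (∏ e ∈ U, (1 - (if f (Sum.inl e.1.1) = f (Sum.inr e.2.1) then (1 : ℂ) else 0))) =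
        if ∀ e ∈ U, f (Sum.inl e.1.1) ≠ f (Sum.inr e.2.1) then 1 else 0 := by
    intro f
    split_ifs with h
    · apply Finset.prod_eq_one
      intro e he
      rw [if_neg (h e he), sub_zero]
    · push_neg at h
      obtain ⟨e, he, h⟩ := h
      exact Finset.prod_eq_zero he (by rw [if_pos h, sub_self])
  have h2 : ∀ f : α ⊕ β → Fin q,
      (∏ e ∈ U, (1 - (if f (Sum.inl e.1.1) = f (Sum.inr e.2.1) then (1 : ℂ) else 0))) =
        ∑ T ∈ U.powerset, (-1) ^ T.card *
          if ∀ e ∈ T, f (Sum.inl e.1.1) = f (Sum.inr e.2.1) then (1 : ℂ) else 0 := by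
    intro f
    have : ∀ e ∈ U, (1 - (if f (Sum.inl e.1.1) = f (Sum.inr e.2.1) then (1 : ℂ) else 0)) =
        (-(if f (Sum.inl e.1.1) = f (Sum.inr e.2.1) then (1 : ℂ) else 0)) + 1 := by
      intro e _; ring
    rw [Finset.prod_congr rfl this, Finset.prod_add]
    refine Finset.sum_congr rfl fun T hT => ?_
    rw [Finset.prod_const_one, mul_one, Finset.prod_neg]
    congr 1
    split_ifs with h
    · exact Finset.prod_eq_one fun e he => by rw [if_pos (h e he)]
    · push_neg at h
      obtain ⟨e, he, h⟩ := h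
      exact Finset.prod_eq_zero he (by rw [if_neg h])
  have h3 : ((univ.filter fun f : α ⊕ β → Fin q =>
      ∀ e ∈ U, f (Sum.inl e.1.1) ≠ f (Sum.inr e.2.1)).card : ℂ) =
      ∑ f : α ⊕ β → Fin q, if ∀ e ∈ U, f (Sum.inl e.1.1) ≠ f (Sum.inr e.2.1) then (1 : ℂ) else 0 := by
    rw [Finset.sum_boole]
  rw [h3]
  rw [Finset.sum_congr rfl fun f _ => (h1 f).symm, Finset.sum_congr rfl fun f _ => h2 f,
    Finset.sum_comm]
  refine Finset.sum_congr rfl fun T _ => ?_
  rw [← Finset.mul_sum, Finset.sum_boole]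
  congr 1
  have h4 := card_const T q
  rw [Nat.card_eq_fintype_card, Fintype.card_subtype] at h4
  rw [h4]
  push_cast
  rfl

theorem isChromaticPolynomial_toGraph (U : Finset (Edge α β)) :
    IsChromaticPolynomial (toGraph U)
      (∑ T ∈ U.powerset, (-1) ^ T.card *
        Polynomial.X ^ (Fintype.card α + Fintype.card β - rk T)) := by
  intro q
  rw [card_coloring, Polynomial.eval_finsetSum]
  refine Finset.sum_congr rfl fun T _ => ?_
  simp

end P4

end MP6f9538

/-!
The number of permutations of the half-edges whose graph contains a given set of edges.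
-/

namespace MP6f9538

open Finset

theorem mem_gr {N : ℕ} (π : Equiv.Perm (Fin N × Fin 3)) (e : Edge (Fin N) (Fin N)) :
    e ∈ gr π ↔ π e.1 = e.2 := by
  unfold gr
  simp only [mem_image, mem_univ, true_and]
  constructor
  · rintro ⟨h, rfl⟩
    rfl
  · intro h
    exact ⟨e.1, by rw [h]⟩

theorem isMatching_gr {N : ℕ} (π : Equiv.Perm (Fin N × Fin 3)) : IsMatching (gr π) := by
  refine ⟨fun e he e' he' h => ?_, fun e he e' he' h => ?_⟩
  · rw [mem_gr] at he he'
    refine Prod.ext h ?_
    rw [← he, ← he', h]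
  · rw [mem_gr] at he he'
    refine Prod.ext ?_ h
    apply π.injective
    rw [he, he', h]

theorem IsMatching.mono {α β : Type} {U T : Finset (Edge α β)} (hT : IsMatching T) (h : U ⊆ T) :
    IsMatching U :=
  ⟨fun e he e' he' hh => hT.1 e (h he) e' (h he') hh,
    fun e he e' he' hh => hT.2 e (h he) e' (h he') hh⟩

theorem exists_perm_of_isMatching {N : ℕ} {U : Finset (Edge (Fin N) (Fin N))}
    (hU : IsMatching U) : ∃ π : Equiv.Perm (Fin N × Fin 3), U ⊆ gr π := by
  classical
  let e1 : U ≃ {h : Fin N × Fin 3 // h ∈ U.image Prod.fst} :=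
    Equiv.ofBijective (fun e => ⟨e.1.1, mem_image_of_mem _ e.2⟩) (by
      constructor
      · intro e e' h
        exact Subtype.ext (hU.1 _ e.2 _ e'.2 (Subtype.ext_iff.mp h))
      · rintro ⟨h, hh⟩
        obtain ⟨e, he, rfl⟩ := mem_image.mp hh
        exact ⟨⟨e, he⟩, rfl⟩)
  let e2 : U ≃ {h : Fin N × Fin 3 // h ∈ U.image Prod.snd} :=
    Equiv.ofBijective (fun e => ⟨e.1.2, mem_image_of_mem _ e.2⟩) (by
      constructor
      · intro e e' h
        exact Subtype.ext (hU.2 _ e.2 _ e'.2 (Subtype.ext_iff.mp h))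
      · rintro ⟨h, hh⟩
        obtain ⟨e, he, rfl⟩ := mem_image.mp hh
        exact ⟨⟨e, he⟩, rfl⟩)
  refine ⟨(e1.symm.trans e2).extendSubtype, fun e he => ?_⟩
  rw [mem_gr, Equiv.extendSubtype_apply_of_mem _ _ (mem_image_of_mem _ he)]
  have h1 : e1.symm ⟨e.1, mem_image_of_mem _ he⟩ = ⟨e, he⟩ := by
    rw [Equiv.symm_apply_eq]
    rfl
  rw [Equiv.trans_apply, h1]
  rfl

theorem IsMatching.card_image_fst {α β : Type} [DecidableEq α] [DecidableEq β]
    {U : Finset (Edge α β)} (hU : IsMatching U) : (U.image Prod.fst).card = U.card :=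
  card_image_of_injOn fun e he e' he' h => hU.1 e he e' he' h

theorem card_gr_superset {N : ℕ} (U : Finset (Edge (Fin N) (Fin N))) :
    (univ.filter fun π : Equiv.Perm (Fin N × Fin 3) => U ⊆ gr π).card =
      (by classical exact if IsMatching U then (3 * N - U.card).factorial else 0) := by
  classical
  split_ifs with hU
  · obtain ⟨π₀, h₀⟩ := exists_perm_of_isMatching hU
    have hsub : ∀ π : Equiv.Perm (Fin N × Fin 3), U ⊆ gr π ↔
        ∀ h, ¬ (h ∉ U.image Prod.fst) → (π₀⁻¹ * π) h = h := by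
      intro π
      constructor
      · intro hπ h hh
        obtain ⟨e, he, rfl⟩ := mem_image.mp (not_not.mp hh)
        have h1 := (mem_gr _ _).mp (hπ he)
        have h2 := (mem_gr _ _).mp (h₀ he)
        rw [Equiv.Perm.mul_apply, h1, Equiv.Perm.inv_eq_iff_eq, h2]
      · intro h e he
        have h1 := h e.1 (not_not.mpr (mem_image_of_mem _ he))
        have h2 := (mem_gr _ _).mp (h₀ he)
        rw [mem_gr, ← h2]
        rw [Equiv.Perm.mul_apply, Equiv.Perm.inv_eq_iff_eq] at h1
        exact h1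
    have e1 : {π : Equiv.Perm (Fin N × Fin 3) // U ⊆ gr π} ≃
        {σ : Equiv.Perm (Fin N × Fin 3) // ∀ h, ¬ (h ∉ U.image Prod.fst) → σ h = h} :=
      (Equiv.mulLeft π₀⁻¹).subtypeEquiv fun π => by
        rw [hsub]
        rfl
    have e2 := (Equiv.Perm.subtypeEquivSubtypePerm
      (fun h : Fin N × Fin 3 => h ∉ U.image Prod.fst)).symm
    rw [← Fintype.card_subtype, Fintype.card_congr (e1.trans e2), Fintype.card_perm,
      Fintype.card_subtype_compl (fun h : Fin N × Fin 3 => h ∈ U.image Prod.fst),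
      Fintype.card_coe, hU.card_image_fst]
    congr 2
    simp [mul_comm]
  · rw [card_eq_zero, filter_eq_empty_iff]
    intro π _ h
    exact hU ((isMatching_gr π).mono h)

end MP6f9538

/-!
# Connected two-regular patterns

The only patterns with `m + m` touched vertices and `2 m` edges that contribute are the connected
two-regular ones, and each contributes the weight of a cycle of length `2 m`.
-/

namespace MP6f9538
open Finset PowerSeries


section conn

variable {α β : Type} [Fintype α] [Fintype β] [DecidableEq α] [DecidableEq β]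

omit [Fintype α] [Fintype β] [DecidableEq β] in
theorem Conn.mem_sA {U : Finset (Edge α β)} {a : α} : a ∈ sA U ↔ ∃ e ∈ U, e.1.1 = a := by
  simp only [sA, mem_image]

omit [Fintype α] [Fintype β] [DecidableEq α] in
theorem Conn.mem_sB {U : Finset (Edge α β)} {b : β} : b ∈ sB U ↔ ∃ e ∈ U, e.2.1 = b := by
  simp only [sB, mem_image]

omit [Fintype α] [Fintype β] [DecidableEq β] in
theorem Conn.sA_mono {U T : Finset (Edge α β)} (h : U ⊆ T) : sA U ⊆ sA T := image_subset_image h

omit [Fintype α] [Fintype β] [DecidableEq α] in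
theorem Conn.sB_mono {U T : Finset (Edge α β)} (h : U ⊆ T) : sB U ⊆ sB T := image_subset_image h

/-- a pendant edge kills the weight -/
theorem Conn.psi_pendant_A {k : ℕ} {U : Finset (Edge α β)} {e : Edge α β} (he : e ∈ U)
    (h : e.1.1 ∉ sA (U.erase e)) (hU : 2 ≤ U.card) : psi ℝ rk k U = 0 := by
  have h1 : U = {e} ∪ U.erase e := by
    rw [← insert_eq, insert_erase he]
  rw [h1]
  have hc : 1 ≤ (U.erase e).card := by rw [card_erase_of_mem he]; omega
  apply psi_union rk_eq_zero_iff (by simp) (singleton_nonempty e) (card_pos.1 hc)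
  intro T₁ hT₁ T₂ hT₂
  rcases subset_singleton_iff.1 hT₁ with rfl | rfl
  · rw [empty_union, (rk_eq_zero_iff ∅).2 rfl, zero_add]
  · rw [← insert_eq, rk_insert_of_notMem_sA (fun h' => h (Conn.sA_mono hT₂ h')), rk_singleton, add_comm]

theorem Conn.psi_pendant_B {k : ℕ} {U : Finset (Edge α β)} {e : Edge α β} (he : e ∈ U)
    (h : e.2.1 ∉ sB (U.erase e)) (hU : 2 ≤ U.card) : psi ℝ rk k U = 0 := by
  have h1 : U = {e} ∪ U.erase e := by
    rw [← insert_eq, insert_erase he]
  rw [h1]
  have hc : 1 ≤ (U.erase e).card := by rw [card_erase_of_mem he]; omega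
  apply psi_union rk_eq_zero_iff (by simp) (singleton_nonempty e) (card_pos.1 hc)
  intro T₁ hT₁ T₂ hT₂
  rcases subset_singleton_iff.1 hT₁ with rfl | rfl
  · rw [empty_union, (rk_eq_zero_iff ∅).2 rfl, zero_add]
  · rw [← insert_eq, rk_insert_of_notMem_sB (fun h' => h (Conn.sB_mono hT₂ h')), rk_singleton, add_comm]

theorem Conn.psi_not_conn_gen {k : ℕ} {U : Finset (Edge α β)} (hc : ¬ IsConn U) :
    psi ℝ rk k U = 0 := by
  unfold IsConn at hc
  push Not at hc
  obtain ⟨T, hTU, hTn, hA, hB, hne⟩ := hc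
  have h1 : U = T ∪ (U \ T) := (union_sdiff_of_subset hTU).symm
  have h2 : (U \ T).Nonempty := by
    rw [sdiff_nonempty]
    intro h
    exact hne (Subset.antisymm hTU h)
  rw [h1]
  apply psi_union rk_eq_zero_iff disjoint_sdiff hTn h2
  intro T₁ hT₁ T₂ hT₂
  exact rk_union_of_disjoint (hA.mono (Conn.sA_mono hT₁) (Conn.sA_mono hT₂))
    (hB.mono (Conn.sB_mono hT₁) (Conn.sB_mono hT₂))

omit [Fintype α] [Fintype β] in
/-- the edges at a vertex of degree two, when one of them is outside `T` -/
theorem Conn.notMem_sA_erase {U T : Finset (Edge α β)}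
    (h2 : ∀ a : α, (U.filter fun e => e.1.1 = a).card = 2) (hT : T ⊆ U)
    {e e' : Edge α β} (he : e ∈ T) (he' : e' ∈ U \ T) (h : e'.1.1 = e.1.1) :
    e.1.1 ∉ sA (T.erase e) := by
  intro hm
  obtain ⟨f, hf, hfa⟩ := Conn.mem_sA.1 hm
  obtain ⟨hfe, hfT⟩ := mem_erase.1 hf
  obtain ⟨he'U, he'T⟩ := mem_sdiff.1 he'
  have hsub : ({e, e', f} : Finset (Edge α β)) ⊆ U.filter fun x => x.1.1 = e.1.1 := by
    intro x hx
    simp only [mem_insert, mem_singleton] at hx
    rcases hx with rfl | rfl | rfl
    · exact mem_filter.2 ⟨hT he, rfl⟩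
    · exact mem_filter.2 ⟨he'U, h⟩
    · exact mem_filter.2 ⟨hT hfT, hfa⟩
  have hc := card_le_card hsub
  rw [h2 e.1.1] at hc
  have h3 : ({e, e', f} : Finset (Edge α β)).card = 3 := by
    rw [card_eq_three]
    refine ⟨e, e', f, ?_, ?_, ?_, rfl⟩
    · rintro rfl; exact he'T he
    · exact fun h => hfe h.symm
    · rintro rfl; exact he'T hfT
  omega

omit [Fintype α] [Fintype β] in
theorem Conn.notMem_sB_erase {U T : Finset (Edge α β)}
    (h2 : ∀ b : β, (U.filter fun e => e.2.1 = b).card = 2) (hT : T ⊆ U)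
    {e e' : Edge α β} (he : e ∈ T) (he' : e' ∈ U \ T) (h : e'.2.1 = e.2.1) :
    e.2.1 ∉ sB (T.erase e) := by
  intro hm
  obtain ⟨f, hf, hfa⟩ := Conn.mem_sB.1 hm
  obtain ⟨hfe, hfT⟩ := mem_erase.1 hf
  obtain ⟨he'U, he'T⟩ := mem_sdiff.1 he'
  have hsub : ({e, e', f} : Finset (Edge α β)) ⊆ U.filter fun x => x.2.1 = e.2.1 := by
    intro x hx
    simp only [mem_insert, mem_singleton] at hx
    rcases hx with rfl | rfl | rfl
    · exact mem_filter.2 ⟨hT he, rfl⟩
    · exact mem_filter.2 ⟨he'U, h⟩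
    · exact mem_filter.2 ⟨hT hfT, hfa⟩
  have hc := card_le_card hsub
  rw [h2 e.2.1] at hc
  have h3 : ({e, e', f} : Finset (Edge α β)).card = 3 := by
    rw [card_eq_three]
    refine ⟨e, e', f, ?_, ?_, ?_, rfl⟩
    · rintro rfl; exact he'T he
    · exact fun h => hfe h.symm
    · rintro rfl; exact he'T hfT
  omega

/-- rank of a proper subset of a connected 2-regular pattern. -/
theorem rk_of_ssubset {m : ℕ} {U T : Finset (Edge (Fin m) (Fin m))} (hU : IsTwoRegular U)
    (hc : IsConn U) (hT : T ⊂ U) : rk T = T.card := by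
  induction T using Finset.strongInduction with
  | H T ih =>
    rcases T.eq_empty_or_nonempty with rfl | hne
    · rw [(rk_eq_zero_iff _).2 rfl, card_empty]
    · have hsub : T ⊆ U := hT.subset
      have hnd : ¬ (Disjoint (sA T) (sA (U \ T)) ∧ Disjoint (sB T) (sB (U \ T))) := by
        rintro ⟨hA, hB⟩
        exact hT.ne (hc T hsub hne hA hB)
      rw [not_and_or] at hnd
      rcases hnd with hA | hB
      · rw [Finset.not_disjoint_iff] at hA
        obtain ⟨a, ha1, ha2⟩ := hA
        obtain ⟨e, heT, hea⟩ := Conn.mem_sA.1 ha1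
        obtain ⟨e', he', hea'⟩ := Conn.mem_sA.1 ha2
        have h1 := Conn.notMem_sA_erase hU.1 hsub heT he' (hea'.trans hea.symm)
        have h2 := ih (T.erase e) (erase_ssubset heT)
          ((erase_ssubset heT).trans_subset hsub)
        have h3 := rk_insert_of_notMem_sA h1
        rw [insert_erase heT, h2, card_erase_of_mem heT] at h3
        have : 1 ≤ T.card := card_pos.2 hne
        omega
      · rw [Finset.not_disjoint_iff] at hB
        obtain ⟨a, ha1, ha2⟩ := hB
        obtain ⟨e, heT, hea⟩ := Conn.mem_sB.1 ha1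
        obtain ⟨e', he', hea'⟩ := Conn.mem_sB.1 ha2
        have h1 := Conn.notMem_sB_erase hU.2 hsub heT he' (hea'.trans hea.symm)
        have h2 := ih (T.erase e) (erase_ssubset heT)
          ((erase_ssubset heT).trans_subset hsub)
        have h3 := rk_insert_of_notMem_sB h1
        rw [insert_erase heT, h2, card_erase_of_mem heT] at h3
        have : 1 ≤ T.card := card_pos.2 hne
        omega

theorem Conn.card_eq_sum_A {m : ℕ} (U : Finset (Edge (Fin m) (Fin m))) :
    U.card = ∑ a : Fin m, (U.filter fun e => e.1.1 = a).card :=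
  card_eq_sum_card_fiberwise (s := U) (t := univ)
    (f := fun e : Edge (Fin m) (Fin m) => e.1.1) (fun _ _ => mem_coe.2 (mem_univ _))

theorem Conn.card_eq_sum_B {m : ℕ} (U : Finset (Edge (Fin m) (Fin m))) :
    U.card = ∑ b : Fin m, (U.filter fun e => e.2.1 = b).card :=
  card_eq_sum_card_fiberwise (s := U) (t := univ)
    (f := fun e : Edge (Fin m) (Fin m) => e.2.1) (fun _ _ => mem_coe.2 (mem_univ _))

theorem Conn.card_of_twoRegular {m : ℕ} {U : Finset (Edge (Fin m) (Fin m))} (hU : IsTwoRegular U) :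
    U.card = 2 * m := by
  rw [Conn.card_eq_sum_A, sum_congr rfl fun a _ => hU.1 a, sum_const, card_univ, Fintype.card_fin,
    smul_eq_mul, mul_comm]

/-- rank of a connected 2-regular pattern. -/
theorem rk_of_conn {m : ℕ} (hm : 1 ≤ m) {U : Finset (Edge (Fin m) (Fin m))}
    (hU : IsTwoRegular U) (hc : IsConn U) : rk U = 2 * m - 1 := by
  have : Nonempty (Fin m) := ⟨⟨0, hm⟩⟩
  have h1 := rk_lt U
  rw [Fintype.card_fin] at h1
  have h2 := Conn.card_of_twoRegular hU
  have h3 : U.Nonempty := card_pos.1 (by omega)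
  obtain ⟨e, he⟩ := h3
  have h4 := rk_of_ssubset hU hc (erase_ssubset he)
  have h5 := rk_mono (erase_subset e U)
  rw [h4, card_erase_of_mem he, h2] at h5
  omega

theorem psi_not_conn {m k : ℕ} {U : Finset (Edge (Fin m) (Fin m))} (hc : ¬ IsConn U) :
    psi ℝ rk k U = 0 := Conn.psi_not_conn_gen hc

theorem Conn.sum_eq_two {m : ℕ} {d : Fin m → ℕ} (h1 : ∀ a, 2 ≤ d a) (h2 : ∑ a, d a = 2 * m) (a : Fin m) :
    d a = 2 := by
  have h3 : ∑ a : Fin m, 2 = ∑ a, d a := by
    rw [h2, sum_const, card_univ, Fintype.card_fin, smul_eq_mul, mul_comm]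
  exact ((sum_eq_sum_iff_of_le (fun i _ => h1 i)).1 h3 a (mem_univ a)).symm

/-- full support, `2 m` edges, not two-regular: there is a pendant edge -/
theorem Conn.psi_not_twoRegular {m k : ℕ} (_hm : 1 ≤ m) {U : Finset (Edge (Fin m) (Fin m))}
    (hA : sA U = univ) (hB : sB U = univ) (hcard : U.card = 2 * m) (h : ¬ IsTwoRegular U) :
    psi ℝ rk k U = 0 := by
  unfold IsTwoRegular at h
  rw [not_and_or] at h
  rcases h with h | h
  · by_cases hd : ∀ a : Fin m, 2 ≤ (U.filter fun e => e.1.1 = a).card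
    · exact absurd (Conn.sum_eq_two hd ((Conn.card_eq_sum_A U).symm.trans hcard)) h
    · push Not at hd
      obtain ⟨a, ha⟩ := hd
      obtain ⟨e, he, hea⟩ := Conn.mem_sA.1 (hA ▸ mem_univ a : a ∈ sA U)
      apply Conn.psi_pendant_A he _ (by omega)
      intro hm'
      obtain ⟨f, hf, hfa⟩ := Conn.mem_sA.1 hm'
      obtain ⟨hfe, hfU⟩ := mem_erase.1 hf
      have hsub : ({e, f} : Finset (Edge (Fin m) (Fin m))) ⊆ U.filter fun e => e.1.1 = a := by
        intro x hx
        simp only [mem_insert, mem_singleton] at hx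
        rcases hx with rfl | rfl
        · exact mem_filter.2 ⟨he, hea⟩
        · exact mem_filter.2 ⟨hfU, hfa.trans hea⟩
      have hc := card_le_card hsub
      rw [card_pair (Ne.symm hfe)] at hc
      omega
  · by_cases hd : ∀ b : Fin m, 2 ≤ (U.filter fun e => e.2.1 = b).card
    · exact absurd (Conn.sum_eq_two hd ((Conn.card_eq_sum_B U).symm.trans hcard)) h
    · push Not at hd
      obtain ⟨a, ha⟩ := hd
      obtain ⟨e, he, hea⟩ := Conn.mem_sB.1 (hB ▸ mem_univ a : a ∈ sB U)
      apply Conn.psi_pendant_B he _ (by omega)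
      intro hm'
      obtain ⟨f, hf, hfa⟩ := Conn.mem_sB.1 hm'
      obtain ⟨hfe, hfU⟩ := mem_erase.1 hf
      have hsub : ({e, f} : Finset (Edge (Fin m) (Fin m))) ⊆ U.filter fun e => e.2.1 = a := by
        intro x hx
        simp only [mem_insert, mem_singleton] at hx
        rcases hx with rfl | rfl
        · exact mem_filter.2 ⟨he, hea⟩
        · exact mem_filter.2 ⟨hfU, hfa.trans hea⟩
      have hc := card_le_card hsub
      rw [card_pair (Ne.symm hfe)] at hc
      omega

theorem TT_eq_kap {m k : ℕ} (hm : 1 ≤ m) (hk : 1 ≤ k) :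
    TT k m m (2 * m) = (kap m : ℝ) *
      (- ((2 * m - 1 : ℕ) : ℝ) *
        ∑ j ∈ Icc 1 k, (-1) ^ (j + 1) * (k.choose (j * (2 * m - 1)) : ℝ)) := by
  classical
  unfold TT kap
  rw [← nsmul_eq_mul, ← sum_const, sum_filter]
  refine sum_congr rfl fun U _ => ?_
  by_cases hU : IsMatching U ∧ IsTwoRegular U ∧ IsConn U
  · obtain ⟨hM, h2, hc⟩ := hU
    have hcard := Conn.card_of_twoRegular h2
    have hA : sA U = univ := by
      ext a
      simp only [mem_univ, iff_true]
      have : (U.filter fun e => e.1.1 = a).Nonempty := card_pos.1 (by rw [h2.1 a]; norm_num)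
      obtain ⟨e, he⟩ := this
      obtain ⟨he1, he2⟩ := mem_filter.1 he
      exact Conn.mem_sA.2 ⟨e, he1, he2⟩
    have hB : sB U = univ := by
      ext a
      simp only [mem_univ, iff_true]
      have : (U.filter fun e => e.2.1 = a).Nonempty := card_pos.1 (by rw [h2.2 a]; norm_num)
      obtain ⟨e, he⟩ := this
      obtain ⟨he1, he2⟩ := mem_filter.1 he
      exact Conn.mem_sB.2 ⟨e, he1, he2⟩
    rw [if_pos ⟨hM, hA, hB, hcard⟩, if_pos ⟨hM, h2, hc⟩]
    have hodd : Odd (2 * m - 1) := ⟨m - 1, by omega⟩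
    exact psi_cycle rk_eq_zero_iff hodd (by omega) (rk_of_conn hm h2 hc)
      (fun T hT => rk_of_ssubset h2 hc hT) hk
  · rw [if_neg hU]
    split_ifs with h
    · obtain ⟨hM, hA, hB, hcard⟩ := h
      by_cases h2 : IsTwoRegular U
      · have hc : ¬ IsConn U := fun hc => hU ⟨hM, h2, hc⟩
        exact psi_not_conn hc
      · exact Conn.psi_not_twoRegular hm hA hB hcard h2
    · rfl

end conn

end MP6f9538
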