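import Pool.Agent.Lib.MP_6f9538_co.Chromatic

/-!
# Definitions for the disproof of the `K_{Δ,Δ}` conjecture at `Δ = 3`

* `wP F r S` : Whitney's rank polynomial `∑_{T ⊆ S} (-1)^|T| X^(r T)` as a power series;
* `wL F r S` : `- X * P' / P`, whose `k`-th coefficient is the `k`-th power sum of the roots;
* `psi F r k S` : Moebius transform of `S ↦ coeff k (wL F r S)`;
* `Edge α β` : pairs of half-edges; every vertex has the three half-edges `(v, 0), (v, 1), (v, 2)`;
* `rk U` : the rank (number of vertices minus number of components) of the bipartite multigraph `U`.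
-/

namespace MP6f9538

open Finset PowerSeries

/-- Whitney's rank polynomial in the variable `x = 1/q`, as a power series. -/
noncomputable def wP (F : Type*) [Field F] {ι : Type*} (r : Finset ι → ℕ)
    (S : Finset ι) : F⟦X⟧ :=
  ∑ T ∈ S.powerset, (-1) ^ T.card * X ^ r T

/-- Minus the logarithmic derivative of `wP`, times `X`. -/
noncomputable def wL (F : Type*) [Field F] {ι : Type*} (r : Finset ι → ℕ)
    (S : Finset ι) : F⟦X⟧ :=
  -(X * derivative F (wP F r S)) * (wP F r S)⁻¹

/-- The Moebius transform of the `k`-th power sum. -/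
noncomputable def psi (F : Type*) [Field F] {ι : Type*} [DecidableEq ι] (r : Finset ι → ℕ)
    (k : ℕ) (S : Finset ι) : F :=
  ∑ T ∈ S.powerset, (-1) ^ (S \ T).card * coeff k (wL F r T)

/-- An edge is a pair of half-edges. -/
abbrev Edge (α β : Type) := (α × Fin 3) × (β × Fin 3)

/-- The functions `V → 𝔽₂` that are constant along the edges of `U`. -/
def cst {α β : Type} (U : Finset (Edge α β)) : Submodule (ZMod 2) (α ⊕ β → ZMod 2) where
  carrier := {f | ∀ e ∈ U, f (Sum.inl e.1.1) = f (Sum.inr e.2.1)}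
  add_mem' := by
    intro f g hf hg e he
    simp only [Pi.add_apply, hf e he, hg e he]
  zero_mem' := by intro e _; rfl
  smul_mem' := by
    intro c f hf e he
    simp only [Pi.smul_apply, hf e he]

/-- The rank of the bipartite multigraph with edge set `U`. -/
noncomputable def rk {α β : Type} [Fintype α] [Fintype β] (U : Finset (Edge α β)) : ℕ :=
  Fintype.card α + Fintype.card β - Module.finrank (ZMod 2) (cst U)

/-- No half-edge is used twice. -/
def IsMatching {α β : Type} (U : Finset (Edge α β)) : Prop :=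
  (∀ e ∈ U, ∀ e' ∈ U, e.1 = e'.1 → e = e') ∧ (∀ e ∈ U, ∀ e' ∈ U, e.2 = e'.2 → e = e')

/-- The vertices of the first kind touched by `U`. -/
def sA {α β : Type} [DecidableEq α] (U : Finset (Edge α β)) : Finset α :=
  U.image fun e => e.1.1

/-- The vertices of the second kind touched by `U`. -/
def sB {α β : Type} [DecidableEq β] (U : Finset (Edge α β)) : Finset β :=
  U.image fun e => e.2.1

/-- The graph of a permutation of the half-edges, a set of `3 N` edges. -/
def gr {N : ℕ} (π : Equiv.Perm (Fin N × Fin 3)) : Finset (Edge (Fin N) (Fin N)) :=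
  univ.image fun h => (h, π h)

/-- Every vertex has exactly two edges of `U`. -/
def IsTwoRegular {α β : Type} [DecidableEq α] [DecidableEq β] (U : Finset (Edge α β)) : Prop :=
  (∀ a : α, (U.filter fun e => e.1.1 = a).card = 2) ∧
    (∀ b : β, (U.filter fun e => e.2.1 = b).card = 2)

/-- `U` does not split into two nonempty vertex-disjoint parts. -/
def IsConn {α β : Type} [DecidableEq α] [DecidableEq β] (U : Finset (Edge α β)) : Prop :=
  ∀ T ⊆ U, T.Nonempty → Disjoint (sA T) (sA (U \ T)) → Disjoint (sB T) (sB (U \ T)) → T = U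

/-- The sum of the weights of all the patterns with `a + b` vertices and `e` edges. -/
noncomputable def TT (k a b e : ℕ) : ℝ :=
  by
    classical
    exact ∑ U : Finset (Edge (Fin a) (Fin b)),
      if IsMatching U ∧ sA U = univ ∧ sB U = univ ∧ U.card = e then psi ℝ rk k U else 0

end MP6f9538

/-! The graph of a set of edges, the embedding of edges, the linear coefficient `AA`. -/

namespace MP6f9538

open Finset

/-- the embedding of edges induced by embeddings of the vertex sets. -/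
def edgeEmb {α β α' β' : Type} (f : α ↪ α') (g : β ↪ β') : Edge α β ↪ Edge α' β' :=
  (f.prodMap (Function.Embedding.refl (Fin 3))).prodMap
    (g.prodMap (Function.Embedding.refl (Fin 3)))

/-- the simple graph of a set of edges. -/
def toGraph {α β : Type} (U : Finset (Edge α β)) : SimpleGraph (α ⊕ β) where
  Adj x y := ∃ e ∈ U, (x = Sum.inl e.1.1 ∧ y = Sum.inr e.2.1) ∨
    (y = Sum.inl e.1.1 ∧ x = Sum.inr e.2.1)
  symm := ⟨by
    rintro x y ⟨e, he, h | h⟩
    · exact ⟨e, he, Or.inr h⟩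
    · exact ⟨e, he, Or.inl h⟩⟩
  loopless := ⟨by
    rintro x ⟨e, he, ⟨h1, h2⟩ | ⟨h1, h2⟩⟩ <;> simp [h1] at h2⟩

/-- the linear coefficient. -/
noncomputable def AA (k : ℕ) : ℝ :=
  ∑ m ∈ Icc 1 k, TT k m m (2 * m) / ((m.factorial : ℝ) ^ 2 * 9 ^ m)

end MP6f9538

/-! The number of connected two-regular matchings (shared definition). -/

namespace MP6f9538

open Finset

/-- the number of connected two-regular matchings. -/
noncomputable def kap (m : ℕ) : ℕ := by
  classical
  exact (univ.filter fun U : Finset (Edge (Fin m) (Fin m)) =>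
    IsMatching U ∧ IsTwoRegular U ∧ IsConn U).card

end MP6f9538

/-! The Moebius transform of the logarithmic derivative of Whitney's rank polynomial. -/

namespace MP6f9538

open Finset PowerSeries

section mob
variable {M : Type*} [AddCommGroup M] {ι : Type*} [DecidableEq ι]

/-- Moebius transform of a set function. -/
def mob (f : Finset ι → M) (S : Finset ι) : M :=
  ∑ T ∈ S.powerset, ((-1 : ℤ) ^ (S \ T).card) • f T

/-- alternating sum over an interval of the Boolean lattice. -/
theorem sum_interval_alt (U S : Finset ι) (h : U ⊆ S) :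
    ∑ T ∈ S.powerset.filter (fun T => U ⊆ T), ((-1 : ℤ) ^ (S \ T).card) =
      if U = S then 1 else 0 := by
  have key : ∑ T ∈ S.powerset.filter (fun T => U ⊆ T), ((-1 : ℤ) ^ (S \ T).card) =
      ∑ V ∈ (S \ U).powerset, ((-1 : ℤ) ^ V.card) := by
    refine Finset.sum_nbij' (fun T => S \ T) (fun V => S \ V) ?_ ?_ ?_ ?_ ?_
    · intro T hT
      simp only [mem_filter, mem_powerset] at hT
      rw [mem_powerset]
      exact sdiff_subset_sdiff (le_refl S) hT.2
    · intro V hV
      rw [mem_powerset] at hV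
      simp only [mem_filter, mem_powerset]
      refine ⟨sdiff_subset, ?_⟩
      intro x hx
      rw [mem_sdiff]
      refine ⟨h hx, fun hxV => ?_⟩
      exact (mem_sdiff.mp (hV hxV)).2 hx
    · intro T hT
      simp only [mem_filter, mem_powerset] at hT
      exact Finset.sdiff_sdiff_eq_self hT.1
    · intro V hV
      rw [mem_powerset] at hV
      exact Finset.sdiff_sdiff_eq_self (hV.trans sdiff_subset)
    · intro T _
      rfl
  rw [key]
  have h2 := Finset.sum_powerset_neg_one_pow_card (x := S \ U)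
  rw [h2]
  by_cases hU : U = S
  · subst hU; simp
  · rw [if_neg, if_neg hU]
    intro h3
    exact hU (Finset.Subset.antisymm h (Finset.sdiff_eq_empty_iff_subset.mp h3))

theorem sum_interval_alt' (U S : Finset ι) (h : U ⊆ S) :
    ∑ T ∈ S.powerset.filter (fun T => U ⊆ T), ((-1 : ℤ) ^ (T \ U).card) =
      if U = S then 1 else 0 := by
  have key : ∑ T ∈ S.powerset.filter (fun T => U ⊆ T), ((-1 : ℤ) ^ (T \ U).card) =
      ∑ V ∈ (S \ U).powerset, ((-1 : ℤ) ^ V.card) := by
    refine Finset.sum_nbij' (fun T => T \ U) (fun V => V ∪ U) ?_ ?_ ?_ ?_ ?_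
    · intro T hT
      simp only [mem_filter, mem_powerset] at hT
      rw [mem_powerset]
      exact sdiff_subset_sdiff hT.1 (le_refl U)
    · intro V hV
      rw [mem_powerset] at hV
      simp only [mem_filter, mem_powerset]
      exact ⟨union_subset (hV.trans sdiff_subset) h, subset_union_right⟩
    · intro T hT
      simp only [mem_filter, mem_powerset] at hT
      exact Finset.sdiff_union_of_subset hT.2
    · intro V hV
      rw [mem_powerset] at hV
      have hd : Disjoint V U := by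
        rw [Finset.disjoint_left]
        intro x hx
        exact (mem_sdiff.mp (hV hx)).2
      show (V ∪ U) \ U = V
      rw [Finset.union_sdiff_right]
      exact Finset.sdiff_eq_self_of_disjoint hd
    · intro T _
      rfl
  rw [key, Finset.sum_powerset_neg_one_pow_card (x := S \ U)]
  by_cases hU : U = S
  · subst hU; simp
  · rw [if_neg, if_neg hU]
    intro h3
    exact hU (Finset.Subset.antisymm h (Finset.sdiff_eq_empty_iff_subset.mp h3))

theorem sum_mob (f : Finset ι → M) (S : Finset ι) : ∑ T ∈ S.powerset, mob f T = f S := by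
  unfold mob
  rw [Finset.sum_comm' (t' := S.powerset)
    (s' := fun U => S.powerset.filter (fun T => U ⊆ T))]
  · calc ∑ U ∈ S.powerset, ∑ T ∈ S.powerset.filter (fun T => U ⊆ T),
          ((-1 : ℤ) ^ (T \ U).card) • f U
        = ∑ U ∈ S.powerset, (if U = S then (1 : ℤ) else 0) • f U := by
          refine Finset.sum_congr rfl fun U hU => ?_
          rw [← Finset.sum_smul, sum_interval_alt' U S (mem_powerset.mp hU)]
      _ = f S := by
          rw [Finset.sum_eq_single S]
          · simp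
          · intro b _ hb; simp [hb]
          · intro h; simp at h
  · intro T U
    simp only [mem_powerset, mem_filter]
    constructor
    · rintro ⟨h1, h2⟩; exact ⟨⟨h1, h2⟩, h2.trans h1⟩
    · rintro ⟨⟨h1, h2⟩, h3⟩; exact ⟨h1, h2⟩

theorem mob_eq_of_sum (f F : Finset ι → M) (h : ∀ S, f S = ∑ T ∈ S.powerset, F T)
    (S : Finset ι) : mob f S = F S := by
  unfold mob
  simp_rw [h, Finset.smul_sum]
  rw [Finset.sum_comm' (t' := S.powerset)
    (s' := fun U => S.powerset.filter (fun T => U ⊆ T))]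
  · calc ∑ U ∈ S.powerset, ∑ T ∈ S.powerset.filter (fun T => U ⊆ T),
          ((-1 : ℤ) ^ (S \ T).card) • F U
        = ∑ U ∈ S.powerset, (if U = S then (1 : ℤ) else 0) • F U := by
          refine Finset.sum_congr rfl fun U hU => ?_
          rw [← Finset.sum_smul, sum_interval_alt U S (mem_powerset.mp hU)]
      _ = F S := by
          rw [Finset.sum_eq_single S]
          · simp
          · intro b _ hb; simp [hb]
          · intro h; simp at h
  · intro T U
    simp only [mem_powerset, mem_filter]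
    constructor
    · rintro ⟨h1, h2⟩; exact ⟨⟨h1, h2⟩, h2.trans h1⟩
    · rintro ⟨⟨h1, h2⟩, h3⟩; exact ⟨h1, h2⟩

/-- the Moebius transform of an additive function vanishes. -/
theorem mob_union {f : Finset ι → M} {S₁ S₂ : Finset ι} (hd : Disjoint S₁ S₂)
    (h₁ : S₁.Nonempty) (h₂ : S₂.Nonempty)
    (hadd : ∀ T₁ ⊆ S₁, ∀ T₂ ⊆ S₂, f (T₁ ∪ T₂) = f T₁ + f T₂) :
    mob f (S₁ ∪ S₂) = 0 := by
  -- `F` is supported on the subsets of `S₁` or of `S₂`
  have hF : mob f (S₁ ∪ S₂) =
      mob (fun T => f (T ∩ S₁) + f (T ∩ S₂)) (S₁ ∪ S₂) := by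
    unfold mob
    refine Finset.sum_congr rfl fun T hT => ?_
    rw [mem_powerset] at hT
    congr 1
    show f T = f (T ∩ S₁) + f (T ∩ S₂)
    rw [← hadd _ inter_subset_right _ inter_subset_right, ← Finset.inter_union_distrib_left,
      Finset.inter_eq_left.mpr hT]
  rw [hF]
  have e1 : ∀ (A B : Finset ι), Disjoint A B → B.Nonempty → A ∪ B = S₁ ∪ S₂ →
      mob (fun T => f (T ∩ A)) (S₁ ∪ S₂) = 0 := by
    intro A B hAB hB hU
    rw [← hU]
    have := mob_eq_of_sum (fun T => f (T ∩ A)) (fun T => if T ⊆ A then mob f T else 0) ?_ (A ∪ B)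
    · rw [this, if_neg]
      intro h
      obtain ⟨x, hx⟩ := hB
      exact (Finset.disjoint_left.mp hAB) (h (mem_union_right _ hx)) hx
    · intro S
      rw [← Finset.sum_filter, ← sum_mob f (S ∩ A)]
      refine Finset.sum_congr ?_ fun _ _ => rfl
      ext T
      simp only [mem_powerset, mem_filter, Finset.subset_inter_iff]
  have e2 : mob (fun T => f (T ∩ S₁) + f (T ∩ S₂)) (S₁ ∪ S₂) =
      mob (fun T => f (T ∩ S₁)) (S₁ ∪ S₂) + mob (fun T => f (T ∩ S₂)) (S₁ ∪ S₂) := by
    unfold mob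
    rw [← Finset.sum_add_distrib]
    refine Finset.sum_congr rfl fun T _ => ?_
    rw [smul_add]
  rw [e2, e1 S₁ S₂ hd h₂ rfl, e1 S₂ S₁ hd.symm h₁ (union_comm _ _), add_zero]

theorem mob_empty (f : Finset ι → M) : mob f ∅ = f ∅ := by
  simp [mob]

theorem mob_singleton (f : Finset ι → M) (e : ι) : mob f {e} = f {e} - f ∅ := by
  have := sum_mob f {e}
  have h2 : ({e} : Finset ι).powerset = {∅, {e}} := by
    ext T; simp [Finset.subset_singleton_iff]
  rw [h2, Finset.sum_pair (by simp : (∅ : Finset ι) ≠ {e}), mob_empty] at this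
  rw [← this]; abel

end mob

section series
variable {F : Type*} [Field F] {ι : Type*} [DecidableEq ι]

/-- product formula for the Moebius transform. -/
theorem mob_mul {R : Type*} [CommRing R] (f g : Finset ι → R) (S : Finset ι) :
    mob (fun T => f T * g T) S =
      ∑ p ∈ (S.powerset ×ˢ S.powerset).filter (fun p => p.1 ∪ p.2 = S), mob f p.1 * mob g p.2 := by
  refine mob_eq_of_sum _ (fun S => ∑ p ∈ (S.powerset ×ˢ S.powerset).filter
    (fun p => p.1 ∪ p.2 = S), mob f p.1 * mob g p.2) ?_ S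
  intro S
  rw [← sum_mob f S, ← sum_mob g S, Finset.sum_mul_sum, ← Finset.sum_product']
  symm
  rw [← Finset.sum_biUnion]
  · refine Finset.sum_congr ?_ fun _ _ => rfl
    ext ⟨U, V⟩
    simp only [mem_biUnion, mem_powerset, mem_filter, mem_product]
    constructor
    · rintro ⟨T, hT, ⟨hU, hV⟩, h⟩
      exact ⟨hU.trans hT, hV.trans hT⟩
    · rintro ⟨hU, hV⟩
      exact ⟨U ∪ V, union_subset hU hV, ⟨subset_union_left, subset_union_right⟩, rfl⟩
  · intro T _ T' _ hne
    rw [Function.onFun, Finset.disjoint_left]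
    rintro ⟨U, V⟩ h1 h2
    simp only [mem_filter] at h1 h2
    exact hne (h1.2.symm.trans h2.2)

theorem psi_eq_coeff_mob (r : Finset ι → ℕ) (k : ℕ) (S : Finset ι) :
    psi F r k S = coeff k (mob (wL F r) S) := by
  unfold psi mob
  rw [map_sum]
  refine Finset.sum_congr rfl fun T _ => ?_
  rw [map_zsmul, zsmul_eq_mul]
  push_cast
  rfl

theorem sum_psi (r : Finset ι → ℕ) (k : ℕ) (S : Finset ι) :
    ∑ T ∈ S.powerset, psi F r k T = coeff k (wL F r S) := by
  simp_rw [psi_eq_coeff_mob]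
  rw [← map_sum, sum_mob]

theorem mob_wP (r : Finset ι → ℕ) (S : Finset ι) :
    mob (wP F r) S = (-1) ^ S.card * X ^ r S :=
  mob_eq_of_sum _ (fun S => (-1) ^ S.card * X ^ r S) (fun _ => rfl) S

omit [DecidableEq ι] in
theorem constCoeff_wP {r : Finset ι → ℕ} (h0 : ∀ T, r T = 0 ↔ T = ∅) (S : Finset ι) :
    constantCoeff (wP F r S) = 1 := by
  unfold wP
  rw [map_sum, Finset.sum_eq_single ∅]
  · rw [(h0 ∅).mpr rfl]; simp
  · intro T _ hT
    have h : r T ≠ 0 := fun h => hT ((h0 T).mp h)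
    simp [h]
  · intro h; simp at h

omit [DecidableEq ι] in
theorem X_mul_derivative_wP (r : Finset ι → ℕ) (S : Finset ι) :
    X * derivative F (wP F r S) =
      ∑ T ∈ S.powerset, (r T : F⟦X⟧) * ((-1) ^ T.card * X ^ r T) := by
  unfold wP
  rw [map_sum, Finset.mul_sum]
  refine Finset.sum_congr rfl fun T _ => ?_
  have e1 : ((-1 : F⟦X⟧)) ^ T.card = C ((-1 : F) ^ T.card) := by simp
  rw [e1, Derivation.leibniz, derivative_C, derivative_pow, derivative_X, smul_zero, add_zero,
    smul_eq_mul, mul_one]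
  rcases Nat.eq_zero_or_pos (r T) with h | h
  · rw [h]; simp
  · obtain ⟨n, hn⟩ : ∃ n, r T = n + 1 := ⟨r T - 1, by omega⟩
    rw [hn, Nat.add_sub_cancel]
    ring

omit [DecidableEq ι] in
theorem wP_mul_wL {r : Finset ι → ℕ} (h0 : ∀ T, r T = 0 ↔ T = ∅) (S : Finset ι) :
    wP F r S * wL F r S = -(X * derivative F (wP F r S)) := by
  unfold wL
  have h : wP F r S * (wP F r S)⁻¹ = 1 := PowerSeries.mul_inv_cancel _ (by
    rw [constCoeff_wP h0]; exact one_ne_zero)
  calc wP F r S * (-(X * derivative F (wP F r S)) * (wP F r S)⁻¹)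
      = -(X * derivative F (wP F r S)) * (wP F r S * (wP F r S)⁻¹) := by ring
    _ = _ := by rw [h, mul_one]

omit [DecidableEq ι] in
theorem inv_mul_wP {r : Finset ι → ℕ} (h0 : ∀ T, r T = 0 ↔ T = ∅) (S : Finset ι) :
    (wP F r S)⁻¹ * wP F r S = 1 :=
  PowerSeries.inv_mul_cancel _ (by rw [constCoeff_wP h0]; exact one_ne_zero)

theorem X_pow_dvd_mob_wL {r : Finset ι → ℕ} (h0 : ∀ T, r T = 0 ↔ T = ∅)
    (hsub : ∀ S T, r (S ∪ T) ≤ r S + r T) (S : Finset ι) :
    (X : F⟦X⟧) ^ r S ∣ mob (wL F r) S := by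
  induction S using Finset.strongInduction with
  | H S ih =>
    have h1 : mob (fun T => wP F r T * wL F r T) S =
        -((r S : F⟦X⟧) * ((-1) ^ S.card * X ^ r S)) := by
      refine mob_eq_of_sum _ (fun S => -((r S : F⟦X⟧) * ((-1) ^ S.card * X ^ r S))) ?_ S
      intro S
      rw [wP_mul_wL h0, X_mul_derivative_wP, Finset.sum_neg_distrib]
    rw [mob_mul] at h1
    have h2 : ∑ p ∈ (S.powerset ×ˢ S.powerset).filter (fun p => p.1 ∪ p.2 = S),
        mob (wP F r) p.1 * mob (wL F r) p.2 =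
        ∑ p ∈ ((S.powerset ×ˢ S.powerset).filter (fun p => p.1 ∪ p.2 = S)).filter
          (fun p => p.2 = S), mob (wP F r) p.1 * mob (wL F r) p.2 +
        ∑ p ∈ ((S.powerset ×ˢ S.powerset).filter (fun p => p.1 ∪ p.2 = S)).filter
          (fun p => ¬ p.2 = S), mob (wP F r) p.1 * mob (wL F r) p.2 :=
      (Finset.sum_filter_add_sum_filter_not _ _ _).symm
    have h3 : ∑ p ∈ ((S.powerset ×ˢ S.powerset).filter (fun p => p.1 ∪ p.2 = S)).filter
          (fun p => p.2 = S), mob (wP F r) p.1 * mob (wL F r) p.2 =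
        wP F r S * mob (wL F r) S := by
      rw [← sum_mob (wP F r) S, Finset.sum_mul]
      refine Finset.sum_nbij' (fun p => p.1) (fun U => (U, S)) ?_ ?_ ?_ ?_ ?_
      · rintro ⟨U, V⟩ h
        simp only [mem_filter, mem_product] at h
        exact h.1.1.1
      · intro U hU
        simp only [mem_filter, mem_product, mem_powerset] at hU ⊢
        exact ⟨⟨⟨hU, le_refl _⟩, union_eq_right.mpr hU⟩, trivial⟩
      · rintro ⟨U, V⟩ h
        simp only [mem_filter, mem_product] at h
        rw [h.2]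
      · intro U _; rfl
      · rintro ⟨U, V⟩ h
        simp only [mem_filter, mem_product] at h
        rw [h.2]
    have h4 : (X : F⟦X⟧) ^ r S ∣
        ∑ p ∈ ((S.powerset ×ˢ S.powerset).filter (fun p => p.1 ∪ p.2 = S)).filter
          (fun p => ¬ p.2 = S), mob (wP F r) p.1 * mob (wL F r) p.2 := by
      refine Finset.dvd_sum ?_
      rintro ⟨U, V⟩ h
      simp only [mem_filter, mem_product, mem_powerset] at h
      obtain ⟨⟨⟨hU, hV⟩, hUV⟩, hne⟩ := h
      have h5 := ih V (Finset.ssubset_iff_subset_ne.mpr ⟨hV, hne⟩)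
      have h6 : r S ≤ r U + r V := by rw [← hUV]; exact hsub U V
      refine (pow_dvd_pow X h6).trans ?_
      rw [pow_add]
      refine mul_dvd_mul ?_ h5
      rw [mob_wP]
      exact Dvd.intro_left _ rfl
    have h7 : (X : F⟦X⟧) ^ r S ∣ wP F r S * mob (wL F r) S := by
      have h8 : wP F r S * mob (wL F r) S = -((r S : F⟦X⟧) * ((-1) ^ S.card * X ^ r S)) -
          ∑ p ∈ ((S.powerset ×ˢ S.powerset).filter (fun p => p.1 ∪ p.2 = S)).filter
          (fun p => ¬ p.2 = S), mob (wP F r) p.1 * mob (wL F r) p.2 := by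
        rw [← h3, ← h1, h2]; ring
      rw [h8]
      refine dvd_sub ?_ h4
      rw [dvd_neg, ← mul_assoc]
      exact Dvd.intro_left _ rfl
    have h9 : mob (wL F r) S = (wP F r S)⁻¹ * (wP F r S * mob (wL F r) S) := by
      rw [← mul_assoc, inv_mul_wP h0, one_mul]
    rw [h9]
    exact h7.mul_left _

theorem psi_eq_zero_of_lt {r : Finset ι → ℕ} (h0 : ∀ T, r T = 0 ↔ T = ∅)
    (hsub : ∀ S T, r (S ∪ T) ≤ r S + r T) {k : ℕ} {S : Finset ι} (h : k < r S) :
    psi F r k S = 0 := by
  rw [psi_eq_coeff_mob]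
  exact (PowerSeries.X_pow_dvd_iff.mp (X_pow_dvd_mob_wL h0 hsub S)) k h

/-- multiplicativity of Whitney's polynomial. -/
theorem wP_union {r : Finset ι → ℕ} {S₁ S₂ : Finset ι} (hd : Disjoint S₁ S₂)
    (hadd : ∀ T₁ ⊆ S₁, ∀ T₂ ⊆ S₂, r (T₁ ∪ T₂) = r T₁ + r T₂) :
    wP F r (S₁ ∪ S₂) = wP F r S₁ * wP F r S₂ := by
  unfold wP
  rw [Finset.sum_mul_sum, ← Finset.sum_product']
  refine Finset.sum_nbij' (fun T => (T ∩ S₁, T ∩ S₂)) (fun p => p.1 ∪ p.2) ?_ ?_ ?_ ?_ ?_
  · intro T _
    simp only [mem_product, mem_powerset]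
    exact ⟨inter_subset_right, inter_subset_right⟩
  · rintro ⟨U, V⟩ h
    simp only [mem_product, mem_powerset] at h ⊢
    exact union_subset_union h.1 h.2
  · intro T hT
    rw [mem_powerset] at hT
    show T ∩ S₁ ∪ T ∩ S₂ = T
    rw [← Finset.inter_union_distrib_left, Finset.inter_eq_left.mpr hT]
  · rintro ⟨U, V⟩ h
    simp only [mem_product, mem_powerset] at h
    have hUV : Disjoint V S₁ := (Finset.disjoint_of_subset_left h.2 hd.symm)
    have hVU : Disjoint U S₂ := (Finset.disjoint_of_subset_left h.1 hd)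
    show ((U ∪ V) ∩ S₁, (U ∪ V) ∩ S₂) = (U, V)
    rw [Finset.union_inter_distrib_right, Finset.union_inter_distrib_right,
      Finset.disjoint_iff_inter_eq_empty.mp hUV, Finset.disjoint_iff_inter_eq_empty.mp hVU,
      Finset.inter_eq_left.mpr h.1, Finset.inter_eq_left.mpr h.2, union_empty, empty_union]
  · intro T hT
    rw [mem_powerset] at hT
    have e1 : T = (T ∩ S₁) ∪ (T ∩ S₂) := by
      rw [← Finset.inter_union_distrib_left, Finset.inter_eq_left.mpr hT]
    have e2 : Disjoint (T ∩ S₁) (T ∩ S₂) :=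
      Finset.disjoint_of_subset_left inter_subset_right
        (Finset.disjoint_of_subset_right inter_subset_right hd)
    have e3 : r T = r (T ∩ S₁) + r (T ∩ S₂) := by
      conv_lhs => rw [e1]
      exact hadd _ inter_subset_right _ inter_subset_right
    have e4 : T.card = (T ∩ S₁).card + (T ∩ S₂).card := by
      conv_lhs => rw [e1]
      exact Finset.card_union_of_disjoint e2
    rw [e3, e4]
    ring

theorem wL_union {r : Finset ι → ℕ} (h0 : ∀ T, r T = 0 ↔ T = ∅) {S₁ S₂ : Finset ι}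
    (hd : Disjoint S₁ S₂)
    (hadd : ∀ T₁ ⊆ S₁, ∀ T₂ ⊆ S₂, r (T₁ ∪ T₂) = r T₁ + r T₂) :
    wL F r (S₁ ∪ S₂) = wL F r S₁ + wL F r S₂ := by
  have e1 := wP_mul_wL (F := F) h0 (S₁ ∪ S₂)
  have e2 := wP_mul_wL (F := F) h0 S₁
  have e3 := wP_mul_wL (F := F) h0 S₂
  rw [wP_union hd hadd, Derivation.leibniz, smul_eq_mul, smul_eq_mul] at e1
  have i1 := inv_mul_wP (F := F) h0 S₁
  have i2 := inv_mul_wP (F := F) h0 S₂
  have key : wP F r S₁ * wP F r S₂ * wL F r (S₁ ∪ S₂) =
      wP F r S₁ * wP F r S₂ * (wL F r S₁ + wL F r S₂) := by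
    rw [e1]
    linear_combination -(wP F r S₂) * e2 - (wP F r S₁) * e3
  calc wL F r (S₁ ∪ S₂)
      = (wP F r S₁)⁻¹ * (wP F r S₂)⁻¹ * (wP F r S₁ * wP F r S₂ * wL F r (S₁ ∪ S₂)) := by
        linear_combination -(wL F r (S₁ ∪ S₂)) * i1 -
          ((wP F r S₁)⁻¹ * wP F r S₁) * (wL F r (S₁ ∪ S₂)) * i2
    _ = (wP F r S₁)⁻¹ * (wP F r S₂)⁻¹ * (wP F r S₁ * wP F r S₂ * (wL F r S₁ + wL F r S₂)) := by
        rw [key]
    _ = wL F r S₁ + wL F r S₂ := by
        linear_combination (wL F r S₁ + wL F r S₂) * i1 +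
          ((wP F r S₁)⁻¹ * wP F r S₁) * (wL F r S₁ + wL F r S₂) * i2

theorem psi_union {r : Finset ι → ℕ} (h0 : ∀ T, r T = 0 ↔ T = ∅) {S₁ S₂ : Finset ι}
    (hd : Disjoint S₁ S₂)
    (h₁ : S₁.Nonempty) (h₂ : S₂.Nonempty)
    (hadd : ∀ T₁ ⊆ S₁, ∀ T₂ ⊆ S₂, r (T₁ ∪ T₂) = r T₁ + r T₂) (k : ℕ) :
    psi F r k (S₁ ∪ S₂) = 0 := by
  rw [psi_eq_coeff_mob, mob_union hd h₁ h₂, map_zero]
  intro T₁ hT₁ T₂ hT₂
  refine wL_union h0 (Finset.disjoint_of_subset_left hT₁ (Finset.disjoint_of_subset_right hT₂ hd)) ?_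
  intro U₁ hU₁ U₂ hU₂
  exact hadd _ (hU₁.trans hT₁) _ (hU₂.trans hT₂)

omit [DecidableEq ι] in
theorem wL_empty {r : Finset ι → ℕ} (h0 : r ∅ = 0) : wL F r ∅ = 0 := by
  have h : wP F r ∅ = 1 := by simp [wP, h0]
  simp only [wL, h]
  rw [show derivative F (1 : F⟦X⟧) = 0 from derivative_one]
  simp

theorem psi_empty {r : Finset ι → ℕ} (h0 : r ∅ = 0) (k : ℕ) : psi F r k ∅ = 0 := by
  rw [psi_eq_coeff_mob, mob_empty, wL_empty h0, map_zero]

theorem wP_singleton {r : Finset ι → ℕ} (h0 : r ∅ = 0) {e : ι} (h1 : r {e} = 1) :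
    wP F r {e} = 1 - X := by
  have h2 : ({e} : Finset ι).powerset = {∅, {e}} := by
    ext T; simp [Finset.subset_singleton_iff]
  unfold wP
  rw [h2, Finset.sum_pair (by simp : (∅ : Finset ι) ≠ {e}), h0, h1]
  simp
  ring

theorem wL_singleton {r : Finset ι → ℕ} (h0 : r ∅ = 0) {e : ι} (h1 : r {e} = 1) :
    wL F r {e} = X * (1 - X)⁻¹ := by
  have hd : derivative F (1 - X : F⟦X⟧) = -1 := by
    rw [map_sub, derivative_X, show derivative F (1 : F⟦X⟧) = 0 from derivative_one]; ring
  simp only [wL, wP_singleton h0 h1, hd]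
  ring

theorem coeff_X_mul_inv_one_sub_X {k : ℕ} (hk : 1 ≤ k) :
    coeff k (X * (1 - X : F⟦X⟧)⁻¹) = 1 := by
  obtain ⟨n, rfl⟩ : ∃ n, k = n + 1 := ⟨k - 1, by omega⟩
  rw [mul_comm, coeff_succ_mul_X]
  have h : (1 - X : F⟦X⟧)⁻¹ = PowerSeries.mk 1 := by
    rw [eq_comm, PowerSeries.eq_inv_iff_mul_eq_one (by simp)]
    exact PowerSeries.mk_one_mul_one_sub_eq_one F
  rw [h, coeff_mk]
  rfl

theorem psi_singleton {r : Finset ι → ℕ} (h0 : r ∅ = 0) {e : ι} (h1 : r {e} = 1) {k : ℕ}
    (hk : 1 ≤ k) : psi F r k {e} = 1 := by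
  rw [psi_eq_coeff_mob, mob_singleton, wL_empty h0, sub_zero, wL_singleton h0 h1,
    coeff_X_mul_inv_one_sub_X hk]

theorem wP_map {κ : Type*} (f : ι ↪ κ) (r : Finset ι → ℕ) (r' : Finset κ → ℕ)
    (hr : ∀ T : Finset ι, r' (T.map f) = r T) (S : Finset ι) :
    wP F r' (S.map f) = wP F r S := by
  classical
  unfold wP
  symm
  refine Finset.sum_bij (fun T _ => T.map f) ?_ ?_ ?_ ?_
  · intro T hT
    rw [mem_powerset] at hT ⊢
    exact Finset.map_subset_map.mpr hT
  · intro T _ T' _ h
    exact Finset.map_injective f h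
  · intro T hT
    rw [mem_powerset] at hT
    obtain ⟨U, hU, rfl⟩ := Finset.subset_map_iff.mp hT
    exact ⟨U, mem_powerset.mpr hU, rfl⟩
  · intro T _
    rw [hr, Finset.card_map]

theorem psi_map {κ : Type*} [DecidableEq κ] (f : ι ↪ κ) (r : Finset ι → ℕ) (r' : Finset κ → ℕ)
    (hr : ∀ T : Finset ι, r' (T.map f) = r T) (k : ℕ) (S : Finset ι) :
    psi F r' k (S.map f) = psi F r k S := by
  unfold psi
  symm
  refine Finset.sum_bij (fun T _ => T.map f) ?_ ?_ ?_ ?_
  · intro T hT
    rw [mem_powerset] at hT ⊢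
    exact Finset.map_subset_map.mpr hT
  · intro T _ T' _ h
    exact Finset.map_injective f h
  · intro T hT
    rw [mem_powerset] at hT
    obtain ⟨U, hU, rfl⟩ := Finset.subset_map_iff.mp hT
    exact ⟨U, mem_powerset.mpr hU, rfl⟩
  · intro T _
    rw [← Finset.map_sdiff, Finset.card_map]
    simp only [wL, wP_map f r r' hr]

end series

end MP6f9538

/-!
# The weight of a cycle
-/

namespace MP6f9538

open Finset PowerSeries

section PsiCycle
variable {F : Type*} [Field F] {ι : Type*} [DecidableEq ι]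

/-- the geometric series. -/
noncomputable def geo (F : Type*) [Field F] : F⟦X⟧ := mk 1

theorem geo_mul : geo F * (1 - X) = 1 := mk_one_mul_one_sub_eq_one F

theorem constantCoeff_geo : constantCoeff (geo F) = 1 := by
  simp [geo]

theorem derivative_geo : derivative F (geo F) = geo F ^ 2 := by
  have h1 := congrArg (derivative F) (geo_mul (F := F))
  rw [Derivation.leibniz] at h1
  simp only [map_sub, derivative_X, derivative_one, smul_eq_mul] at h1
  have h2 := geo_mul (F := F)
  linear_combination geo F * h1 - (derivative F (geo F)) * h2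

theorem derivative_X_mul_geo : derivative F (X * geo F) = geo F ^ 2 := by
  rw [Derivation.leibniz, derivative_geo, derivative_X, smul_eq_mul, smul_eq_mul]
  have h2 := geo_mul (F := F)
  linear_combination -geo F * h2

theorem coeff_X_pow_mul_geo_pow (k m : ℕ) :
    coeff k (X ^ m * geo F ^ (m + 1)) = (k.choose m : F) := by
  rw [coeff_X_pow_mul']
  split_ifs with h
  · rw [geo, mk_one_pow_eq_mk_choose_add, coeff_mk]
    congr 2
    omega
  · rw [Nat.choose_eq_zero_of_lt (by omega)]
    simp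

/-- the finite expansion. -/
theorem finite_geom (Y : F⟦X⟧) (k : ℕ) :
    (1 + Y) * ∑ j ∈ Icc 1 k, (-1) ^ (j + 1) * Y ^ j = Y + (-1) ^ (k + 1) * Y ^ (k + 1) := by
  induction k with
  | zero => simp
  | succ k ih =>
    rw [Finset.sum_Icc_succ_top (by omega), mul_add, ih]
    ring

theorem wP_cycle {r : Finset ι → ℕ} {S : Finset ι} {s : ℕ} (hs : Odd s)
    (hS : S.card = s + 1) (hr : r S = s) (hind : ∀ T ⊂ S, r T = T.card) :
    wP F r S = (1 - X) ^ (s + 1) + X ^ s * (1 - X) := by
  have h1 : (1 - X : F⟦X⟧) ^ (s + 1) = ∑ T ∈ S.powerset, (-1) ^ T.card * X ^ T.card := by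
    rw [← hS]
    have := Finset.prod_add (fun _ => (-X : F⟦X⟧)) (fun _ => (1 : F⟦X⟧)) S
    rw [Finset.prod_const] at this
    rw [sub_eq_neg_add, this]
    refine Finset.sum_congr rfl fun T _ => ?_
    rw [Finset.prod_const, Finset.prod_const, one_pow, mul_one, neg_pow]
  have hmem : S ∈ S.powerset := Finset.mem_powerset_self S
  have h2 : (-1 : F⟦X⟧) ^ (s + 1) = 1 := (hs.add_one).neg_one_pow
  rw [wP, h1, ← Finset.add_sum_erase _ _ hmem, ← Finset.add_sum_erase _ _ hmem, hr, hS, h2]
  have h3 : ∑ x ∈ S.powerset.erase S, (-1 : F⟦X⟧) ^ x.card * X ^ r x =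
      ∑ x ∈ S.powerset.erase S, (-1 : F⟦X⟧) ^ x.card * X ^ x.card := by
    refine Finset.sum_congr rfl fun T hT => ?_
    rw [Finset.mem_erase, Finset.mem_powerset] at hT
    rw [hind T (lt_of_le_of_ne hT.2 hT.1)]
  rw [h3]
  ring

theorem wL_cycle {r : Finset ι → ℕ} {S : Finset ι} {s : ℕ} (hs : Odd s)
    (hS : S.card = s + 1) (hr : r S = s) (hind : ∀ T ⊂ S, r T = T.card) :
    wL F r S = (s + 1 : F⟦X⟧) * (X * geo F) -
      (s : F⟦X⟧) * ((X * geo F) ^ s * geo F) * (1 + (X * geo F) ^ s)⁻¹ := by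
  set Y : F⟦X⟧ := X * geo F with hY
  have hg := geo_mul (F := F)
  have hs0 : s ≠ 0 := by
    rintro rfl
    simp at hs
  have hYc : constantCoeff Y = 0 := by simp [hY]
  have hDc : constantCoeff (1 + Y ^ s) ≠ 0 := by
    rw [map_add, map_pow, hYc, zero_pow hs0]
    simp
  have hD := PowerSeries.mul_inv_cancel (1 + Y ^ s) hDc
  have hP : wP F r S = (1 - X) ^ (s + 1) * (1 + Y ^ s) := by
    rw [wP_cycle hs hS hr hind]
    have h1 : (1 - X : F⟦X⟧) ^ s * Y ^ s = X ^ s := by
      rw [← mul_pow, hY]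
      congr 1
      linear_combination X * hg
    linear_combination -(1 - X) * h1
  have hPc : constantCoeff (wP F r S) ≠ 0 := by
    rw [hP, map_mul, map_pow]
    simp only [map_sub, map_one, constantCoeff_X, sub_zero, one_pow, one_mul]
    exact hDc
  have hPi := PowerSeries.mul_inv_cancel (wP F r S) hPc
  obtain ⟨t, rfl⟩ := Nat.exists_eq_succ_of_ne_zero hs0
  have hd : derivative F (wP F r S) = -((t.succ : F⟦X⟧) + 1) * (1 - X) ^ (t + 1) * (1 + Y ^ t.succ)
      + (1 - X) ^ (t + 2) * ((t.succ : F⟦X⟧) * Y ^ t * geo F ^ 2) := by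
    rw [hP, Derivation.leibniz, derivative_pow, map_add, derivative_pow, hY, derivative_X_mul_geo,
      ← hY, derivative_one]
    simp only [map_sub, derivative_X, derivative_one, smul_eq_mul, Nat.succ_eq_add_one,
      Nat.add_sub_cancel]
    push_cast
    ring
  have key : -(X * derivative F (wP F r S)) =
      wP F r S * ((t.succ + 1 : F⟦X⟧) * Y -
        (t.succ : F⟦X⟧) * (Y ^ t.succ * geo F) * (1 + Y ^ t.succ)⁻¹) := by
    rw [hd, hP, mul_sub]
    have h1 : (1 - X : F⟦X⟧) ^ (t.succ + 1) * (1 + Y ^ t.succ) *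
        ((t.succ : F⟦X⟧) * (Y ^ t.succ * geo F) * (1 + Y ^ t.succ)⁻¹) =
        (1 - X : F⟦X⟧) ^ (t.succ + 1) * ((t.succ : F⟦X⟧) * (Y ^ t.succ * geo F)) := by
      linear_combination (1 - X : F⟦X⟧) ^ (t.succ + 1) *
        ((t.succ : F⟦X⟧) * (Y ^ t.succ * geo F)) * hD
    rw [h1]
    have h2 : (1 - X : F⟦X⟧) * Y = X := by
      rw [hY]
      linear_combination X * hg
    have h3 : Y ^ t.succ * geo F = X * Y ^ t * geo F ^ 2 := by
      rw [pow_succ]
      nth_rw 2 [hY]
      ring
    rw [h3]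
    have h4 : (1 - X : F⟦X⟧) ^ (t.succ + 1) = (1 - X) ^ (t + 1) * (1 - X) := by
      rw [Nat.succ_eq_add_one, pow_succ]
    rw [h4]
    linear_combination -((t.succ : F⟦X⟧) + 1) * (1 - X : F⟦X⟧) ^ (t + 1) * (1 + Y ^ t.succ) * h2
  rw [wL, key, mul_comm (wP F r S), mul_assoc, hPi, mul_one]

theorem coeff_wL_cycle {r : Finset ι → ℕ} {S : Finset ι} {s : ℕ} (hs : Odd s)
    (hS : S.card = s + 1) (hr : r S = s) (hind : ∀ T ⊂ S, r T = T.card) {k : ℕ} (hk : 1 ≤ k) :
    coeff k (wL F r S) = (s + 1 : F) -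
      (s : F) * ∑ j ∈ Icc 1 k, (-1) ^ (j + 1) * (k.choose (j * s) : F) := by
  set Y : F⟦X⟧ := X * geo F with hY
  have hs0 : s ≠ 0 := by
    rintro rfl
    simp at hs
  have hYc : constantCoeff Y = 0 := by simp [hY]
  have hDc : constantCoeff (1 + Y ^ s) ≠ 0 := by
    rw [map_add, map_pow, hYc, zero_pow hs0]
    simp
  have hD := PowerSeries.mul_inv_cancel (1 + Y ^ s) hDc
  have h1 : (Y ^ s * geo F) * (1 + Y ^ s)⁻¹ =
      (∑ j ∈ Icc 1 k, (-1) ^ (j + 1) * (Y ^ s) ^ j) * geo F -
      X ^ (s * (k + 1)) * (geo F ^ (s * (k + 1)) * (-1) ^ (k + 1) * geo F * (1 + Y ^ s)⁻¹) := by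
    have h2 := finite_geom (Y ^ s) k
    have h3 : (Y ^ s) ^ (k + 1) = X ^ (s * (k + 1)) * geo F ^ (s * (k + 1)) := by
      rw [← pow_mul, hY, mul_pow]
    rw [h3] at h2
    linear_combination -(geo F * (1 + Y ^ s)⁻¹) * h2 +
      (∑ j ∈ Icc 1 k, (-1) ^ (j + 1) * (Y ^ s) ^ j) * geo F * hD
  have h4 : coeff k ((Y ^ s * geo F) * (1 + Y ^ s)⁻¹) =
      ∑ j ∈ Icc 1 k, (-1) ^ (j + 1) * (k.choose (j * s) : F) := by
    rw [h1, map_sub, coeff_X_pow_mul', if_neg, sub_zero, Finset.sum_mul, map_sum]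
    · refine Finset.sum_congr rfl fun j _ => ?_
      have h5 : (-1 : F⟦X⟧) ^ (j + 1) * (Y ^ s) ^ j * geo F =
          C ((-1) ^ (j + 1)) * (X ^ (j * s) * geo F ^ (j * s + 1)) := by
        rw [← pow_mul, hY, mul_pow]
        simp only [map_pow, map_neg, map_one]
        rw [mul_comm s j]
        ring
      rw [h5, coeff_C_mul, coeff_X_pow_mul_geo_pow]
    · have : k + 1 ≤ s * (k + 1) := Nat.le_mul_of_pos_left _ (Nat.pos_of_ne_zero hs0)
      omega
  rw [wL_cycle hs hS hr hind, map_sub]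
  have h6 : (s : F⟦X⟧) * (Y ^ s * geo F) * (1 + Y ^ s)⁻¹ =
      C (s : F) * ((Y ^ s * geo F) * (1 + Y ^ s)⁻¹) := by
    rw [map_natCast]
    ring
  have h7 : (s + 1 : F⟦X⟧) * Y = C (s + 1 : F) * Y := by
    simp
  rw [h6, h7, coeff_C_mul, coeff_C_mul, h4]
  congr 1
  obtain ⟨k', rfl⟩ := Nat.exists_eq_succ_of_ne_zero (by omega : k ≠ 0)
  rw [hY, Nat.succ_eq_add_one, coeff_succ_X_mul, geo, coeff_mk]
  simp

/-- The weight of a cycle of even length `s + 1`. -/
theorem psi_cycle {r : Finset ι → ℕ} (h0 : ∀ T, r T = 0 ↔ T = ∅) {S : Finset ι} {s : ℕ}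
    (hs : Odd s)
    (hS : S.card = s + 1) (hr : r S = s) (hind : ∀ T ⊂ S, r T = T.card) {k : ℕ} (hk : 1 ≤ k) :
    psi F r k S = - (s : F) * ∑ j ∈ Icc 1 k, (-1) ^ (j + 1) * (k.choose (j * s) : F) := by
  have h1 := sum_psi (F := F) r k S
  rw [coeff_wL_cycle hs hS hr hind hk, ← Finset.add_sum_erase _ _ (Finset.mem_powerset_self S)]
    at h1
  have h2 : ∑ T ∈ S.powerset.erase S, psi F r k T = (s + 1 : F) := by
    have h3 : ∀ T ∈ S.powerset.erase S, psi F r k T = if T.card = 1 then 1 else 0 := by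
      intro T hT
      rw [Finset.mem_erase, Finset.mem_powerset] at hT
      have hTS : T ⊂ S := lt_of_le_of_ne hT.2 hT.1
      split_ifs with hc
      · obtain ⟨e, rfl⟩ := Finset.card_eq_one.1 hc
        refine psi_singleton ((h0 ∅).2 rfl) ?_ hk
        rw [hind _ hTS, Finset.card_singleton]
      · rcases T.eq_empty_or_nonempty with rfl | ⟨e, he⟩
        · exact psi_empty ((h0 ∅).2 rfl) k
        · have h4 : T = {e} ∪ T.erase e := by
            rw [← Finset.insert_eq, Finset.insert_erase he]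
          have h5 : Disjoint {e} (T.erase e) := by
            rw [Finset.disjoint_singleton_left]
            exact Finset.notMem_erase e T
          rw [h4]
          refine psi_union h0 h5 (Finset.singleton_nonempty e) ?_ ?_ k
          · rw [← Finset.card_pos, Finset.card_erase_of_mem he]
            have : 0 < T.card := Finset.card_pos.2 ⟨e, he⟩
            omega
          · intro T₁ hT₁ T₂ hT₂
            have h6 : T₁ ∪ T₂ ⊆ T := by
              rw [h4]
              exact Finset.union_subset_union hT₁ hT₂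
            rw [hind _ (lt_of_le_of_lt h6 hTS),
              hind _ (lt_of_le_of_lt (Finset.subset_union_left.trans h6) hTS),
              hind _ (lt_of_le_of_lt (Finset.subset_union_right.trans h6) hTS),
              Finset.card_union_of_disjoint (Finset.disjoint_of_subset_left hT₁
                (Finset.disjoint_of_subset_right hT₂ h5))]
    rw [Finset.sum_congr rfl h3, Finset.sum_boole]
    have h4 : (S.powerset.erase S).filter (fun T => T.card = 1) = S.powersetCard 1 := by
      ext T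
      simp only [Finset.mem_filter, Finset.mem_erase, Finset.mem_powerset,
        Finset.mem_powersetCard]
      constructor
      · rintro ⟨⟨_, h⟩, h'⟩
        exact ⟨h, h'⟩
      · rintro ⟨h, h'⟩
        refine ⟨⟨?_, h⟩, h'⟩
        rintro rfl
        have : s ≠ 0 := by
          rintro rfl
          simp at hs
        omega
    rw [h4, Finset.card_powersetCard, hS]
    simp
  rw [h2] at h1
  linear_combination h1

end PsiCycle

end MP6f9538

/-!
# The coefficients of `wL` are the power sums of the roots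
-/

namespace MP6f9538

open Finset PowerSeries

section Roots

/-- the product of `1 - z X` over a multiset. -/
noncomputable def prodOneSub (s : Multiset ℂ) : ℂ⟦X⟧ :=
  (s.map fun z => (1 - C z * X : ℂ⟦X⟧)).prod

/-- the generating function of the power sums (without the constant term). -/
noncomputable def powerSumGen (s : Multiset ℂ) : ℂ⟦X⟧ :=
  mk fun k => if k = 0 then 0 else (s.map (· ^ k)).sum

theorem powerSumGen_cons (z : ℂ) (s : Multiset ℂ) :
    powerSumGen (z ::ₘ s) = (mk fun k => if k = 0 then 0 else z ^ k) + powerSumGen s := by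
  ext k
  rcases eq_or_ne k 0 with h | h <;> simp [powerSumGen, h]

theorem one_sub_mul_geom (z : ℂ) :
    (1 - C z * X : ℂ⟦X⟧) * (mk fun k => if k = 0 then 0 else z ^ k) = C z * X := by
  ext k
  rw [sub_mul, one_mul, mul_assoc, map_sub, coeff_C_mul, coeff_C_mul, coeff_mk]
  rcases k with _ | k
  · simp
  · rw [coeff_succ_X_mul, coeff_mk, coeff_X]
    rcases k with _ | k
    · simp
    · simp [pow_succ]
      ring

theorem neg_X_mul_derivative_prodOneSub (s : Multiset ℂ) :
    -(X * derivative ℂ (prodOneSub s)) = prodOneSub s * powerSumGen s := by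
  induction s using Multiset.induction_on with
  | empty =>
    have h1 : prodOneSub 0 = 1 := by simp [prodOneSub]
    have h2 : powerSumGen 0 = 0 := by
      ext k
      simp [powerSumGen]
    rw [h1, h2]
    simp
  | cons z s ih =>
    have h1 : prodOneSub (z ::ₘ s) = (1 - C z * X) * prodOneSub s := by simp [prodOneSub]
    have h2 : derivative ℂ ((1 - C z * X : ℂ⟦X⟧)) = - C z := by
      rw [map_sub, Derivation.leibniz]
      simp
    have h3 : derivative ℂ (prodOneSub (z ::ₘ s)) =
        (1 - C z * X) * derivative ℂ (prodOneSub s) + prodOneSub s * (- C z) := by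
      rw [h1, Derivation.leibniz, h2]
      simp [smul_eq_mul]
    rw [h3, powerSumGen_cons, h1]
    have h4 := one_sub_mul_geom z
    linear_combination (1 - C z * X) * ih - prodOneSub s * h4

theorem constantCoeff_prodOneSub (s : Multiset ℂ) : constantCoeff (prodOneSub s) = 1 := by
  rw [prodOneSub, map_multiset_prod, Multiset.map_map]
  apply Multiset.prod_eq_one
  intro x hx
  rw [Multiset.mem_map] at hx
  obtain ⟨z, _, rfl⟩ := hx
  simp

theorem reverse_X_sub_C' (z : ℂ) :
    (Polynomial.X - Polynomial.C z).reverse = 1 - Polynomial.C z * Polynomial.X := by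
  rw [Polynomial.reverse, Polynomial.natDegree_X_sub_C, Polynomial.reflect_sub,
    Polynomial.reflect_C, pow_one]
  congr 1
  have := Polynomial.reflect_monomial (R := ℂ) 1 1
  rw [pow_one] at this
  rw [this, Polynomial.revAt_le le_rfl]
  simp

theorem reverse_prod_X_sub_C (s : Multiset ℂ) :
    (s.map fun z => Polynomial.X - Polynomial.C z).prod.reverse =
      (s.map fun z => 1 - Polynomial.C z * Polynomial.X).prod := by
  induction s using Multiset.induction_on with
  | empty =>
    simp only [Multiset.map_zero, Multiset.prod_zero]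
    rw [← Polynomial.C_1, Polynomial.reverse_C]
  | cons z s ih =>
    rw [Multiset.map_cons, Multiset.prod_cons, Polynomial.reverse_mul_of_domain, ih,
      reverse_X_sub_C', Multiset.map_cons, Multiset.prod_cons]

theorem coe_prod_one_sub (s : Multiset ℂ) :
    (((s.map fun z => (1 - Polynomial.C z * Polynomial.X : Polynomial ℂ)).prod :
      Polynomial ℂ) : ℂ⟦X⟧) = prodOneSub s := by
  induction s using Multiset.induction_on with
  | empty => simp [prodOneSub]
  | cons z s ih =>
    rw [Multiset.map_cons, Multiset.prod_cons, Polynomial.coe_mul, ih, prodOneSub, prodOneSub,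
      Multiset.map_cons, Multiset.prod_cons]
    congr 1
    rw [Polynomial.coe_sub, Polynomial.coe_mul]
    simp

variable {ι : Type*} [DecidableEq ι]

omit [DecidableEq ι] in
theorem map_wP (r : Finset ι → ℕ) (S : Finset ι) :
    PowerSeries.map (algebraMap ℝ ℂ) (wP ℝ r S) = wP ℂ r S := by
  rw [wP, wP, map_sum]
  refine Finset.sum_congr rfl fun T _ => ?_
  simp

omit [DecidableEq ι] in
theorem constantCoeff_wP {F : Type*} [Field F] {r : Finset ι → ℕ} (h0 : ∀ T, r T = 0 ↔ T = ∅)
    (S : Finset ι) : constantCoeff (wP F r S) = 1 := by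
  rw [wP, map_sum, Finset.sum_eq_single ∅]
  · simp [(h0 ∅).2 rfl]
  · intro T _ hT
    have : r T ≠ 0 := fun h => hT ((h0 T).1 h)
    simp [this]
  · intro h
    exact absurd (Finset.empty_mem_powerset S) h

omit [DecidableEq ι] in
theorem map_wL {r : Finset ι → ℕ} (h0 : ∀ T, r T = 0 ↔ T = ∅) (S : Finset ι) :
    PowerSeries.map (algebraMap ℝ ℂ) (wL ℝ r S) = wL ℂ r S := by
  have hc := constantCoeff_wP (F := ℂ) h0 S
  have hr := constantCoeff_wP (F := ℝ) h0 S
  have h1 : wL ℂ r S * wP ℂ r S = -(X * derivative ℂ (wP ℂ r S)) := by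
    rw [wL, mul_assoc, PowerSeries.inv_mul_cancel _ (by rw [hc]; exact one_ne_zero), mul_one]
  have h2 : wL ℝ r S * wP ℝ r S = -(X * derivative ℝ (wP ℝ r S)) := by
    rw [wL, mul_assoc, PowerSeries.inv_mul_cancel _ (by rw [hr]; exact one_ne_zero), mul_one]
  have h3 : PowerSeries.map (algebraMap ℝ ℂ) (derivative ℝ (wP ℝ r S)) =
      derivative ℂ (wP ℂ r S) := by
    rw [← map_wP]
    ext n
    rw [coeff_map, PowerSeries.coeff_derivative, PowerSeries.coeff_derivative, coeff_map]
    simp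
  have h4 := congrArg (PowerSeries.map (algebraMap ℝ ℂ)) h2
  rw [map_mul, map_neg, map_mul, h3, map_wP, PowerSeries.map_X] at h4
  have h5 : wP ℂ r S ≠ 0 := by
    intro h
    rw [h] at hc
    simp at hc
  exact mul_right_cancel₀ h5 (h4.trans h1.symm)

theorem natDegree_p {r : Finset ι → ℕ} (h0 : ∀ T, r T = 0 ↔ T = ∅) {S : Finset ι} {n : ℕ}
    (hn : ∀ T ⊆ S, r T ≤ n) {p : Polynomial ℂ}
    (hp : p = ∑ T ∈ S.powerset, (-1) ^ T.card * Polynomial.X ^ (n - r T)) :
    p.Monic ∧ p.natDegree = n := by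
  have h1 : p = Polynomial.X ^ n +
      ∑ T ∈ S.powerset.erase ∅, (-1) ^ T.card * Polynomial.X ^ (n - r T) := by
    rw [hp, ← Finset.add_sum_erase _ _ (Finset.empty_mem_powerset S)]
    simp [(h0 ∅).2 rfl]
  have h2 : (∑ T ∈ S.powerset.erase ∅,
      ((-1) ^ T.card * Polynomial.X ^ (n - r T) : Polynomial ℂ)).degree < (n : WithBot ℕ) := by
    rw [← Polynomial.mem_degreeLT]
    refine Submodule.sum_mem _ fun T hT => ?_
    rw [Finset.mem_erase, Finset.mem_powerset] at hT
    rw [Polynomial.mem_degreeLT]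
    have h3 : r T ≠ 0 := fun h => hT.1 ((h0 T).1 h)
    have h4 := hn T hT.2
    have h5 : ((-1 : Polynomial ℂ) ^ T.card * Polynomial.X ^ (n - r T)) =
        Polynomial.C ((-1) ^ T.card) * Polynomial.X ^ (n - r T) := by simp
    rw [h5]
    refine lt_of_le_of_lt (Polynomial.degree_C_mul_X_pow_le _ _) ?_
    exact_mod_cast (by omega : n - r T < n)
  have h6 : p.Monic := by
    rw [h1]
    exact Polynomial.monic_X_pow_add h2
  refine ⟨h6, ?_⟩
  rw [h1]
  rw [Polynomial.natDegree_add_eq_left_of_degree_lt, Polynomial.natDegree_X_pow]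
  rw [Polynomial.degree_X_pow]
  exact h2

theorem wP_eq_prodOneSub {r : Finset ι → ℕ} (h0 : ∀ T, r T = 0 ↔ T = ∅) {S : Finset ι} {n : ℕ}
    (hn : ∀ T ⊆ S, r T ≤ n) {p : Polynomial ℂ}
    (hp : p = ∑ T ∈ S.powerset, (-1) ^ T.card * Polynomial.X ^ (n - r T)) :
    wP ℂ r S = prodOneSub p.roots := by
  obtain ⟨hm, hd⟩ := natDegree_p h0 hn hp
  have h1 : (p.roots.map fun a => Polynomial.X - Polynomial.C a).prod = p := by
    have := (IsAlgClosed.splits p).eq_prod_roots
    rw [hm.leadingCoeff] at this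
    simpa using this.symm
  have h2 : p.reverse = ∑ T ∈ S.powerset, (-1) ^ T.card * Polynomial.X ^ (r T) := by
    rw [Polynomial.reverse, hd]
    have h3 : ∀ (s : Finset (Finset ι)) (f : Finset ι → Polynomial ℂ),
        Polynomial.reflect n (∑ T ∈ s, f T) = ∑ T ∈ s, Polynomial.reflect n (f T) := by
      intro s f
      classical
      induction s using Finset.induction_on with
      | empty => simp
      | insert a s ha ih => rw [Finset.sum_insert ha, Polynomial.reflect_add, ih,
          Finset.sum_insert ha]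
    rw [hp, h3]
    refine Finset.sum_congr rfl fun T hT => ?_
    rw [Finset.mem_powerset] at hT
    have h4 := hn T hT
    have h5 : ((-1 : Polynomial ℂ) ^ T.card) = Polynomial.C ((-1) ^ T.card) := by simp
    rw [h5, Polynomial.reflect_C_mul_X_pow, Polynomial.revAt_le (Nat.sub_le _ _)]
    congr 2
    omega
  rw [← coe_prod_one_sub, ← reverse_prod_X_sub_C, h1, h2, wP]
  rw [← Polynomial.coeToPowerSeries.ringHom_apply, map_sum]
  refine Finset.sum_congr rfl fun T _ => ?_
  simp

/-- the `k`-th coefficient is the `k`-th power sum of the roots. -/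
theorem coeff_wL_eq_sum_roots {r : Finset ι → ℕ} (h0 : ∀ T, r T = 0 ↔ T = ∅) {S : Finset ι} {n : ℕ}
    (hn : ∀ T ⊆ S, r T ≤ n) {p : Polynomial ℂ}
    (hp : p = ∑ T ∈ S.powerset, (-1) ^ T.card * Polynomial.X ^ (n - r T)) {k : ℕ} (hk : 1 ≤ k) :
    ((coeff k (wL ℝ r S) : ℝ) : ℂ) = (p.roots.map (· ^ k)).sum := by
  have h1 : wL ℂ r S = powerSumGen p.roots := by
    rw [wL, wP_eq_prodOneSub h0 hn hp, neg_X_mul_derivative_prodOneSub,
      mul_comm (prodOneSub _), mul_assoc, PowerSeries.mul_inv_cancel, mul_one]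
    rw [constantCoeff_prodOneSub]
    exact one_ne_zero
  have h2 : ((coeff k (wL ℝ r S) : ℝ) : ℂ) = coeff k (wL ℂ r S) := by
    rw [← map_wL h0, coeff_map]
    rfl
  rw [h2, h1, powerSumGen, coeff_mk, if_neg (by omega)]

theorem abs_coeff_wL_le {r : Finset ι → ℕ} (h0 : ∀ T, r T = 0 ↔ T = ∅) {S : Finset ι} {n : ℕ}
    (hn : ∀ T ⊆ S, r T ≤ n) {p : Polynomial ℂ}
    (hp : p = ∑ T ∈ S.powerset, (-1) ^ T.card * Polynomial.X ^ (n - r T)) {k : ℕ} (hk : 1 ≤ k)
    {ρ : ℝ} (hρ : ∀ z : ℂ, p.IsRoot z → ‖z‖ ≤ ρ) :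
    |coeff k (wL ℝ r S)| ≤ n * ρ ^ k := by
  obtain ⟨hm, hd⟩ := natDegree_p h0 hn hp
  have h1 := coeff_wL_eq_sum_roots h0 hn hp hk
  have h2 : |coeff k (wL ℝ r S)| = ‖((coeff k (wL ℝ r S) : ℝ) : ℂ)‖ := by
    rw [Complex.norm_real, Real.norm_eq_abs]
  have hcard : p.roots.card ≤ n := hd ▸ Polynomial.card_roots' p
  have hne : p ≠ 0 := hm.ne_zero
  have h3 : ∀ s : Multiset ℂ, (∀ z ∈ s, ‖z‖ ≤ ρ) →
      ‖(s.map (· ^ k)).sum‖ ≤ s.card * ρ ^ k := by
    intro s
    induction s using Multiset.induction_on with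
    | empty => simp
    | cons z s ih =>
      intro hs
      rw [Multiset.map_cons, Multiset.sum_cons, Multiset.card_cons]
      have h4 := ih fun w hw => hs w (Multiset.mem_cons_of_mem hw)
      have h5 := hs z (Multiset.mem_cons_self z s)
      have h6 : ‖z ^ k‖ ≤ ρ ^ k := by
        rw [norm_pow]
        exact pow_le_pow_left₀ (norm_nonneg z) h5 k
      refine (norm_add_le _ _).trans ?_
      push_cast
      linarith
  have h7 := h3 p.roots fun z hz => hρ z ((Polynomial.mem_roots hne).1 hz)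
  rw [h2, h1]
  refine h7.trans ?_
  have hcard' : p.roots.card = n := by
    rw [← hd]
    exact (Polynomial.splits_iff_card_roots.1 (IsAlgClosed.splits p))
  rw [hcard']

end Roots

end MP6f9538
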